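import Mathlib

/-! Forms in three variables as functions; transport by linear changes. -/

namespace Pool.Agent.X21.Ht

noncomputable section

abbrev V := Fin 3 → ℝ

def N (v : V) : ℝ := v 0 ^ 2 + v 1 ^ 2 + v 2 ^ 2

def mono (i j k : ℕ) : V → ℝ := fun v => v 0 ^ i * v 1 ^ j * v 2 ^ k

/-- forms of degree `n` -/
def H (n : ℕ) : Submodule ℝ (V → ℝ) :=
  Submodule.span ℝ {g | ∃ i j k : ℕ, i + j + k = n ∧ g = mono i j k}

lemma mono_mem (i j k n : ℕ) (h : i + j + k = n) : mono i j k ∈ H n :=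
  Submodule.subset_span ⟨i, j, k, h, rfl⟩

lemma mul_memH {m n : ℕ} {f g : V → ℝ} (hf : f ∈ H m) (hg : g ∈ H n) :
    (fun v => f v * g v) ∈ H (m + n) := by
  unfold H at hf
  refine Submodule.span_induction (p := fun f _ => (fun v => f v * g v) ∈ H (m + n))
    ?_ ?_ ?_ ?_ hf
  · rintro f ⟨i, j, k, h, rfl⟩
    unfold H at hg
    refine Submodule.span_induction
      (p := fun g _ => (fun v => mono i j k v * g v) ∈ H (m + n)) ?_ ?_ ?_ ?_ hg
    · rintro g ⟨i', j', k', h', rfl⟩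
      have : (fun v => mono i j k v * mono i' j' k' v) = mono (i + i') (j + j') (k + k') := by
        funext v; simp only [mono, pow_add]; ring
      rw [this]
      exact mono_mem _ _ _ _ (by omega)
    · have : (fun v => mono i j k v * (0 : V → ℝ) v) = 0 := by funext v; simp
      rw [this]; exact zero_mem _
    · intro a b _ _ ha hb
      have : (fun v => mono i j k v * (a + b) v)
          = (fun v => mono i j k v * a v) + (fun v => mono i j k v * b v) := by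
        funext v; simp only [Pi.add_apply]; ring
      rw [this]; exact add_mem ha hb
    · intro c a _ ha
      have : (fun v => mono i j k v * (c • a) v) = c • (fun v => mono i j k v * a v) := by
        funext v; simp only [Pi.smul_apply, smul_eq_mul]; ring
      rw [this]; exact Submodule.smul_mem _ _ ha
  · have : (fun v => (0 : V → ℝ) v * g v) = 0 := by funext v; simp
    rw [this]; exact zero_mem _
  · intro a b _ _ ha hb
    have : (fun v => (a + b) v * g v)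
        = (fun v => a v * g v) + (fun v => b v * g v) := by
      funext v; simp only [Pi.add_apply]; ring
    rw [this]; exact add_mem ha hb
  · intro c a _ ha
    have : (fun v => (c • a) v * g v) = c • (fun v => a v * g v) := by
      funext v; simp only [Pi.smul_apply, smul_eq_mul]; ring
    rw [this]; exact Submodule.smul_mem _ _ ha

lemma pow_memH {m : ℕ} {f : V → ℝ} (hf : f ∈ H m) (n : ℕ) :
    (fun v => f v ^ n) ∈ H (m * n) := by
  induction n with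
  | zero =>
    have : (fun v => f v ^ 0) = mono 0 0 0 := by funext v; simp [mono]
    rw [this]; exact mono_mem _ _ _ _ (by simp)
  | succ n ih =>
    have : (fun v => f v ^ (n + 1)) = fun v => f v ^ n * f v := by funext v; rw [pow_succ]
    rw [this, Nat.mul_succ]
    exact mul_memH ih hf

lemma exc {n : ℕ} {f : V → ℝ} (hf : f ∈ H n) : ∃ c : ℕ → ℕ → ℝ, ∀ v,
    f v = ∑ i ∈ Finset.range (n + 1), ∑ j ∈ Finset.range (n + 1 - i),
      c i j * (v 0 ^ i * v 1 ^ j * v 2 ^ (n - i - j)) := by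
  unfold H at hf
  refine Submodule.span_induction (p := fun f _ => ∃ c : ℕ → ℕ → ℝ, ∀ v : V,
    f v = ∑ i ∈ Finset.range (n + 1), ∑ j ∈ Finset.range (n + 1 - i),
      c i j * (v 0 ^ i * v 1 ^ j * v 2 ^ (n - i - j))) ?_ ?_ ?_ ?_ hf
  · rintro f ⟨i, j, k, h, rfl⟩
    refine ⟨fun a b => if a = i ∧ b = j then 1 else 0, fun v => ?_⟩
    rw [Finset.sum_eq_single i, Finset.sum_eq_single j]
    · simp only [mono, and_self, if_true, one_mul]
      rw [show n - i - j = k by omega]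
    · intro b _ hb; simp [hb]
    · intro hb; exfalso; apply hb; rw [Finset.mem_range]; omega
    · intro a _ ha
      apply Finset.sum_eq_zero; intro b _; simp [ha]
    · intro hb; exfalso; apply hb; rw [Finset.mem_range]; omega
  · exact ⟨fun _ _ => 0, fun v => by simp⟩
  · rintro a b _ _ ⟨c, hc⟩ ⟨d, hd⟩
    refine ⟨fun i j => c i j + d i j, fun v => ?_⟩
    rw [Pi.add_apply, hc, hd, ← Finset.sum_add_distrib]
    refine Finset.sum_congr rfl fun i _ => ?_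
    rw [← Finset.sum_add_distrib]
    refine Finset.sum_congr rfl fun j _ => ?_
    ring
  · rintro r a _ ⟨c, hc⟩
    refine ⟨fun i j => r * c i j, fun v => ?_⟩
    rw [Pi.smul_apply, hc, smul_eq_mul, Finset.mul_sum]
    refine Finset.sum_congr rfl fun i _ => ?_
    rw [Finset.mul_sum]
    refine Finset.sum_congr rfl fun j _ => ?_
    ring

lemma ex1 {f : V → ℝ} (hf : f ∈ H 1) : ∃ a b c : ℝ, ∀ v, f v = a * v 0 + b * v 1 + c * v 2 := by
  obtain ⟨c, hc⟩ := exc hf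
  refine ⟨c 1 0, c 0 1, c 0 0, fun v => ?_⟩
  rw [hc]; simp [Finset.sum_range_succ]; ring

lemma ex2 {f : V → ℝ} (hf : f ∈ H 2) : ∃ a b c d e g : ℝ, ∀ v, f v =
    a * v 0 ^ 2 + b * v 0 * v 1 + c * v 0 * v 2 + d * v 1 ^ 2 + e * v 1 * v 2 + g * v 2 ^ 2 := by
  obtain ⟨c, hc⟩ := exc hf
  refine ⟨c 2 0, c 1 1, c 1 0, c 0 2, c 0 1, c 0 0, fun v => ?_⟩
  rw [hc]; simp [Finset.sum_range_succ]; ring

lemma ex3 {f : V → ℝ} (hf : f ∈ H 3) : ∃ a0 a1 a2 a3 a4 a5 a6 a7 a8 a9 : ℝ, ∀ v, f v =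
    a0 * v 0 ^ 3 + a1 * v 0 ^ 2 * v 1 + a2 * v 0 ^ 2 * v 2 + a3 * v 0 * v 1 ^ 2
    + a4 * v 0 * v 1 * v 2 + a5 * v 0 * v 2 ^ 2 + a6 * v 1 ^ 3 + a7 * v 1 ^ 2 * v 2
    + a8 * v 1 * v 2 ^ 2 + a9 * v 2 ^ 3 := by
  obtain ⟨c, hc⟩ := exc hf
  refine ⟨c 3 0, c 2 1, c 2 0, c 1 2, c 1 1, c 1 0, c 0 3, c 0 2, c 0 1, c 0 0, fun v => ?_⟩
  rw [hc]; simp [Finset.sum_range_succ]; ring

lemma ex4 {f : V → ℝ} (hf : f ∈ H 4) : ∃ c0 c1 c2 c3 c4 c5 c6 c7 c8 c9 c10 c11 c12 c13 c14 : ℝ,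
    ∀ v, f v = c0 * v 0 ^ 4 + c1 * v 0 ^ 3 * v 1 + c2 * v 0 ^ 3 * v 2 + c3 * v 0 ^ 2 * v 1 ^ 2
    + c4 * v 0 ^ 2 * v 1 * v 2 + c5 * v 0 ^ 2 * v 2 ^ 2 + c6 * v 0 * v 1 ^ 3
    + c7 * v 0 * v 1 ^ 2 * v 2 + c8 * v 0 * v 1 * v 2 ^ 2 + c9 * v 0 * v 2 ^ 3
    + c10 * v 1 ^ 4 + c11 * v 1 ^ 3 * v 2 + c12 * v 1 ^ 2 * v 2 ^ 2 + c13 * v 1 * v 2 ^ 3
    + c14 * v 2 ^ 4 := by
  obtain ⟨c, hc⟩ := exc hf
  refine ⟨c 4 0, c 3 1, c 3 0, c 2 2, c 2 1, c 2 0, c 1 3, c 1 2, c 1 1, c 1 0,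
    c 0 4, c 0 3, c 0 2, c 0 1, c 0 0, fun v => ?_⟩
  rw [hc]; simp [Finset.sum_range_succ]; ring

lemma mk1 (a b c : ℝ) : (fun v : V => a * v 0 + b * v 1 + c * v 2) ∈ H 1 := by
  have : (fun v : V => a * v 0 + b * v 1 + c * v 2)
      = a • mono 1 0 0 + b • mono 0 1 0 + c • mono 0 0 1 := by
    funext v; simp [mono]
  rw [this]
  refine add_mem (add_mem ?_ ?_) ?_ <;>
    exact Submodule.smul_mem _ _ (mono_mem _ _ _ _ (by norm_num))

lemma mk2 (a b c d e g : ℝ) : (fun v : V => a * v 0 ^ 2 + b * v 0 * v 1 + c * v 0 * v 2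
    + d * v 1 ^ 2 + e * v 1 * v 2 + g * v 2 ^ 2) ∈ H 2 := by
  have : (fun v : V => a * v 0 ^ 2 + b * v 0 * v 1 + c * v 0 * v 2
    + d * v 1 ^ 2 + e * v 1 * v 2 + g * v 2 ^ 2)
      = a • mono 2 0 0 + b • mono 1 1 0 + c • mono 1 0 1 + d • mono 0 2 0 + e • mono 0 1 1
        + g • mono 0 0 2 := by
    funext v; simp [mono]; ring
  rw [this]
  refine add_mem (add_mem (add_mem (add_mem (add_mem ?_ ?_) ?_) ?_) ?_) ?_ <;>
    exact Submodule.smul_mem _ _ (mono_mem _ _ _ _ (by norm_num))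

def act (M : Matrix (Fin 3) (Fin 3) ℝ) (f : V → ℝ) : V → ℝ := fun v => f (M.mulVec v)

lemma coord_mem (M : Matrix (Fin 3) (Fin 3) ℝ) (i : Fin 3) :
    (fun v : V => (M.mulVec v) i) ∈ H 1 := by
  have : (fun v : V => (M.mulVec v) i) = fun v => M i 0 * v 0 + M i 1 * v 1 + M i 2 * v 2 := by
    funext v; simp [Matrix.mulVec, dotProduct, Fin.sum_univ_three]
  rw [this]; exact mk1 _ _ _

lemma act_mem (M : Matrix (Fin 3) (Fin 3) ℝ) {n : ℕ} {f : V → ℝ} (hf : f ∈ H n) :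
    act M f ∈ H n := by
  unfold H at hf
  refine Submodule.span_induction (p := fun f _ => act M f ∈ H n) ?_ ?_ ?_ ?_ hf
  · rintro f ⟨i, j, k, h, rfl⟩
    have h1 := mul_memH (mul_memH (pow_memH (coord_mem M 0) i) (pow_memH (coord_mem M 1) j))
      (pow_memH (coord_mem M 2) k)
    rw [show 1 * i + 1 * j + 1 * k = n by omega] at h1
    exact h1
  · have : act M 0 = 0 := by funext v; simp [act]
    rw [this]; exact zero_mem _
  · intro a b _ _ ha hb
    have : act M (a + b) = act M a + act M b := by funext v; simp [act]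
    rw [this]; exact add_mem ha hb
  · intro c a _ ha
    have : act M (c • a) = c • act M a := by funext v; simp [act]
    rw [this]; exact Submodule.smul_mem _ _ ha

lemma act_act (M M' : Matrix (Fin 3) (Fin 3) ℝ) (f : V → ℝ) :
    act M (act M' f) = act (M' * M) f := by
  funext v; simp [act, Matrix.mulVec_mulVec]

lemma act_inv (M : Matrix (Fin 3) (Fin 3) ℝ) (hM : M.det ≠ 0) (f : V → ℝ) :
    act M⁻¹ (act M f) = f := by
  rw [act_act, Matrix.mul_nonsing_inv _ (Ne.isUnit hM)]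
  funext v; simp [act]

lemma act_inv' (M : Matrix (Fin 3) (Fin 3) ℝ) (hM : M.det ≠ 0) (f : V → ℝ) :
    act M (act M⁻¹ f) = f := by
  rw [act_act, Matrix.nonsing_inv_mul _ (Ne.isUnit hM)]
  funext v; simp [act]

lemma N_nonneg (v : V) : 0 ≤ N v := by unfold N; positivity

lemma cs (a b c x y z : ℝ) :
    (a * x + b * y + c * z) ^ 2 ≤ (a ^ 2 + b ^ 2 + c ^ 2) * (x ^ 2 + y ^ 2 + z ^ 2) := by
  nlinarith [sq_nonneg (a * y - b * x), sq_nonneg (a * z - c * x), sq_nonneg (b * z - c * y)]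

lemma lin_bound {m : V → ℝ} (hm : m ∈ H 1) : ∃ K : ℝ, 0 ≤ K ∧ ∀ v, m v ^ 2 ≤ K * N v := by
  obtain ⟨a, b, c, h⟩ := ex1 hm
  exact ⟨a ^ 2 + b ^ 2 + c ^ 2, by positivity, fun v => by rw [h]; exact cs _ _ _ _ _ _⟩

lemma N_act (M : Matrix (Fin 3) (Fin 3) ℝ) : ∃ K : ℝ, 0 ≤ K ∧ ∀ v, N (M.mulVec v) ≤ K * N v := by
  obtain ⟨K0, h0, k0⟩ := lin_bound (coord_mem M 0)
  obtain ⟨K1, h1, k1⟩ := lin_bound (coord_mem M 1)
  obtain ⟨K2, h2, k2⟩ := lin_bound (coord_mem M 2)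
  refine ⟨K0 + K1 + K2, by positivity, fun v => ?_⟩
  have := k0 v; have := k1 v; have := k2 v
  unfold N at *
  nlinarith

/-- quadratic forms `q` with `q ^ 2 ≤ C f` -/
def W4 (f : V → ℝ) : Submodule ℝ (V → ℝ) where
  carrier := {q | q ∈ H 2 ∧ ∃ C : ℝ, ∀ v, q v ^ 2 ≤ C * f v}
  zero_mem' := ⟨zero_mem _, 0, fun v => by simp⟩
  add_mem' := by
    rintro a b ⟨ha, C, hC⟩ ⟨hb, D, hD⟩
    refine ⟨add_mem ha hb, 2 * C + 2 * D, fun v => ?_⟩
    have := hC v; have := hD v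
    simp only [Pi.add_apply]
    nlinarith [sq_nonneg (a v - b v)]
  smul_mem' := by
    rintro r a ⟨ha, C, hC⟩
    refine ⟨Submodule.smul_mem _ _ ha, r ^ 2 * C, fun v => ?_⟩
    have := mul_le_mul_of_nonneg_left (hC v) (sq_nonneg r)
    simp only [Pi.smul_apply, smul_eq_mul]
    nlinarith

def D3 (f p : V → ℝ) : Prop := ∃ C : ℝ, ∀ v, p v ^ 2 ≤ C * (f v * N v)

def TwoVar (f : V → ℝ) : Prop := ∃ u : V, u ≠ 0 ∧ ∀ v (s : ℝ), f (v + s • u) = f v

def Dec (f p : V → ℝ) : Prop := ∃ q m : Fin 3 → V → ℝ,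
  (∀ i, q i ∈ W4 f ∧ m i ∈ H 1) ∧ ∀ v, p v = ∑ i, q i v * m i v

def Ok (f : V → ℝ) : Prop :=
  (∃ q ∈ W4 f, q ≠ 0) ∧ (TwoVar f ∨ ∀ p ∈ H 3, D3 f p → Dec f p)

lemma W4_act (M : Matrix (Fin 3) (Fin 3) ℝ) {f q : V → ℝ} (hq : q ∈ W4 f) :
    act M q ∈ W4 (act M f) := by
  obtain ⟨h, C, hC⟩ := hq
  exact ⟨act_mem M h, C, fun v => hC _⟩

theorem Ok_act (M : Matrix (Fin 3) (Fin 3) ℝ) (hM : M.det ≠ 0) {f : V → ℝ}
    (hf0 : ∀ v, 0 ≤ f v) (hf : Ok f) : Ok (act M f) := by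
  obtain ⟨⟨q, hq, hq0⟩, h⟩ := hf
  have hinv : ∀ v, M.mulVec (M⁻¹.mulVec v) = v := by
    intro v
    rw [Matrix.mulVec_mulVec, Matrix.mul_nonsing_inv _ (Ne.isUnit hM), Matrix.one_mulVec]
  refine ⟨⟨act M q, W4_act M hq, ?_⟩, ?_⟩
  · intro h0
    apply hq0
    rw [← act_inv M hM q, h0]
    funext v; simp [act]
  rcases h with ⟨u, hu, h⟩ | h
  · left
    refine ⟨M⁻¹.mulVec u, ?_, fun v s => ?_⟩
    · intro h0
      apply hu
      rw [← hinv u, h0, Matrix.mulVec_zero]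
    · simp only [act]
      rw [Matrix.mulVec_add, Matrix.mulVec_smul, hinv, h]
  · right
    rintro p hp ⟨C, hC⟩
    have h1 : D3 f (act M⁻¹ p) := by
      obtain ⟨K, hK0, hK⟩ := N_act M⁻¹
      refine ⟨|C| * K, fun v => ?_⟩
      have h2 := hC (M⁻¹.mulVec v)
      simp only [act, hinv] at h2
      simp only [act]
      have h3 : C * (f v * N (M⁻¹.mulVec v)) ≤ |C| * (f v * N (M⁻¹.mulVec v)) :=
        mul_le_mul_of_nonneg_right (le_abs_self C) (mul_nonneg (hf0 v) (N_nonneg _))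
      have h4 : |C| * (f v * N (M⁻¹.mulVec v)) ≤ |C| * (f v * (K * N v)) :=
        mul_le_mul_of_nonneg_left (mul_le_mul_of_nonneg_left (hK v) (hf0 v)) (abs_nonneg C)
      nlinarith
    obtain ⟨q, m, hqm, hp'⟩ := h _ (act_mem _ hp) h1
    refine ⟨fun i => act M (q i), fun i => act M (m i), fun i => ⟨W4_act M (hqm i).1,
      act_mem M (hqm i).2⟩, fun v => ?_⟩
    have h5 := hp' (M.mulVec v)
    rw [show p v = act M (act M⁻¹ p) v by rw [act_inv' M hM]]
    exact h5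

theorem Ok_of_act (M : Matrix (Fin 3) (Fin 3) ℝ) (hM : M.det ≠ 0) {f : V → ℝ}
    (hf0 : ∀ v, 0 ≤ f v) (hf : Ok (act M f)) : Ok f := by
  have h := Ok_act M⁻¹ (by
    rw [Matrix.det_nonsing_inv]
    simp [hM]) (f := act M f) (fun v => hf0 _) hf
  rwa [act_inv M hM] at h

lemma hom {n : ℕ} {f : V → ℝ} (hf : f ∈ H n) (t : ℝ) (v : V) : f (t • v) = t ^ n * f v := by
  unfold H at hf
  refine Submodule.span_induction (p := fun f _ => f (t • v) = t ^ n * f v) ?_ ?_ ?_ ?_ hf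
  · rintro f ⟨i, j, k, h, rfl⟩
    simp only [mono, Pi.smul_apply, smul_eq_mul, ← h]
    ring
  · simp
  · intro a b _ _ ha hb
    simp only [Pi.add_apply, ha, hb]; ring
  · intro c a _ ha
    simp only [Pi.smul_apply, smul_eq_mul, ha]; ring

lemma contH {n : ℕ} {f : V → ℝ} (hf : f ∈ H n) : Continuous f := by
  unfold H at hf
  refine Submodule.span_induction (p := fun f _ => Continuous f) ?_ ?_ ?_ ?_ hf
  · rintro f ⟨i, j, k, h, rfl⟩
    unfold mono; fun_prop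
  · exact continuous_const
  · intro a b _ _ ha hb; exact ha.add hb
  · intro c a _ ha; exact ha.const_smul c

def sph : Set V := {v | N v = 1}

lemma N_cont : Continuous N := by unfold N; fun_prop

lemma sph_compact : IsCompact sph := by
  apply Metric.isCompact_of_isClosed_isBounded
  · exact isClosed_eq N_cont continuous_const
  · rw [Metric.isBounded_iff_subset_closedBall 0]
    refine ⟨1, fun v hv => ?_⟩
    rw [mem_closedBall_zero_iff, pi_norm_le_iff_of_nonneg zero_le_one]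
    intro i
    have hv' : v 0 ^ 2 + v 1 ^ 2 + v 2 ^ 2 = 1 := hv
    rw [Real.norm_eq_abs, abs_le_one_iff_mul_self_le_one]
    fin_cases i <;> simp <;> nlinarith [sq_nonneg (v 0), sq_nonneg (v 1), sq_nonneg (v 2)]

lemma cpt_pos {g : V → ℝ} (hg : Continuous g) (h : ∀ v ∈ sph, 0 < g v) :
    ∃ c > 0, ∀ v ∈ sph, c ≤ g v := by
  have hne : sph.Nonempty := ⟨![1, 0, 0], by simp [sph, N]⟩
  obtain ⟨w, hw, hmin⟩ := sph_compact.exists_isMinOn hne hg.continuousOn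
  exact ⟨g w, h w hw, fun v hv => hmin hv⟩

lemma cpt_bd {g : V → ℝ} (hg : Continuous g) : ∃ c > 0, ∀ v ∈ sph, g v ≤ c := by
  have hne : sph.Nonempty := ⟨![1, 0, 0], by simp [sph, N]⟩
  obtain ⟨w, hw, hmax⟩ := sph_compact.exists_isMaxOn hne hg.continuousOn
  refine ⟨|g w| + 1, by positivity, fun v hv => ?_⟩
  have := hmax hv
  simp only [Set.mem_setOf_eq] at this
  linarith [le_abs_self (g w)]

lemma N_pos {v : V} (hv : v ≠ 0) : 0 < N v := by
  rcases (N_nonneg v).lt_or_eq with h | h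
  · exact h
  exfalso; apply hv
  unfold N at h
  have h0 : v 0 = 0 := by nlinarith [sq_nonneg (v 0), sq_nonneg (v 1), sq_nonneg (v 2)]
  have h1 : v 1 = 0 := by nlinarith [sq_nonneg (v 0), sq_nonneg (v 1), sq_nonneg (v 2)]
  have h2 : v 2 = 0 := by nlinarith [sq_nonneg (v 0), sq_nonneg (v 1), sq_nonneg (v 2)]
  funext i; fin_cases i <;> simp [h0, h1, h2]

/-- comparison on the sphere implies comparison everywhere -/
lemma ext_sph {n : ℕ} (hn : n ≠ 0) {a b : V → ℝ} (ha : ∀ (t : ℝ) v, a (t • v) = t ^ n * a v)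
    (hb : ∀ (t : ℝ) v, b (t • v) = t ^ n * b v) (h : ∀ v ∈ sph, a v ≤ b v) (v : V) :
    a v ≤ b v := by
  by_cases hv : v = 0
  · subst hv
    have h1 := ha 0 0; have h2 := hb 0 0
    rw [zero_pow hn] at h1 h2
    simp only [smul_zero, zero_mul] at h1 h2
    rw [h1, h2]
  · have hN := N_pos hv
    set r := Real.sqrt (N v) with hr
    have hr0 : 0 < r := Real.sqrt_pos.2 hN
    have hw : r⁻¹ • v ∈ sph := by
      simp only [sph, Set.mem_setOf_eq, N, Pi.smul_apply, smul_eq_mul]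
      have : r ^ 2 = N v := Real.sq_sqrt hN.le
      unfold N at this
      field_simp
      linarith
    have h1 := h _ hw
    have h2 : v = r • (r⁻¹ • v) := by rw [smul_smul, mul_inv_cancel₀ hr0.ne', one_smul]
    rw [h2, ha r, hb r]
    exact mul_le_mul_of_nonneg_left h1 (by positivity)

lemma N_hom (t : ℝ) (v : V) : N (t • v) = t ^ 2 * N v := by
  simp [N]; ring

end

end Pool.Agent.X21.Ht
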