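import Pool.Agent.X21.Ht.G9

namespace Pool.Agent.X21.Ht

noncomputable section

open MvPolynomial

lemma f3_bound {F4 F3 F2 F1 : V → ℝ} {k : ℝ} (h4 : F4 ∈ H 4) (h3 : F3 ∈ H 3) (h2 : F2 ∈ H 2)
    (h1 : F1 ∈ H 1) (h : ∀ v, 0 ≤ F4 v + F3 v + F2 v + F1 v + k) :
    (∀ v, 0 ≤ F4 v) ∧ D3 F4 F3 := by
  have hx : ∀ (v : V) (x : ℝ), 0 ≤ x ^ 4 * F4 v + x ^ 3 * F3 v + x ^ 2 * F2 v + x * F1 v + k := by
    intro v x
    have := h (x • v)
    rw [hom h4, hom h3, hom h2, hom h1] at this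
    linarith
  have hy : ∀ (v : V) (y : ℝ), y ≠ 0 →
      0 ≤ F4 v + y * F3 v + y ^ 2 * F2 v + y ^ 3 * F1 v + y ^ 4 * k := by
    intro v y hy
    have h5 := hx v y⁻¹
    have e : F4 v + y * F3 v + y ^ 2 * F2 v + y ^ 3 * F1 v + y ^ 4 * k
        = y ^ 4 * (y⁻¹ ^ 4 * F4 v + y⁻¹ ^ 3 * F3 v + y⁻¹ ^ 2 * F2 v + y⁻¹ * F1 v + k) := by
      field_simp
    rw [e]; positivity
  have h40 : ∀ v, 0 ≤ F4 v := by
    intro v
    have := cont0 (g := fun y => F4 v + y * F3 v + y ^ 2 * F2 v + y ^ 3 * F1 v + y ^ 4 * k)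
      (by fun_prop) (fun y hy' => hy v y hy')
    simpa using this
  refine ⟨h40, ?_⟩
  obtain ⟨M, hM, hM'⟩ := cpt_bd (g := fun v => |F3 v| + |F2 v| + |F1 v| + |k|)
    ((((contH h3).abs.add (contH h2).abs).add (contH h1).abs).add continuous_const)
  refine ⟨4 * M, ?_⟩
  refine ext_sph (n := 6) (by norm_num) (fun t v => ?_) (fun t v => ?_) ?_
  · rw [hom h3]; ring
  · rw [hom h4, N_hom]; ring
  · intro v hv
    have hN : N v = 1 := hv
    have hMv : |F3 v| + |F2 v| + |F1 v| + |k| ≤ M := hM' v hv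
    have a3 := abs_nonneg (F3 v)
    have a2 := abs_nonneg (F2 v)
    have a1 := abs_nonneg (F1 v)
    have a0 := abs_nonneg k
    obtain ⟨_, _, e⟩ := quad (b := M) (c := F3 v) (d := F4 v) (fun x => by
      by_cases hx0 : x = 0
      · subst hx0; simpa using h40 v
      rcases le_or_gt |x| 1 with hx1 | hx1
      · have q := hy v x hx0
        have s1 : x ^ 2 * F2 v ≤ x ^ 2 * |F2 v| :=
          mul_le_mul_of_nonneg_left (le_abs_self _) (sq_nonneg x)
        have s2 : x ^ 3 * F1 v ≤ x ^ 2 * |F1 v| := by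
          have : x * F1 v ≤ |F1 v| := by
            calc x * F1 v ≤ |x * F1 v| := le_abs_self _
              _ = |x| * |F1 v| := abs_mul _ _
              _ ≤ 1 * |F1 v| := mul_le_mul_of_nonneg_right hx1 a1
              _ = |F1 v| := one_mul _
          have := mul_le_mul_of_nonneg_left this (sq_nonneg x)
          calc x ^ 3 * F1 v = x ^ 2 * (x * F1 v) := by ring
            _ ≤ _ := this
        have hx2 : x ^ 2 ≤ 1 := by rw [← sq_abs]; nlinarith [abs_nonneg x]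
        have s3 : x ^ 4 * k ≤ x ^ 2 * |k| := by
          have t1 : x ^ 4 * k ≤ x ^ 4 * |k| :=
            mul_le_mul_of_nonneg_left (le_abs_self _) (by positivity)
          have t2 : x ^ 4 ≤ x ^ 2 := by nlinarith [sq_nonneg x]
          have t3 := mul_le_mul_of_nonneg_right t2 a0
          linarith
        have s4 := mul_le_mul_of_nonneg_right hMv (sq_nonneg x)
        have s5 : 0 ≤ |F3 v| * x ^ 2 := by positivity
        nlinarith
      · have hx2 : |x| ≤ x ^ 2 := by rw [← sq_abs]; nlinarith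
        have s1 : -(F3 v * x) ≤ |F3 v| * x ^ 2 := by
          calc -(F3 v * x) ≤ |F3 v * x| := neg_le_abs _
            _ = |F3 v| * |x| := abs_mul _ _
            _ ≤ |F3 v| * x ^ 2 := mul_le_mul_of_nonneg_left hx2 a3
        have s2 : |F3 v| * x ^ 2 ≤ M * x ^ 2 :=
          mul_le_mul_of_nonneg_right (by linarith) (sq_nonneg x)
        have := h40 v
        linarith)
    rw [hN, mul_one]
    linarith

lemma twoVar_sos {F4 F3 F2 F1 : V → ℝ} {k : ℝ} (h4 : F4 ∈ H 4) (h3 : F3 ∈ H 3) (h2 : F2 ∈ H 2)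
    (h1 : F1 ∈ H 1) (h : ∀ v, 0 ≤ F4 v + F3 v + F2 v + F1 v + k) (hT : TwoVar F4) :
    SOSf (fun v => F4 v + F3 v + F2 v + F1 v + k) := by
  obtain ⟨u, hu, huF⟩ := hT
  obtain ⟨M, hM, hMu⟩ := exM hu
  refine SOSf_of_act M hM ?_
  obtain ⟨c0, c1, c2, c3, c4, c5, c6, c7, c8, c9, c10, c11, c12, c13, c14, e4⟩ :=
    ex4 (act_mem M h4)
  obtain ⟨a0, a1, a2, a3, a4, a5, a6, a7, a8, a9, e3⟩ := ex3 (act_mem M h3)
  obtain ⟨b0, b1, b2, b3, b4, b5, e2⟩ := ex2 (act_mem M h2)
  obtain ⟨l0, l1, l2, e1⟩ := ex1 (act_mem M h1)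
  have e4' : ∀ v, act M F4 v = c10 * v 1 ^ 4 + c11 * v 1 ^ 3 * v 2 + c12 * v 1 ^ 2 * v 2 ^ 2
      + c13 * v 1 * v 2 ^ 3 + c14 * v 2 ^ 4 := by
    intro v
    have t1 : act M F4 v = act M F4 ![0, v 1, v 2] := by
      simp only [act]
      have t2 : M.mulVec v = M.mulVec ![0, v 1, v 2] + v 0 • u := by
        rw [← hMu, ← Matrix.mulVec_smul, ← Matrix.mulVec_add]
        congr 1
        funext i; fin_cases i <;> simp
      rw [t2, huF]
    rw [t1, e4]; simp
  have hact : ∀ v, act M (fun v => F4 v + F3 v + F2 v + F1 v + k) v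
      = act M F4 v + act M F3 v + act M F2 v + act M F1 v + k := fun v => rfl
  have hnn : ∀ x y z : ℝ, 0 ≤ a0 * x ^ 3 + (a1 * y + a2 * z + b0) * x ^ 2
      + (a3 * y ^ 2 + a4 * y * z + a5 * z ^ 2 + b1 * y + b2 * z + l0) * x
      + (c10 * y ^ 4 + c11 * y ^ 3 * z + c12 * y ^ 2 * z ^ 2 + c13 * y * z ^ 3
        + c14 * z ^ 4 + a6 * y ^ 3 + a7 * y ^ 2 * z + a8 * y * z ^ 2 + a9 * z ^ 3
        + b3 * y ^ 2 + b4 * y * z + b5 * z ^ 2 + l1 * y + l2 * z + k) := by
    intro x y z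
    have t : 0 ≤ act M (fun v => F4 v + F3 v + F2 v + F1 v + k) ![x, y, z] := h _
    rw [hact, e4', e3, e2, e1] at t
    simp at t
    linarith
  have ha0 : a0 = 0 := cub (fun x => hnn x 0 0)
  subst ha0
  have hb : ∀ y z : ℝ, 0 ≤ a1 * y + a2 * z + b0 := by
    intro y z
    exact (quad (fun x => by
      have := hnn x y z
      rw [zero_mul, zero_add] at this
      exact this)).1
  have ha1 : a1 = 0 := by
    obtain ⟨_, _, t⟩ := quad (b := 0) (c := a1) (d := b0) (fun y => by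
      have := hb y 0
      linarith)
    nlinarith [sq_nonneg a1]
  have ha2 : a2 = 0 := by
    obtain ⟨_, _, t⟩ := quad (b := 0) (c := a2) (d := b0) (fun z => by
      have := hb 0 z
      linarith)
    nlinarith [sq_nonneg a2]
  refine lemS (b := b0) (a3 := a3) (a4 := a4) (a5 := a5) (b1 := b1) (b2 := b2) (l0 := l0)
    (c10 := c10) (c11 := c11) (c12 := c12) (c13 := c13) (c14 := c14) (a6 := a6) (a7 := a7)
    (a8 := a8) (a9 := a9) (b3 := b3) (b4 := b4) (b5 := b5) (l1 := l1) (l2 := l2) (k := k)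
    (fun v => h _) (fun v => ?_)
  rw [hact, e4', e3, e2, e1, ha1, ha2]
  ring

lemma half_bound {ε K n a : ℝ} (hε : 0 < ε) (hn : 0 ≤ n) (hK : 0 ≤ K) (h : a ^ 2 ≤ K * n) :
    |a| ≤ ε / 8 * n + 2 / ε * K := by
  refine abs_le_of_sq_le_sq ?_ (by positivity)
  have e : (ε / 8 * n + 2 / ε * K) ^ 2 = (ε / 8 * n - 2 / ε * K) ^ 2 + K * n := by
    field_simp; ring
  rw [e]
  nlinarith [sq_nonneg (ε / 8 * n - 2 / ε * K)]

theorem main (f : P) (hf0 : ∀ v, 0 ≤ eval v f) (hdeg : f.totalDegree ≤ 4) :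
    SOSf (fun v => eval v f) ∨ (lap (lap (lap f)) = 0 ∧
      ∃ T > 0, ∀ t ≥ T, SOSf (fun v => eval v (Ht t f))) := by
  have hsum : ∑ i ∈ Finset.range 5, homogeneousComponent i f = f := by
    conv_rhs => rw [← sum_homogeneousComponent f]
    symm
    apply Finset.sum_subset
    · intro i hi
      rw [Finset.mem_range] at hi ⊢
      omega
    · intro i _ hi
      apply homogeneousComponent_eq_zero
      rw [Finset.mem_range] at hi
      omega
  obtain ⟨F4, hF4⟩ : ∃ F : V → ℝ, F = fun v => eval v (homogeneousComponent 4 f) := ⟨_, rfl⟩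
  obtain ⟨F3, hF3⟩ : ∃ F : V → ℝ, F = fun v => eval v (homogeneousComponent 3 f) := ⟨_, rfl⟩
  obtain ⟨F2, hF2⟩ : ∃ F : V → ℝ, F = fun v => eval v (homogeneousComponent 2 f) := ⟨_, rfl⟩
  obtain ⟨F1, hF1⟩ : ∃ F : V → ℝ, F = fun v => eval v (homogeneousComponent 1 f) := ⟨_, rfl⟩
  have h4 : F4 ∈ H 4 := by rw [hF4]; exact evH (homogeneousComponent_isHomogeneous 4 f)
  have h3 : F3 ∈ H 3 := by rw [hF3]; exact evH (homogeneousComponent_isHomogeneous 3 f)
  have h2 : F2 ∈ H 2 := by rw [hF2]; exact evH (homogeneousComponent_isHomogeneous 2 f)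
  have h1 : F1 ∈ H 1 := by rw [hF1]; exact evH (homogeneousComponent_isHomogeneous 1 f)
  obtain ⟨k, hk⟩ : ∃ k : ℝ, k = coeff 0 f := ⟨_, rfl⟩
  have hev : ∀ v, eval v f = F4 v + F3 v + F2 v + F1 v + k := by
    intro v
    conv_lhs => rw [← hsum]
    rw [hF4, hF3, hF2, hF1, hk]
    simp only [Finset.sum_range_succ, Finset.sum_range_zero, map_add, map_zero,
      homogeneousComponent_zero, eval_C]
    ring
  have hall : ∀ v, 0 ≤ F4 v + F3 v + F2 v + F1 v + k := fun v => by rw [← hev]; exact hf0 v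
  obtain ⟨h40, hD3⟩ := f3_bound h4 h3 h2 h1 hall
  by_cases hT : TwoVar F4
  · left
    have := twoVar_sos h4 h3 h2 h1 hall hT
    simpa only [← hev] using this
  right
  have hne : ∃ v, F4 v ≠ 0 := by
    by_contra hc
    push Not at hc
    apply hT
    refine ⟨![1, 0, 0], ?_, fun v s => by rw [hc, hc]⟩
    intro h0
    have := congrFun h0 0
    simp at this
  have hdec : Dec F4 F3 := by
    rcases (classify h4 h40 hne).2 with h | h
    · exact absurd h hT
    · exact h F3 h3 hD3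
  obtain ⟨L, hL, hL4, hL3⟩ := pairs h4 h40 hdec
  obtain ⟨S, A, B, α, γ, hA, hB, hα, hγ, hA0, hAx, hγA, hS, hS3, hHt⟩ := listP L hL
  have hApos : ∀ v ∈ sph, 0 < A v := by
    intro v hv
    refine lt_of_le_of_ne (hA0 v) (fun hc => hT ⟨v, ?_, fun w s => ?_⟩)
    · rintro rfl
      have : N 0 = 1 := hv
      simp [N] at this
    · rw [hL4, hL4]
      congr 1
      apply List.map_congr_left
      intro x hx
      rw [hAx v hc.symm x hx]
  obtain ⟨ε, hε, hε'⟩ := cpt_pos (contH hA) hApos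
  have hAε : ∀ v, ε * N v ≤ A v := by
    refine ext_sph (n := 2) (by norm_num) (fun t v => ?_) (fun t v => hom hA t v) ?_
    · rw [N_hom]; ring
    · intro v hv
      have hN : N v = 1 := hv
      rw [hN, mul_one]; exact hε' v hv
  have hγp : 0 < γ := by
    refine lt_of_le_of_ne hγ (fun hc => ?_)
    have t1 := hγA hc.symm ![1, 0, 0]
    have t2 := hApos ![1, 0, 0] (by simp [sph, N])
    linarith
  have hBF : (B - F2) ∈ H 2 := Submodule.sub_mem _ hB h2
  obtain ⟨K2, hK2, hK2'⟩ := cpt_bd (contH hBF)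
  have hK2'' : ∀ v, (B - F2) v ≤ K2 * N v := by
    refine ext_sph (n := 2) (by norm_num) (fun t v => hom hBF t v) (fun t v => ?_) ?_
    · rw [N_hom]; ring
    · intro v hv
      have hN : N v = 1 := hv
      rw [hN, mul_one]; exact hK2' v hv
  obtain ⟨Kα, hKα, hKα'⟩ := lin_bound hα
  obtain ⟨K1, hK1, hK1'⟩ := lin_bound h1
  obtain ⟨F, η, hF, hFl⟩ := deg2P h2 h1 k
  have hfSF : f = S + F := by
    apply MvPolynomial.funext
    intro v
    rw [map_add, hev, hS, hF, hL4, hL3]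
    ring
  have lf : lap (lap (lap f)) = 0 := by
    rw [hfSF]
    simp only [lap_add, hS3, hFl, lap_C, lap_zero, add_zero]
  refine ⟨lf, ?_⟩
  set W := 2 / ε * (Kα + K1) + |η| + |k| with hW
  have hW0 : 0 ≤ W := by positivity
  refine ⟨1 + 2 * K2 / ε + W / γ, by positivity, fun t ht => ?_⟩
  have q1 : 0 ≤ 2 * K2 / ε := by positivity
  have q2 : 0 ≤ W / γ := by positivity
  have t1 : 1 ≤ t := by linarith
  have t0 : 0 < t := by linarith
  have tK : K2 ≤ t * ε / 2 := by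
    have : 2 * K2 / ε ≤ t := by linarith
    rw [div_le_iff₀ hε] at this
    linarith
  have tW : W ≤ t * γ := by
    have : W / γ ≤ t := by linarith
    rwa [div_le_iff₀ hγp] at this
  -- the remainder
  obtain ⟨R, hR⟩ : ∃ R : V → ℝ, R = fun v => t * A v - B v + t * α v + t ^ 2 * γ
      + (F2 v + F1 v + k) + t * η := ⟨_, rfl⟩
  have hR0 : ∀ v, 0 ≤ R v := by
    intro v
    rw [hR]
    have n0 := N_nonneg v
    have b1 := half_bound hε n0 hKα (hKα' v)
    have b2 := half_bound hε n0 hK1 (hK1' v)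
    have b3 := mul_le_mul_of_nonneg_left (hAε v) t0.le
    have b4 := hK2'' v
    simp only [Pi.sub_apply] at b4
    have b5 := mul_le_mul_of_nonneg_right tK n0
    have b6 : -(t * α v) ≤ t * (ε / 8 * N v + 2 / ε * Kα) := by
      have : -α v ≤ ε / 8 * N v + 2 / ε * Kα := le_trans (neg_le_abs _) b1
      nlinarith
    have b7 : -(F1 v) ≤ t * (ε / 8 * N v + 2 / ε * K1) := by
      have u1 : -F1 v ≤ ε / 8 * N v + 2 / ε * K1 := le_trans (neg_le_abs _) b2
      have u2 : 0 ≤ ε / 8 * N v + 2 / ε * K1 := by positivity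
      nlinarith
    have b8 : -(t * η) ≤ t * |η| := by
      have := neg_le_abs η
      nlinarith
    have b9 : -k ≤ t * |k| := by
      have := neg_le_abs k
      nlinarith [abs_nonneg k]
    have b10 := mul_le_mul_of_nonneg_left tW t0.le
    have b11 : 0 ≤ t * ε * N v := by positivity
    have b12 : t * W = t * (2 / ε * Kα) + t * (2 / ε * K1) + t * |η| + t * |k| := by
      rw [hW]; ring
    have b13 : t * (t * γ) = t ^ 2 * γ := by ring
    have b14 : t * (ε / 8 * N v + 2 / ε * Kα) = t * ε * N v / 8 + t * (2 / ε * Kα) := by ring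
    have b15 : t * (ε / 8 * N v + 2 / ε * K1) = t * ε * N v / 8 + t * (2 / ε * K1) := by ring
    have b16 : t * (ε * N v) = t * ε * N v := by ring
    have b17 : t * ε / 2 * N v = t * ε * N v / 2 := by ring
    rw [b12, b13] at b10
    rw [b14] at b6
    rw [b15] at b7
    rw [b16] at b3
    rw [b17] at b5
    show 0 ≤ t * A v - B v + t * α v + t ^ 2 * γ + (F2 v + F1 v + k) + t * η
    linarith
  have hRS : SOSf R := by
    have m2 : (t • A - B + F2) ∈ H 2 :=
      Submodule.add_mem _ (Submodule.sub_mem _ (Submodule.smul_mem _ _ hA) hB) h2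
    have m1 : (t • α + F1) ∈ H 1 := Submodule.add_mem _ (Submodule.smul_mem _ _ hα) h1
    obtain ⟨b0, b1, b2, b3, b4, b5, e2⟩ := ex2 m2
    obtain ⟨l0, l1, l2, e1⟩ := ex1 m1
    refine lemS (b := b0) (a3 := 0) (a4 := 0) (a5 := 0) (b1 := b1) (b2 := b2) (l0 := l0)
      (c10 := 0) (c11 := 0) (c12 := 0) (c13 := 0) (c14 := 0) (a6 := 0) (a7 := 0)
      (a8 := 0) (a9 := 0) (b3 := b3) (b4 := b4) (b5 := b5) (l1 := l1) (l2 := l2)
      (k := t ^ 2 * γ + k + t * η) hR0 (fun v => ?_)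
    have e2' := e2 v
    have e1' := e1 v
    simp only [Pi.smul_apply, Pi.add_apply, Pi.sub_apply, smul_eq_mul] at e2' e1'
    rw [hR]
    show t * A v - B v + t * α v + t ^ 2 * γ + (F2 v + F1 v + k) + t * η = _
    linarith
  obtain ⟨l, hl⟩ := hHt t
  obtain ⟨l', hl'⟩ := hRS
  refine ⟨l ++ l', fun v => ?_⟩
  show eval v (Ht t f) = _
  rw [List.map_append, List.sum_append, ← hl', hfSF, Ht_add, map_add, hl]
  have : eval v (Ht t F) = F2 v + F1 v + k + t * η := by
    simp only [Ht, hFl, lap_C, mul_zero, add_zero, map_add, map_mul, eval_C, hF]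
  rw [this, hR]
  ring

end

end Pool.Agent.X21.Ht
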