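import Pool.Agent.X21.Ht.G1

namespace Pool.Agent.X21.Ht

noncomputable section

lemma quad {b c d : ℝ} (h : ∀ x : ℝ, 0 ≤ b * x ^ 2 + c * x + d) :
    0 ≤ b ∧ 0 ≤ d ∧ c ^ 2 ≤ 4 * b * d := by
  have hd : 0 ≤ d := by simpa using h 0
  have hD : discrim b c d ≤ 0 := discrim_le_zero (fun x => by have := h x; nlinarith)
  have hD' : c ^ 2 ≤ 4 * b * d := by unfold discrim at hD; linarith
  refine ⟨?_, hd, hD'⟩
  by_contra hb
  push Not at hb
  have h1 : b * d ≥ 0 := by nlinarith [sq_nonneg c]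
  have h2 : d = 0 := by
    by_contra hd0
    have : 0 < d := lt_of_le_of_ne hd (Ne.symm hd0)
    nlinarith [mul_pos this (neg_pos.2 hb)]
  have h3 : c = 0 := by
    rw [h2] at hD'
    have : c ^ 2 ≤ 0 := by simpa using hD'
    nlinarith [sq_nonneg c]
  have := h 1
  rw [h2, h3] at this
  norm_num at this
  linarith

lemma cub {a b c d : ℝ} (h : ∀ x : ℝ, 0 ≤ a * x ^ 3 + b * x ^ 2 + c * x + d) : a = 0 := by
  by_contra ha
  set s := 1 + |b| + |c * a| + |d * a ^ 2| with hs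
  have hs1 : 1 ≤ s := by
    have := abs_nonneg b; have := abs_nonneg (c * a); have := abs_nonneg (d * a ^ 2)
    linarith
  have h2 : 0 ≤ -s ^ 3 + b * s ^ 2 - c * a * s + d * a ^ 2 := by
    have h3 := mul_nonneg (sq_nonneg a) (h (-s / a))
    have e : a ^ 2 * (a * (-s / a) ^ 3 + b * (-s / a) ^ 2 + c * (-s / a) + d)
        = -s ^ 3 + b * s ^ 2 - c * a * s + d * a ^ 2 := by
      field_simp
      ring
    rw [e] at h3; exact h3
  have hss : s ≤ s ^ 2 := by nlinarith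
  have hss1 : 1 ≤ s ^ 2 := by nlinarith
  have e1 : b * s ^ 2 ≤ |b| * s ^ 2 := mul_le_mul_of_nonneg_right (le_abs_self b) (sq_nonneg s)
  have e2 : -(c * a * s) ≤ |c * a| * s ^ 2 := by
    have : -(c * a) * s ≤ |c * a| * s := mul_le_mul_of_nonneg_right (neg_le_abs _) (by linarith)
    have : |c * a| * s ≤ |c * a| * s ^ 2 := mul_le_mul_of_nonneg_left hss (abs_nonneg _)
    linarith
  have e3 : d * a ^ 2 ≤ |d * a ^ 2| * s ^ 2 := by
    have := le_abs_self (d * a ^ 2)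
    nlinarith [abs_nonneg (d * a ^ 2)]
  have e4 : s ^ 3 = s ^ 2 + |b| * s ^ 2 + |c * a| * s ^ 2 + |d * a ^ 2| * s ^ 2 := by
    have : s ^ 3 = s * s ^ 2 := by ring
    rw [this]
    nth_rewrite 1 [hs]
    ring
  nlinarith

lemma sylv {a b c a' b' c' : ℝ}
    (hR : (a * c' - a' * c) ^ 2 - (a * b' - a' * b) * (b * c' - b' * c) ≠ 0)
    (k0 k1 k2 k3 : ℝ) : ∃ s t s' t' : ℝ, ∀ y z : ℝ,
      (a * y ^ 2 + b * y * z + c * z ^ 2) * (s * y + t * z)
        + (a' * y ^ 2 + b' * y * z + c' * z ^ 2) * (s' * y + t' * z)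
      = k0 * y ^ 3 + k1 * y ^ 2 * z + k2 * y * z ^ 2 + k3 * z ^ 3 := by
  let M : Matrix (Fin 4) (Fin 4) ℝ := !![a, 0, a', 0; b, a, b', a'; c, b, c', b'; 0, c, 0, c']
  have hdet : M.det = (a * c' - a' * c) ^ 2 - (a * b' - a' * b) * (b * c' - b' * c) := by
    simp [M, Matrix.det_succ_row_zero, Fin.sum_univ_succ, Fin.succAbove]
    ring
  have hM : IsUnit M.det := by
    rw [hdet]; exact Ne.isUnit hR
  set s := M⁻¹.mulVec ![k0, k1, k2, k3] with hs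
  have h : M.mulVec s = ![k0, k1, k2, k3] := by
    rw [hs, Matrix.mulVec_mulVec, Matrix.mul_nonsing_inv _ hM, Matrix.one_mulVec]
  refine ⟨s 0, s 1, s 2, s 3, fun y z => ?_⟩
  have e0 := congrFun h 0
  have e1 := congrFun h 1
  have e2 := congrFun h 2
  have e3 := congrFun h 3
  simp [M, Matrix.mulVec, dotProduct, Fin.sum_univ_four] at e0 e1 e2 e3
  rw [← e0, ← e1, ← e2, ← e3]
  ring

lemma memW {f : V → ℝ} {q : V → ℝ} (h : q ∈ H 2) (C : ℝ) (hC : ∀ v, q v ^ 2 ≤ C * f v) :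
    q ∈ W4 f := ⟨h, C, hC⟩

lemma W4H {f q : V → ℝ} (h : q ∈ W4 f) : q ∈ H 2 := h.1

lemma mul21 {q m : V → ℝ} (hq : q ∈ H 2) (hm : m ∈ H 1) : (fun v => q v * m v) ∈ H 3 := by
  have h := mul_memH hq hm
  exact h

theorem Plem {f : V → ℝ} (hf : f ∈ H 4) (hf0 : ∀ v, 0 ≤ f v) {q r : V → ℝ} (hq : q ∈ W4 f)
    (hr : r ∈ W4 f) {a b c a' b' c' : ℝ}
    (h1 : ∀ v : V, v 0 = 0 → q v = a * v 1 ^ 2 + b * v 1 * v 2 + c * v 2 ^ 2)
    (h2 : ∀ v : V, v 0 = 0 → r v = a' * v 1 ^ 2 + b' * v 1 * v 2 + c' * v 2 ^ 2)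
    (hR : (a * c' - a' * c) ^ 2 - (a * b' - a' * b) * (b * c' - b' * c) ≠ 0) : Ok f := by
  obtain ⟨C1, hC1⟩ := hq.2
  obtain ⟨C2, hC2⟩ := hr.2
  refine ⟨⟨q, hq, ?_⟩, Or.inr ?_⟩
  · intro h0
    have e1 := h1 ![0, 1, 0] (by simp)
    have e2 := h1 ![0, 0, 1] (by simp)
    have e3 := h1 ![0, 1, 1] (by simp)
    simp [h0] at e1 e2 e3
    apply hR
    rw [← e1, ← e2] at *
    simp at e3
    rw [← e3]
    ring
  rintro p hp ⟨C, hC⟩
  obtain ⟨a0, a1, a2, a3, a4, a5, a6, a7, a8, a9, hpe⟩ := ex3 hp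
  obtain ⟨s, t, s', t', hst⟩ := sylv hR a6 a7 a8 a9
  obtain ⟨m1, hm1⟩ : ∃ m : V → ℝ, m = fun v => 0 * v 0 + s * v 1 + t * v 2 := ⟨_, rfl⟩
  obtain ⟨m2, hm2⟩ : ∃ m : V → ℝ, m = fun v => 0 * v 0 + s' * v 1 + t' * v 2 := ⟨_, rfl⟩
  have hm1H : m1 ∈ H 1 := by rw [hm1]; exact mk1 _ _ _
  have hm2H : m2 ∈ H 1 := by rw [hm2]; exact mk1 _ _ _
  obtain ⟨K1, hK1, hK1'⟩ := lin_bound hm1H
  obtain ⟨K2, hK2, hK2'⟩ := lin_bound hm2H
  obtain ⟨h, hh⟩ : ∃ h : V → ℝ, h = p - (fun v => q v * m1 v) - (fun v => r v * m2 v) :=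
    ⟨_, rfl⟩
  have hhH : h ∈ H 3 := by
    rw [hh]
    have x1 : (fun v => q v * m1 v) ∈ H 3 := mul21 (W4H hq) hm1H
    have x2 : (fun v => r v * m2 v) ∈ H 3 := mul21 (W4H hr) hm2H
    exact Submodule.sub_mem _ (Submodule.sub_mem _ hp x1) x2
  have hh0 : ∀ v : V, v 0 = 0 → h v = 0 := by
    intro v hv
    have e := hst (v 1) (v 2)
    simp only [hh, Pi.sub_apply, h1 v hv, h2 v hv, hpe v, hv, hm1, hm2]
    linear_combination (-1) * e
  obtain ⟨b0, b1, b2, b3, b4, b5, b6, b7, b8, b9, hhe⟩ := ex3 hhH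
  have e1 := hh0 ![0, 1, 0] (by simp)
  have e2 := hh0 ![0, 0, 1] (by simp)
  have e3 := hh0 ![0, 1, 1] (by simp)
  have e4 := hh0 ![0, 1, -1] (by simp)
  rw [hhe] at e1 e2 e3 e4
  simp at e1 e2 e3 e4
  have hb7 : b7 = 0 := by linarith
  have hb8 : b8 = 0 := by linarith
  obtain ⟨g, hg⟩ : ∃ g : V → ℝ, g = fun v => b0 * v 0 ^ 2 + b1 * v 0 * v 1 + b2 * v 0 * v 2
    + b3 * v 1 ^ 2 + b4 * v 1 * v 2 + b5 * v 2 ^ 2 := ⟨_, rfl⟩
  have hgH : g ∈ H 2 := by rw [hg]; exact mk2 _ _ _ _ _ _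
  have hhg : ∀ v, h v = v 0 * g v := by
    intro v; rw [hhe, hg, e1, e2, hb7, hb8]; ring
  -- bound for h
  have hhb : ∀ v, h v ^ 2 ≤ (3 * (C + C1 * K1 + C2 * K2)) * (f v * N v) := by
    intro v
    have x1 := hC v
    have x2 : (q v * m1 v) ^ 2 ≤ (C1 * f v) * (K1 * N v) := by
      rw [mul_pow]
      exact mul_le_mul (hC1 v) (hK1' v) (sq_nonneg _) (le_trans (sq_nonneg _) (hC1 v))
    have x3 : (r v * m2 v) ^ 2 ≤ (C2 * f v) * (K2 * N v) := by
      rw [mul_pow]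
      exact mul_le_mul (hC2 v) (hK2' v) (sq_nonneg _) (le_trans (sq_nonneg _) (hC2 v))
    have x4 : h v ^ 2 ≤ 3 * (p v ^ 2 + (q v * m1 v) ^ 2 + (r v * m2 v) ^ 2) := by
      simp only [hh, Pi.sub_apply]
      linarith [sq_nonneg (p v + q v * m1 v), sq_nonneg (p v + r v * m2 v),
        sq_nonneg (q v * m1 v - r v * m2 v)]
    linarith
  obtain ⟨D, hD⟩ : ∃ D, D = 3 * (C + C1 * K1 + C2 * K2) := ⟨_, rfl⟩
  rw [← hD] at hhb
  have hpos : ∀ v ∈ sph, 0 < f v + v 0 ^ 2 := by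
    intro v hv
    by_contra hcon
    push Not at hcon
    have hfv := hf0 v
    have y0 : v 0 = 0 := by nlinarith [sq_nonneg (v 0)]
    have yf : f v = 0 := by nlinarith [sq_nonneg (v 0)]
    have yq : q v = 0 := by
      have := hC1 v; rw [yf] at this; nlinarith [sq_nonneg (q v)]
    have yr : r v = 0 := by
      have := hC2 v; rw [yf] at this; nlinarith [sq_nonneg (r v)]
    rw [h1 v y0] at yq
    rw [h2 v y0] at yr
    obtain ⟨_, _, _, _, w1⟩ := sylv hR 1 0 0 0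
    obtain ⟨_, _, _, _, w2⟩ := sylv hR 0 0 0 1
    have w1' := w1 (v 1) (v 2)
    have w2' := w2 (v 1) (v 2)
    rw [yq, yr] at w1' w2'
    have z1 : v 1 ^ 3 = 0 := by linarith
    have z2 : v 2 ^ 3 = 0 := by linarith
    have z1' : v 1 = 0 := by simpa using z1
    have z2' : v 2 = 0 := by simpa using z2
    have : N v = 1 := hv
    simp [N, y0, z1', z2'] at this
  obtain ⟨c0, hc0, hc0'⟩ := cpt_pos (g := fun v => f v + v 0 ^ 2)
    ((contH hf).add (by fun_prop)) hpos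
  obtain ⟨G, hG, hG'⟩ := cpt_bd (g := fun v => g v ^ 2) ((contH hgH).pow 2)
  have hgW : g ∈ W4 f := by
    refine memW hgH ((2 * G + 2 * |D|) / c0) ?_
    refine ext_sph (n := 4) (by norm_num) (fun t v => ?_) (fun t v => ?_) ?_
    · show g (t • v) ^ 2 = _
      rw [hom hgH]; ring
    · show _ * f (t • v) = _
      rw [hom hf]; ring
    · intro v hv
      have z1 := hc0' v hv
      have z2 := hG' v hv
      have z3 := hhb v
      have hN : N v = 1 := hv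
      rw [hhg, hN, mul_one] at z3
      have hfv := hf0 v
      have z4 : D * f v ≤ |D| * f v := mul_le_mul_of_nonneg_right (le_abs_self D) hfv
      have z5 : 0 ≤ |D| * f v := mul_nonneg (abs_nonneg D) hfv
      rw [div_mul_eq_mul_div, le_div_iff₀ hc0]
      rcases le_or_gt (c0 / 2) (f v) with hcase | hcase
      · have z6 : g v ^ 2 * c0 ≤ G * c0 := mul_le_mul_of_nonneg_right z2 hc0.le
        have z7 : G * (c0 / 2) ≤ G * f v := mul_le_mul_of_nonneg_left hcase hG.le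
        nlinarith
      · have z6 : c0 / 2 ≤ v 0 ^ 2 := by linarith
        have z7 : (c0 / 2) * g v ^ 2 ≤ v 0 ^ 2 * g v ^ 2 :=
          mul_le_mul_of_nonneg_right z6 (sq_nonneg _)
        have z8 : 0 ≤ G * f v := mul_nonneg hG.le hfv
        nlinarith
  refine ⟨![q, r, g], ![m1, m2, fun v => 1 * v 0 + 0 * v 1 + 0 * v 2], ?_, ?_⟩
  · intro i
    fin_cases i
    · exact ⟨hq, hm1H⟩
    · exact ⟨hr, hm2H⟩
    · exact ⟨hgW, mk1 _ _ _⟩
  · intro v
    have e : h v = v 0 * g v := hhg v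
    simp only [hh, Pi.sub_apply] at e
    simp [Fin.sum_univ_three]
    linarith

/-- perfect square of a nondegenerate indefinite form -/
theorem Scase {f : V → ℝ} {β : ℝ} (hβ : β ≠ 0)
    (hf : ∀ v, f v = (v 0 * v 1 + β * v 2 ^ 2) ^ 2) : Ok f := by
  set q : V → ℝ := fun v => 0 * v 0 ^ 2 + 1 * v 0 * v 1 + 0 * v 0 * v 2 + 0 * v 1 ^ 2
    + 0 * v 1 * v 2 + β * v 2 ^ 2 with hq
  have hqH : q ∈ H 2 := mk2 _ _ _ _ _ _
  have hqW : q ∈ W4 f := memW hqH 1 (fun v => by rw [hf, hq]; apply le_of_eq; ring)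
  refine ⟨⟨q, hqW, ?_⟩, Or.inr ?_⟩
  · intro h0
    have := congrFun h0 ![1, 1, 0]
    simp [hq] at this
  rintro p hp ⟨C, hC⟩
  obtain ⟨a0, a1, a2, a3, a4, a5, a6, a7, a8, a9, hpe⟩ := ex3 hp
  have key : ∀ s : ℝ, p ![-(β * s ^ 2), 1, s] = 0 := by
    intro s
    have h1 := hC ![-(β * s ^ 2), 1, s]
    rw [hf] at h1
    simp at h1
    exact h1
  have k0 := key 0
  have k1 := key 1
  have k2 := key (-1)
  have k3 := key 2
  have k4 := key (-2)
  have k5 := key 3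
  have k6 := key (-3)
  rw [hpe] at k0 k1 k2 k3 k4 k5 k6
  simp at k0 k1 k2 k3 k4 k5 k6
  -- p(-βs², 1, s) is a polynomial of degree 6 in s, all coefficients vanish
  have E6 : a0 * β ^ 3 = 0 := by nlinarith
  have E5 : a2 * β ^ 2 = 0 := by nlinarith
  have E4 : a1 * β ^ 2 - a5 * β = 0 := by nlinarith
  have E3 : a9 - a4 * β = 0 := by nlinarith
  have E2 : a8 - a3 * β = 0 := by nlinarith
  have E1 : a7 = 0 := by nlinarith
  have F0 : a0 = 0 := by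
    rcases mul_eq_zero.1 E6 with h | h
    · exact h
    · exact absurd (pow_eq_zero_iff (by norm_num) |>.1 h) hβ
  have F2 : a2 = 0 := by
    rcases mul_eq_zero.1 E5 with h | h
    · exact h
    · exact absurd (pow_eq_zero_iff (by norm_num) |>.1 h) hβ
  have F5 : a5 = a1 * β := by
    have : β * (a1 * β - a5) = 0 := by linarith
    rcases mul_eq_zero.1 this with h | h
    · exact absurd h hβ
    · linarith
  refine ⟨![q, 0, 0], ![fun v => a1 * v 0 + a3 * v 1 + a4 * v 2, 0, 0], ?_, ?_⟩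
  · intro i
    fin_cases i
    · exact ⟨hqW, mk1 _ _ _⟩
    · exact ⟨zero_mem _, zero_mem _⟩
    · exact ⟨zero_mem _, zero_mem _⟩
  · intro v
    simp [Fin.sum_univ_three]
    rw [hpe, hq, F0, F2, F5, E1, k0, show a9 = a4 * β by linarith, show a8 = a3 * β by linarith]
    ring

end

end Pool.Agent.X21.Ht
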