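import Pool.Agent.X21.Ht.G2

namespace Pool.Agent.X21.Ht

noncomputable section

/-- `f = y² (x² + d z² + e y²)` -/
theorem Fcase {f : V → ℝ} {d e : ℝ} (hd : 0 < d) (he : 0 ≤ e)
    (hf : ∀ v, f v = v 1 ^ 2 * (v 0 ^ 2 + d * v 2 ^ 2 + e * v 1 ^ 2)) : Ok f := by
  have hq1 : (fun v : V => 0 * v 0 ^ 2 + 1 * v 0 * v 1 + 0 * v 0 * v 2 + 0 * v 1 ^ 2
      + 0 * v 1 * v 2 + 0 * v 2 ^ 2) ∈ W4 f := by
    refine memW (mk2 _ _ _ _ _ _) 1 (fun v => ?_)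
    rw [hf]
    have h1 : 0 ≤ v 1 ^ 2 * (d * v 2 ^ 2 + e * v 1 ^ 2) := by positivity
    nlinarith
  have hq2 : (fun v : V => 0 * v 0 ^ 2 + 0 * v 0 * v 1 + 0 * v 0 * v 2 + 0 * v 1 ^ 2
      + 1 * v 1 * v 2 + 0 * v 2 ^ 2) ∈ W4 f := by
    refine memW (mk2 _ _ _ _ _ _) (1 / d) (fun v => ?_)
    rw [hf]
    have h1 : 0 ≤ v 1 ^ 2 * (v 0 ^ 2 + e * v 1 ^ 2) / d := by positivity
    have h2 : 1 / d * (v 1 ^ 2 * (v 0 ^ 2 + d * v 2 ^ 2 + e * v 1 ^ 2))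
        = v 1 ^ 2 * v 2 ^ 2 + v 1 ^ 2 * (v 0 ^ 2 + e * v 1 ^ 2) / d := by
      field_simp
      ring
    rw [h2]
    nlinarith
  have hq3 : (fun v : V => 0 * v 0 ^ 2 + 0 * v 0 * v 1 + 0 * v 0 * v 2 + Real.sqrt e * v 1 ^ 2
      + 0 * v 1 * v 2 + 0 * v 2 ^ 2) ∈ W4 f := by
    refine memW (mk2 _ _ _ _ _ _) 1 (fun v => ?_)
    rw [hf]
    have h1 : 0 ≤ v 1 ^ 2 * (v 0 ^ 2 + d * v 2 ^ 2) := by positivity
    have h2 : Real.sqrt e ^ 2 = e := Real.sq_sqrt he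
    have h3 : (0 * v 0 ^ 2 + 0 * v 0 * v 1 + 0 * v 0 * v 2 + Real.sqrt e * v 1 ^ 2
      + 0 * v 1 * v 2 + 0 * v 2 ^ 2) ^ 2 = Real.sqrt e ^ 2 * v 1 ^ 4 := by ring
    rw [h3, h2]
    nlinarith
  obtain ⟨q1, hq1e, hq1⟩ : ∃ q : V → ℝ, (∀ v, q v = v 0 * v 1) ∧ q ∈ W4 f :=
    ⟨_, fun v => by ring, hq1⟩
  obtain ⟨q2, hq2e, hq2⟩ : ∃ q : V → ℝ, (∀ v, q v = v 1 * v 2) ∧ q ∈ W4 f :=
    ⟨_, fun v => by ring, hq2⟩
  obtain ⟨q3, hq3e, hq3⟩ : ∃ q : V → ℝ, (∀ v, q v = Real.sqrt e * v 1 ^ 2) ∧ q ∈ W4 f :=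
    ⟨_, fun v => by ring, hq3⟩
  refine ⟨⟨q1, hq1, ?_⟩, Or.inr ?_⟩
  · intro h0
    have := congrFun h0 ![1, 1, 0]
    simp [hq1e] at this
  rintro p hp ⟨C, hC⟩
  obtain ⟨a0, a1, a2, a3, a4, a5, a6, a7, a8, a9, hpe⟩ := ex3 hp
  have key : ∀ x z : ℝ, p ![x, 0, z] = 0 := by
    intro x z
    have h1 := hC ![x, 0, z]
    rw [hf] at h1
    simp at h1
    exact h1
  have k1 := key 1 0
  have k2 := key 0 1
  have k3 := key 1 1
  have k4 := key 1 (-1)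
  rw [hpe] at k1 k2 k3 k4
  simp at k1 k2 k3 k4
  have F2 : a2 = 0 := by linarith
  have F5 : a5 = 0 := by linarith
  by_cases he0 : e = 0
  · -- no y³
    have F6 : a6 = 0 := by
      have h1 := hC ![0, 1, 0]
      rw [hf, hpe, he0] at h1
      simp at h1
      exact h1
    refine ⟨![q1, q2, 0], ![fun v => a1 * v 0 + a3 * v 1 + a4 * v 2,
      fun v => 0 * v 0 + a7 * v 1 + a8 * v 2, 0], ?_, ?_⟩
    · intro i
      fin_cases i
      · exact ⟨hq1, mk1 _ _ _⟩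
      · exact ⟨hq2, mk1 _ _ _⟩
      · exact ⟨zero_mem _, zero_mem _⟩
    · intro v
      simp [Fin.sum_univ_three]
      rw [hpe, k1, k2, F2, F5, F6, hq1e, hq2e]
      ring
  · have he1 : Real.sqrt e ≠ 0 := by
      rw [Ne, Real.sqrt_eq_zero he]; exact he0
    refine ⟨![q1, q2, q3], ![fun v => a1 * v 0 + a3 * v 1 + a4 * v 2,
      fun v => 0 * v 0 + a7 * v 1 + a8 * v 2, fun v => 0 * v 0 + (a6 / Real.sqrt e) * v 1
        + 0 * v 2], ?_, ?_⟩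
    · intro i
      fin_cases i
      · exact ⟨hq1, mk1 _ _ _⟩
      · exact ⟨hq2, mk1 _ _ _⟩
      · exact ⟨hq3, mk1 _ _ _⟩
    · intro v
      simp [Fin.sum_univ_three]
      rw [hpe, k1, k2, F2, F5, hq1e, hq2e, hq3e]
      field_simp
      ring

lemma zeroTail {a b c d : ℝ} (h : ∀ x : ℝ, 0 ≤ a * x ^ 4 + b * x ^ 3 + c * x ^ 2 + d * x) :
    d = 0 := by
  have : ∀ x : ℝ, 0 ≤ d * x ^ 3 + c * x ^ 2 + b * x + a := by
    intro x
    by_cases hx : x = 0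
    · subst hx
      by_contra ha
      push Not at ha
      norm_num at ha
      -- a < 0 : contradiction for large x
      set s := 1 + (|b| + |c| + |d|) / (-a) with hs
      have ha' : 0 < -a := by linarith
      have hs1 : 1 ≤ s := by
        have : 0 ≤ (|b| + |c| + |d|) / (-a) := by positivity
        linarith
      have e1 : (-a) * s = -a + (|b| + |c| + |d|) := by
        rw [hs, mul_add, mul_one, div_eq_mul_inv, mul_comm (|b| + |c| + |d|), ← mul_assoc,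
          mul_inv_cancel₀ ha'.ne', one_mul]
      have h1 := h s
      have q1 : b * s ^ 3 ≤ |b| * s ^ 3 := mul_le_mul_of_nonneg_right (le_abs_self b) (by positivity)
      have q2 : c * s ^ 2 ≤ |c| * s ^ 3 := by
        have t1 : c * s ^ 2 ≤ |c| * s ^ 2 :=
          mul_le_mul_of_nonneg_right (le_abs_self c) (by positivity)
        have t2 : s ^ 2 ≤ s ^ 3 := pow_le_pow_right₀ hs1 (by norm_num)
        nlinarith [abs_nonneg c]
      have q3 : d * s ≤ |d| * s ^ 3 := by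
        have t1 : d * s ≤ |d| * s :=
          mul_le_mul_of_nonneg_right (le_abs_self d) (by positivity)
        have t2 : s ≤ s ^ 3 := by
          calc s = s ^ 1 := (pow_one s).symm
            _ ≤ s ^ 3 := pow_le_pow_right₀ hs1 (by norm_num)
        nlinarith [abs_nonneg d]
      have q4 : (-a) * s ^ 4 = (-a) * s ^ 3 + (|b| + |c| + |d|) * s ^ 3 := by
        calc (-a) * s ^ 4 = ((-a) * s) * s ^ 3 := by ring
          _ = _ := by rw [e1]; ring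
      have q5 : 0 < (-a) * s ^ 3 := by positivity
      nlinarith
    · have h1 := h x⁻¹
      have h2 : (d * x ^ 3 + c * x ^ 2 + b * x + a)
          = x ^ 4 * (a * x⁻¹ ^ 4 + b * x⁻¹ ^ 3 + c * x⁻¹ ^ 2 + d * x⁻¹) := by
        field_simp
        ring
      rw [h2]
      positivity
  exact cub this

/-- binary quartics: `d4 = 0` -/
lemma binB0 {d0 d1 d2 d3 : ℝ} (h : ∀ y z : ℝ, 0 ≤ d0 * y ^ 4 + d1 * y ^ 3 * z
    + d2 * y ^ 2 * z ^ 2 + d3 * y * z ^ 3) : d3 = 0 ∧ 0 ≤ d2 ∧ 0 ≤ d0 ∧ d1 ^ 2 ≤ 4 * d2 * d0 := by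
  have h3 : d3 = 0 := by
    apply zeroTail (a := d0) (b := d1) (c := d2)
    intro y
    have := h y 1
    simpa using this
  have h4 : ∀ z : ℝ, 0 ≤ d2 * z ^ 2 + d1 * z + d0 := by
    intro z
    have := h 1 z
    rw [h3] at this
    simp at this
    linarith
  obtain ⟨a, b, c⟩ := quad h4
  exact ⟨h3, a, b, c⟩

/-- a psd binary quartic with `z⁴` coefficient nonzero dominates the square of a quadratic form
with `z²` coefficient nonzero -/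
lemma binB1 {d0 d1 d2 d3 d4 : ℝ} (h4 : d4 ≠ 0) (h : ∀ y z : ℝ, 0 ≤ d0 * y ^ 4 + d1 * y ^ 3 * z
    + d2 * y ^ 2 * z ^ 2 + d3 * y * z ^ 3 + d4 * z ^ 4) :
    ∃ r0 r1 r2 C : ℝ, r2 ≠ 0 ∧ ∀ y z : ℝ, (r0 * y ^ 2 + r1 * y * z + r2 * z ^ 2) ^ 2
      ≤ C * (d0 * y ^ 4 + d1 * y ^ 3 * z + d2 * y ^ 2 * z ^ 2 + d3 * y * z ^ 3 + d4 * z ^ 4) := by
  have hd4 : 0 < d4 := by
    have := h 0 1
    simp at this
    exact lt_of_le_of_ne this (Ne.symm h4)
  by_cases hz : ∃ y z : ℝ, (y ≠ 0 ∨ z ≠ 0) ∧ d0 * y ^ 4 + d1 * y ^ 3 * z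
    + d2 * y ^ 2 * z ^ 2 + d3 * y * z ^ 3 + d4 * z ^ 4 = 0
  · obtain ⟨y, z, hyz, h0⟩ := hz
    have hy : y ≠ 0 := by
      intro hy
      subst hy
      simp [h4] at h0
      simp [h0] at hyz
    set k := z / y with hk
    have hzk : z = k * y := by rw [hk]; field_simp
    have h0' : d0 + d1 * k + d2 * k ^ 2 + d3 * k ^ 3 + d4 * k ^ 4 = 0 := by
      rw [hzk] at h0
      have : y ^ 4 * (d0 + d1 * k + d2 * k ^ 2 + d3 * k ^ 3 + d4 * k ^ 4) = 0 := by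
        linarith
      rcases mul_eq_zero.1 this with h5 | h5
      · exact absurd (pow_eq_zero_iff (by norm_num) |>.1 h5) hy
      · exact h5
    -- D(y, z + k y) = z (e1 y³ + e2 y² z + e3 y z² + d4 z³)
    set e1 := d1 + 2 * d2 * k + 3 * d3 * k ^ 2 + 4 * d4 * k ^ 3 with he1
    set e2 := d2 + 3 * d3 * k + 6 * d4 * k ^ 2 with he2
    set e3 := d3 + 4 * d4 * k with he3
    have hsh : ∀ y w : ℝ, d0 * y ^ 4 + d1 * y ^ 3 * (w + k * y)
        + d2 * y ^ 2 * (w + k * y) ^ 2 + d3 * y * (w + k * y) ^ 3 + d4 * (w + k * y) ^ 4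
        = d4 * w ^ 4 + e3 * w ^ 3 * y + e2 * w ^ 2 * y ^ 2 + e1 * w * y ^ 3 := by
      intro y w
      rw [he1, he2, he3]
      linear_combination (y ^ 4) * h0'
    have hps : ∀ w y : ℝ, 0 ≤ d4 * w ^ 4 + e3 * w ^ 3 * y + e2 * w ^ 2 * y ^ 2
        + e1 * w * y ^ 3 := by
      intro w y
      rw [← hsh]; exact h _ _
    obtain ⟨g1, g2, g3, g4⟩ := binB0 hps
    -- D = w² (d4 w² + e3 w y + e2 y²), w = z - k y
    refine ⟨(e3 / 2 - d4 * k) * (-k), (e3 / 2 - d4 * k) + d4 * (-k), d4, d4, h4, fun y z => ?_⟩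
    have e := hsh y (z - k * y)
    rw [show z - k * y + k * y = z by ring, g1] at e
    rw [e]
    have f1 : ((e3 / 2 - d4 * k) * (-k) * y ^ 2 + ((e3 / 2 - d4 * k) + d4 * (-k)) * y * z
      + d4 * z ^ 2) = (z - k * y) * (e3 / 2 * y + d4 * (z - k * y)) := by ring
    rw [f1]
    have f2 : d4 * (d4 * (z - k * y) ^ 4 + e3 * (z - k * y) ^ 3 * y
        + e2 * (z - k * y) ^ 2 * y ^ 2 + 0 * (z - k * y) * y ^ 3)
        - ((z - k * y) * (e3 / 2 * y + d4 * (z - k * y))) ^ 2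
        = (d4 * e2 - e3 ^ 2 / 4) * ((z - k * y) * y) ^ 2 := by ring
    have f3 : 0 ≤ (d4 * e2 - e3 ^ 2 / 4) * ((z - k * y) * y) ^ 2 :=
      mul_nonneg (by linarith) (sq_nonneg _)
    linarith
  · push Not at hz
    -- positive definite
    set g : V → ℝ := fun v => d0 * v 1 ^ 4 + d1 * v 1 ^ 3 * v 2
      + d2 * v 1 ^ 2 * v 2 ^ 2 + d3 * v 1 * v 2 ^ 3 + d4 * v 2 ^ 4 + v 0 ^ 4 with hg
    have hpos : ∀ v ∈ sph, 0 < g v := by
      intro v hv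
      have h1 := h (v 1) (v 2)
      have hN : v 0 ^ 2 + v 1 ^ 2 + v 2 ^ 2 = 1 := hv
      by_cases h5 : v 1 ≠ 0 ∨ v 2 ≠ 0
      · have h6 := hz (v 1) (v 2) h5
        have h7 := lt_of_le_of_ne h1 (Ne.symm h6)
        have : 0 ≤ v 0 ^ 4 := by positivity
        simp only [hg]; linarith
      · push Not at h5
        rw [h5.1, h5.2] at hN
        simp only [hg]
        rw [h5.1, h5.2]
        have : v 0 ^ 4 = 1 := by nlinarith
        rw [this]; norm_num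
    obtain ⟨c, hc, hc'⟩ := cpt_pos (g := g) (by rw [hg]; fun_prop) hpos
    refine ⟨0, 0, 1, 1 / c, one_ne_zero, fun y z => ?_⟩
    have h1 : ∀ v : V, c * N v ^ 2 ≤ g v := by
      refine ext_sph (n := 4) (by norm_num) (fun t v => ?_) (fun t v => ?_) ?_
      · rw [N_hom]; ring
      · simp only [hg, Pi.smul_apply, smul_eq_mul]; ring
      · intro v hv
        have hN : N v = 1 := hv
        rw [hN]; simpa using hc' v hv
    have h2 := h1 ![0, y, z]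
    simp [N, hg] at h2
    rw [div_mul_eq_mul_div, le_div_iff₀ hc]
    have h3 : 0 ≤ c * (y ^ 4 + 2 * y ^ 2 * z ^ 2) := by positivity
    nlinarith

end

end Pool.Agent.X21.Ht
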