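import Pool.Agent.X21.Ht.G3

namespace Pool.Agent.X21.Ht

noncomputable section

lemma binB {d0 d1 d2 d3 d4 : ℝ} (h : ∀ y z : ℝ, 0 ≤ d0 * y ^ 4 + d1 * y ^ 3 * z
    + d2 * y ^ 2 * z ^ 2 + d3 * y * z ^ 3 + d4 * z ^ 4)
    (hne : ¬ (d0 = 0 ∧ d1 = 0 ∧ d2 = 0 ∧ d3 = 0 ∧ d4 = 0)) :
    ∃ r0 r1 r2 C : ℝ, ¬ (r0 = 0 ∧ r1 = 0 ∧ r2 = 0) ∧ ∀ y z : ℝ,
      (r0 * y ^ 2 + r1 * y * z + r2 * z ^ 2) ^ 2
      ≤ C * (d0 * y ^ 4 + d1 * y ^ 3 * z + d2 * y ^ 2 * z ^ 2 + d3 * y * z ^ 3 + d4 * z ^ 4) := by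
  by_cases h4 : d4 = 0
  · subst h4
    obtain ⟨g1, g2, g3, g4⟩ := binB0 (d0 := d0) (d1 := d1) (d2 := d2) (d3 := d3)
      (fun y z => by have := h y z; linarith)
    subst g1
    by_cases h2 : d2 = 0
    · subst h2
      have h1 : d1 = 0 := by nlinarith [sq_nonneg d1]
      subst h1
      have h0 : d0 ≠ 0 := by
        intro h0; apply hne; simp [h0]
      refine ⟨1, 0, 0, 1 / d0, by simp, fun y z => ?_⟩
      apply le_of_eq
      field_simp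
      ring
    · refine ⟨d1 / 2, d2, 0, d2, by simp [h2], fun y z => ?_⟩
      have f3 : 0 ≤ (d2 * d0 - d1 ^ 2 / 4) * (y ^ 2) ^ 2 :=
        mul_nonneg (by linarith) (sq_nonneg _)
      nlinarith
  · obtain ⟨r0, r1, r2, C, hr, hC⟩ := binB1 h4 h
    exact ⟨r0, r1, r2, C, fun hh => hr hh.2.2, hC⟩

/-- forms in two variables -/
theorem TwoCase {f : V → ℝ} {d0 d1 d2 d3 d4 : ℝ} (hf0 : ∀ v, 0 ≤ f v) (hne : ∃ v, f v ≠ 0)
    (hf : ∀ v, f v = d0 * v 1 ^ 4 + d1 * v 1 ^ 3 * v 2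
      + d2 * v 1 ^ 2 * v 2 ^ 2 + d3 * v 1 * v 2 ^ 3 + d4 * v 2 ^ 4) : Ok f := by
  have h : ∀ y z : ℝ, 0 ≤ d0 * y ^ 4 + d1 * y ^ 3 * z
    + d2 * y ^ 2 * z ^ 2 + d3 * y * z ^ 3 + d4 * z ^ 4 := by
    intro y z
    have := hf0 ![0, y, z]
    rw [hf] at this
    simpa using this
  have hne' : ¬ (d0 = 0 ∧ d1 = 0 ∧ d2 = 0 ∧ d3 = 0 ∧ d4 = 0) := by
    rintro ⟨rfl, rfl, rfl, rfl, rfl⟩
    obtain ⟨v, hv⟩ := hne
    apply hv; rw [hf]; ring
  obtain ⟨r0, r1, r2, C, hr, hC⟩ := binB h hne'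
  refine ⟨⟨fun v => 0 * v 0 ^ 2 + 0 * v 0 * v 1 + 0 * v 0 * v 2 + r0 * v 1 ^ 2
    + r1 * v 1 * v 2 + r2 * v 2 ^ 2, memW (mk2 _ _ _ _ _ _) C (fun v => ?_), ?_⟩, Or.inl ?_⟩
  · rw [hf]
    have := hC (v 1) (v 2)
    refine le_trans (le_of_eq ?_) this
    ring
  · intro h0
    apply hr
    have e1 := congrFun h0 ![0, 1, 0]
    have e2 := congrFun h0 ![0, 0, 1]
    have e3 := congrFun h0 ![0, 1, 1]
    simp at e1 e2 e3
    refine ⟨e1, by linarith, e2⟩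
  · refine ⟨![1, 0, 0], ?_, fun v s => ?_⟩
    · intro h0
      have := congrFun h0 0
      simp at this
    · rw [hf, hf]; simp

lemma shear_ok {f : V → ℝ} (hf0 : ∀ v, 0 ≤ f v) (s : ℝ)
    (h : Ok (act !![1, s, 0; 0, 1, 0; 0, 0, 1] f)) : Ok f := by
  refine Ok_of_act _ ?_ hf0 h
  simp [Matrix.det_fin_three]

theorem Bcase {f : V → ℝ} {β d0 d1 d2 d3 d4 : ℝ} (hfH : f ∈ H 4) (hf0 : ∀ v, 0 ≤ f v)
    (h : ∀ y z : ℝ, 0 ≤ d0 * y ^ 4 + d1 * y ^ 3 * z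
      + d2 * y ^ 2 * z ^ 2 + d3 * y * z ^ 3 + d4 * z ^ 4)
    (hf : ∀ v, f v = (v 0 * v 1 + β * v 2 ^ 2) ^ 2 + (d0 * v 1 ^ 4 + d1 * v 1 ^ 3 * v 2
      + d2 * v 1 ^ 2 * v 2 ^ 2 + d3 * v 1 * v 2 ^ 3 + d4 * v 2 ^ 4)) : Ok f := by
  -- the generic case
  have main : ∀ (r0 r1 r2 C s : ℝ), (∀ y z : ℝ,
      (r0 * y ^ 2 + r1 * y * z + r2 * z ^ 2) ^ 2
      ≤ C * (d0 * y ^ 4 + d1 * y ^ 3 * z + d2 * y ^ 2 * z ^ 2 + d3 * y * z ^ 3 + d4 * z ^ 4)) →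
      (s * r2 - r0 * β) ^ 2 - (s * r1 - r0 * 0) * (0 * r2 - r1 * β) ≠ 0 → Ok f := by
    intro r0 r1 r2 C s hC hR
    have hq : (fun v : V => 0 * v 0 ^ 2 + 1 * v 0 * v 1 + 0 * v 0 * v 2 + 0 * v 1 ^ 2
        + 0 * v 1 * v 2 + β * v 2 ^ 2) ∈ W4 f := by
      refine memW (mk2 _ _ _ _ _ _) 1 (fun v => ?_)
      rw [hf]
      have := h (v 1) (v 2)
      nlinarith
    have hr : (fun v : V => 0 * v 0 ^ 2 + 0 * v 0 * v 1 + 0 * v 0 * v 2 + r0 * v 1 ^ 2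
        + r1 * v 1 * v 2 + r2 * v 2 ^ 2) ∈ W4 f := by
      refine memW (mk2 _ _ _ _ _ _) |C| (fun v => ?_)
      rw [hf]
      have h1 := hC (v 1) (v 2)
      have h2 := h (v 1) (v 2)
      have h3 := mul_le_mul_of_nonneg_right (le_abs_self C) h2
      have h4 := mul_nonneg (abs_nonneg C) (sq_nonneg (v 0 * v 1 + β * v 2 ^ 2))
      have h5 : (0 * v 0 ^ 2 + 0 * v 0 * v 1 + 0 * v 0 * v 2 + r0 * v 1 ^ 2
        + r1 * v 1 * v 2 + r2 * v 2 ^ 2) = r0 * v 1 ^ 2 + r1 * v 1 * v 2 + r2 * v 2 ^ 2 := by ring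
      rw [h5, mul_add]
      linarith
    apply shear_ok hf0 s
    refine Plem (act_mem _ hfH) (fun v => hf0 _) (W4_act _ hq) (W4_act _ hr)
      (a := s) (b := 0) (c := β) (a' := r0) (b' := r1) (c' := r2) ?_ ?_ hR
    · intro v hv
      simp [act, Matrix.mulVec, dotProduct, Fin.sum_univ_three, hv]
      ring
    · intro v hv
      simp [act, Matrix.mulVec, dotProduct, Fin.sum_univ_three]
  by_cases hβ : β = 0
  · subst hβ
    by_cases h4 : d4 = 0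
    · subst h4
      obtain ⟨g1, g2, g3, g4⟩ := binB0 (d0 := d0) (d1 := d1) (d2 := d2) (d3 := d3)
        (fun y z => by have := h y z; linarith)
      subst g1
      by_cases h2 : d2 = 0
      · subst h2
        have h1 : d1 = 0 := by nlinarith [sq_nonneg d1]
        subst h1
        refine ⟨⟨fun v => 0 * v 0 ^ 2 + 1 * v 0 * v 1 + 0 * v 0 * v 2 + 0 * v 1 ^ 2
          + 0 * v 1 * v 2 + 0 * v 2 ^ 2, memW (mk2 _ _ _ _ _ _) 1 (fun v => ?_), ?_⟩, Or.inl ?_⟩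
        · rw [hf]
          have : 0 ≤ d0 * v 1 ^ 4 := by positivity
          nlinarith
        · intro h0
          have e1 := congrFun h0 ![1, 1, 0]
          simp at e1
        · refine ⟨![0, 0, 1], ?_, fun v s => ?_⟩
          · intro h0
            have := congrFun h0 2
            simp at this
          · rw [hf, hf]; simp
      · have hd2 : 0 < d2 := lt_of_le_of_ne g2 (Ne.symm h2)
        -- shear z -> z - d1/(2 d2) y
        refine Ok_of_act !![1, 0, 0; 0, 1, 0; 0, -(d1 / (2 * d2)), 1] ?_ hf0 ?_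
        · simp [Matrix.det_fin_three]
        refine Fcase (d := d2) (e := d0 - d1 ^ 2 / (4 * d2)) hd2 ?_ (fun v => ?_)
        · rw [sub_nonneg, div_le_iff₀ (by positivity)]
          linarith
        · simp only [act]
          rw [hf]
          simp [Matrix.mulVec, dotProduct, Fin.sum_univ_three]
          field_simp
          ring
    · obtain ⟨r0, r1, r2, C, hr, hC⟩ := binB1 h4 h
      refine main r0 r1 r2 C 1 hC ?_
      simp [hr]
  · by_cases hD : d0 = 0 ∧ d1 = 0 ∧ d2 = 0 ∧ d3 = 0 ∧ d4 = 0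
    · obtain ⟨rfl, rfl, rfl, rfl, rfl⟩ := hD
      exact Scase hβ (fun v => by rw [hf]; ring)
    · obtain ⟨r0, r1, r2, C, hr, hC⟩ := binB h hD
      have hk : ∃ k : ℝ, 0 < k ∧ (k * r2 - r0) ^ 2 + k * r1 ^ 2 ≠ 0 := by
        by_cases h1 : (r2 - r0) ^ 2 + r1 ^ 2 = 0
        · refine ⟨2, by norm_num, ?_⟩
          intro h2
          have k1 : r1 = 0 := by nlinarith [sq_nonneg (r2 - r0), sq_nonneg r1]
          have k2 : r2 - r0 = 0 := by nlinarith [sq_nonneg (r2 - r0), sq_nonneg r1]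
          have k3 : 2 * r2 - r0 = 0 := by nlinarith [sq_nonneg (2 * r2 - r0), sq_nonneg r1]
          exact hr ⟨by linarith, k1, by linarith⟩
        · exact ⟨1, by norm_num, by simpa using h1⟩
      obtain ⟨k, hk0, hk⟩ := hk
      refine main r0 r1 r2 C (k * β) hC ?_
      have : (k * β * r2 - r0 * β) ^ 2 - (k * β * r1 - r0 * 0) * (0 * r2 - r1 * β)
          = β ^ 2 * ((k * r2 - r0) ^ 2 + k * r1 ^ 2) := by ring
      rw [this]
      exact mul_ne_zero (pow_ne_zero _ hβ) hk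

lemma cont0 {g : ℝ → ℝ} (hg : Continuous g) (h : ∀ y, y ≠ 0 → 0 ≤ g y) : 0 ≤ g 0 := by
  have h1 : closure ({0}ᶜ : Set ℝ) ⊆ {y | 0 ≤ g y} :=
    closure_minimal (fun y hy => h y hy) (isClosed_le continuous_const hg)
  exact h1 (by rw [(dense_compl_singleton (0 : ℝ)).closure_eq]; trivial)

/-- zero at `e0` with degenerate direction `e2` -/
theorem DegCase {f : V → ℝ} (hfH : f ∈ H 4) (hf0 : ∀ v, 0 ≤ f v) (hne : ∃ v, f v ≠ 0)
    (hz : f ![1, 0, 0] = 0) {K : ℝ} (hK : ∀ s : ℝ, f ![s, 0, 1] ≤ K) : Ok f := by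
  obtain ⟨c0, c1, c2, c3, c4, c5, c6, c7, c8, c9, c10, c11, c12, c13, c14, hf⟩ := ex4 hfH
  have h0 : c0 = 0 := by rw [hf] at hz; simpa using hz
  subst h0
  have hx : ∀ x y z : ℝ, 0 ≤ (c1 * y + c2 * z) * x ^ 3 + (c3 * y ^ 2 + c4 * y * z + c5 * z ^ 2)
      * x ^ 2 + (c6 * y ^ 3 + c7 * y ^ 2 * z + c8 * y * z ^ 2 + c9 * z ^ 3) * x
      + (c10 * y ^ 4 + c11 * y ^ 3 * z + c12 * y ^ 2 * z ^ 2 + c13 * y * z ^ 3 + c14 * z ^ 4) := by
    intro x y z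
    have := hf0 ![x, y, z]
    rw [hf] at this
    simp at this
    linarith
  have h1 : c1 = 0 := by
    have := cub (fun x => hx x 1 0); simpa using this
  have h2 : c2 = 0 := by
    have := cub (fun x => hx x 0 1); simpa using this
  subst h1; subst h2
  have h5 : c5 = 0 ∧ c9 = 0 := by
    have e : ∀ s : ℝ, 0 ≤ (-c5) * s ^ 2 + (-c9) * s + (K - c14) := by
      intro s
      have := hK s
      rw [hf] at this
      simp at this
      linarith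
    obtain ⟨a1, a2, a3⟩ := quad e
    obtain ⟨b1, b2, b3⟩ := quad (fun x => by
      have := hx x 0 1
      simpa using this)
    have c5z : c5 = 0 := by linarith
    refine ⟨c5z, ?_⟩
    rw [c5z] at a3
    nlinarith [sq_nonneg c9]
  obtain ⟨h5, h9⟩ := h5
  subst h5; subst h9
  have hq : ∀ y z : ℝ, 0 ≤ c3 * y ^ 2 + c4 * y * z ∧
      (c6 * y ^ 3 + c7 * y ^ 2 * z + c8 * y * z ^ 2) ^ 2 ≤ 4 * (c3 * y ^ 2 + c4 * y * z) *
      (c10 * y ^ 4 + c11 * y ^ 3 * z + c12 * y ^ 2 * z ^ 2 + c13 * y * z ^ 3 + c14 * z ^ 4) := by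
    intro y z
    obtain ⟨a1, a2, a3⟩ := quad (fun x => by
      have := hx x y z
      rw [show ((0 * y + 0 * z) * x ^ 3 + (c3 * y ^ 2 + c4 * y * z + 0 * z ^ 2)
        * x ^ 2 + (c6 * y ^ 3 + c7 * y ^ 2 * z + c8 * y * z ^ 2 + 0 * z ^ 3) * x
        + (c10 * y ^ 4 + c11 * y ^ 3 * z + c12 * y ^ 2 * z ^ 2 + c13 * y * z ^ 3 + c14 * z ^ 4))
        = (c3 * y ^ 2 + c4 * y * z) * x ^ 2
        + (c6 * y ^ 3 + c7 * y ^ 2 * z + c8 * y * z ^ 2) * x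
        + (c10 * y ^ 4 + c11 * y ^ 3 * z + c12 * y ^ 2 * z ^ 2 + c13 * y * z ^ 3 + c14 * z ^ 4)
        by ring] at this
      exact this)
    exact ⟨a1, a3⟩
  have h4 : c4 = 0 := by
    obtain ⟨_, _, a3⟩ := quad (b := 0) (c := c4) (d := c3) (fun z => by
      have := (hq 1 z).1
      simp at this
      linarith)
    nlinarith [sq_nonneg c4]
  subst h4
  have h3 : 0 ≤ c3 := by have := (hq 1 0).1; simpa using this
  by_cases h3' : c3 = 0
  · subst h3'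
    have e1 := (hq 1 0).2
    have e2 := (hq 1 1).2
    have e3 := (hq 1 (-1)).2
    simp at e1 e2 e3
    have e2' : c6 + c7 + c8 = 0 := by nlinarith [sq_nonneg (c6 + c7 + c8)]
    have e3' : c6 + -c7 + c8 = 0 := by nlinarith [sq_nonneg (c6 + -c7 + c8)]
    -- c6 = 0, c7 = 0, c8 = 0
    have e7 : c7 = 0 := by linarith
    have e6 : c6 = 0 := by
      first
        | exact e1
        | nlinarith [sq_nonneg c6]
    have e8 : c8 = 0 := by linarith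
    refine TwoCase (d0 := c10) (d1 := c11) (d2 := c12) (d3 := c13) (d4 := c14) hf0 hne
      (fun v => ?_)
    rw [hf, e6, e7, e8]; ring
  · have h3p : 0 < c3 := lt_of_le_of_ne h3 (Ne.symm h3')
    set σ := Real.sqrt c3 with hσ
    have hσ0 : 0 < σ := Real.sqrt_pos.2 h3p
    have hσ2 : σ ^ 2 = c3 := Real.sq_sqrt h3
    have key : ∀ v : V, act !![1 / σ, -(c6 / (2 * σ ^ 2)), -(c7 / (2 * σ ^ 2)); 0, 1, 0; 0, 0, 1] f v
        = (v 0 * v 1 + (c8 / (2 * σ)) * v 2 ^ 2) ^ 2 +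
          ((c10 - c6 ^ 2 / (4 * c3)) * v 1 ^ 4 + (c11 - 2 * c6 * c7 / (4 * c3)) * v 1 ^ 3 * v 2
          + (c12 - (c7 ^ 2 + 2 * c6 * c8) / (4 * c3)) * v 1 ^ 2 * v 2 ^ 2
          + (c13 - 2 * c7 * c8 / (4 * c3)) * v 1 * v 2 ^ 3
          + (c14 - c8 ^ 2 / (4 * c3)) * v 2 ^ 4) := by
      intro v
      simp only [act]
      rw [hf]
      simp [Matrix.mulVec, dotProduct, Fin.sum_univ_three]
      rw [← hσ2]
      field_simp
      ring
    refine Ok_of_act _ ?_ hf0 (Bcase (act_mem _ hfH) (fun v => hf0 _) ?_ key)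
    · simp [Matrix.det_fin_three, hσ0.ne']
    · -- psd of D
      have hy : ∀ y z : ℝ, y ≠ 0 → 0 ≤ (c10 - c6 ^ 2 / (4 * c3)) * y ^ 4
          + (c11 - 2 * c6 * c7 / (4 * c3)) * y ^ 3 * z
          + (c12 - (c7 ^ 2 + 2 * c6 * c8) / (4 * c3)) * y ^ 2 * z ^ 2
          + (c13 - 2 * c7 * c8 / (4 * c3)) * y * z ^ 3
          + (c14 - c8 ^ 2 / (4 * c3)) * z ^ 4 := by
        intro y z hy
        have h1 := key ![-((c8 / (2 * σ)) * z ^ 2) / y, y, z]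
        have h2 : 0 ≤ act !![1 / σ, -(c6 / (2 * σ ^ 2)), -(c7 / (2 * σ ^ 2)); 0, 1, 0; 0, 0, 1] f
          ![-((c8 / (2 * σ)) * z ^ 2) / y, y, z] := hf0 _
        rw [h1] at h2
        simp only [Matrix.cons_val_zero, Matrix.cons_val_one, Matrix.cons_val] at h2
        rw [div_mul_cancel₀ _ hy, neg_add_cancel] at h2
        simpa using h2
      intro y z
      by_cases hy0 : y = 0
      · subst hy0
        have := cont0 (g := fun y => (c10 - c6 ^ 2 / (4 * c3)) * y ^ 4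
          + (c11 - 2 * c6 * c7 / (4 * c3)) * y ^ 3 * z
          + (c12 - (c7 ^ 2 + 2 * c6 * c8) / (4 * c3)) * y ^ 2 * z ^ 2
          + (c13 - 2 * c7 * c8 / (4 * c3)) * y * z ^ 3
          + (c14 - c8 ^ 2 / (4 * c3)) * z ^ 4) (by fun_prop) (fun y hy' => hy y z hy')
        exact this
      · exact hy y z hy0

end

end Pool.Agent.X21.Ht
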