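import Pool.Agent.X21.Ht.G4

namespace Pool.Agent.X21.Ht

noncomputable section

def Ind (v w : V) : Prop := ∀ a b : ℝ, a • v + b • w = 0 → a = 0 ∧ b = 0

def ND (f : V → ℝ) : Prop :=
  ∀ (v w : V) (K : ℝ), f v = 0 → Ind v w → ¬ ∀ s : ℝ, f (s • v + w) ≤ K

theorem DegGen {f : V → ℝ} (hfH : f ∈ H 4) (hf0 : ∀ v, 0 ≤ f v) (hne : ∃ v, f v ≠ 0)
    (h : ¬ ND f) : Ok f := by
  unfold ND at h
  push Not at h
  obtain ⟨v, w, K, hv, hI, hK⟩ := h
  set M : Matrix (Fin 3) (Fin 3) ℝ := !![v 0, v 1 * w 2 - v 2 * w 1, w 0;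
    v 1, v 2 * w 0 - v 0 * w 2, w 1; v 2, v 0 * w 1 - v 1 * w 0, w 2] with hM
  have hdet : M.det ≠ 0 := by
    have e : M.det = -((v 1 * w 2 - v 2 * w 1) ^ 2 + (v 2 * w 0 - v 0 * w 2) ^ 2
        + (v 0 * w 1 - v 1 * w 0) ^ 2) := by
      rw [hM]; simp [Matrix.det_fin_three]; ring
    rw [e]
    intro h0
    have t0 := sq_nonneg (v 1 * w 2 - v 2 * w 1)
    have t1 := sq_nonneg (v 2 * w 0 - v 0 * w 2)
    have t2 := sq_nonneg (v 0 * w 1 - v 1 * w 0)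
    have u0 : v 1 * w 2 - v 2 * w 1 = 0 := pow_eq_zero_iff (two_ne_zero) |>.1 (by linarith)
    have u1 : v 2 * w 0 - v 0 * w 2 = 0 := pow_eq_zero_iff (two_ne_zero) |>.1 (by linarith)
    have u2 : v 0 * w 1 - v 1 * w 0 = 0 := pow_eq_zero_iff (two_ne_zero) |>.1 (by linarith)
    have k : ∀ i, v i = 0 := by
      intro i
      have := (hI (w i) (-(v i)) (by
        funext j
        fin_cases i <;> fin_cases j <;> simp <;> linarith)).2
      linarith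
    have := (hI 1 0 (by funext j; simp [k j])).1
    norm_num at this
  refine Ok_of_act M hdet hf0 (DegCase (act_mem _ hfH) (fun v => hf0 _) ?_ ?_ (K := K) ?_)
  · obtain ⟨u, hu⟩ := hne
    refine ⟨M⁻¹.mulVec u, ?_⟩
    simp only [act]
    rw [Matrix.mulVec_mulVec, Matrix.mul_nonsing_inv _ (Ne.isUnit hdet), Matrix.one_mulVec]
    exact hu
  · simp only [act]
    have : M.mulVec ![1, 0, 0] = v := by
      funext i
      fin_cases i <;> simp [hM, Matrix.mulVec, dotProduct, Fin.sum_univ_three]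
    rw [this, hv]
  · intro s
    simp only [act]
    have : M.mulVec ![s, 0, 1] = s • v + w := by
      funext i
      fin_cases i <;> simp [hM, Matrix.mulVec, dotProduct, Fin.sum_univ_three] <;> ring
    rw [this]
    exact hK s

lemma ND_act {f : V → ℝ} (M : Matrix (Fin 3) (Fin 3) ℝ) (hM : M.det ≠ 0) (h : ND f) :
    ND (act M f) := by
  intro v w K hv hI hK
  refine h (M.mulVec v) (M.mulVec w) K hv ?_ (fun s => ?_)
  · intro a b hab
    apply hI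
    rw [← Matrix.mulVec_smul, ← Matrix.mulVec_smul, ← Matrix.mulVec_add] at hab
    have := congrArg (M⁻¹.mulVec) hab
    rwa [Matrix.mulVec_mulVec, Matrix.nonsing_inv_mul _ (Ne.isUnit hM), Matrix.one_mulVec,
      Matrix.mulVec_zero] at this
  · have := hK s
    simp only [act] at this
    rwa [Matrix.mulVec_add, Matrix.mulVec_smul] at this

variable {f : V → ℝ} {c0 c1 c2 c3 c4 c5 c6 c7 c8 c9 c10 c11 c12 c13 c14 : ℝ}

lemma kill0 (hf : ∀ v, f v = c0 * v 0 ^ 4 + c1 * v 0 ^ 3 * v 1 + c2 * v 0 ^ 3 * v 2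
    + c3 * v 0 ^ 2 * v 1 ^ 2
    + c4 * v 0 ^ 2 * v 1 * v 2 + c5 * v 0 ^ 2 * v 2 ^ 2 + c6 * v 0 * v 1 ^ 3
    + c7 * v 0 * v 1 ^ 2 * v 2 + c8 * v 0 * v 1 * v 2 ^ 2 + c9 * v 0 * v 2 ^ 3
    + c10 * v 1 ^ 4 + c11 * v 1 ^ 3 * v 2 + c12 * v 1 ^ 2 * v 2 ^ 2 + c13 * v 1 * v 2 ^ 3
    + c14 * v 2 ^ 4) (hf0 : ∀ v, 0 ≤ f v) (hz : f ![1, 0, 0] = 0) : c0 = 0 ∧ c1 = 0 ∧ c2 = 0 := by
  have h0 : c0 = 0 := by rw [hf] at hz; simpa using hz
  have hx : ∀ x y z : ℝ, 0 ≤ (c1 * y + c2 * z) * x ^ 3 + (c3 * y ^ 2 + c4 * y * z + c5 * z ^ 2)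
      * x ^ 2 + (c6 * y ^ 3 + c7 * y ^ 2 * z + c8 * y * z ^ 2 + c9 * z ^ 3) * x
      + (c10 * y ^ 4 + c11 * y ^ 3 * z + c12 * y ^ 2 * z ^ 2 + c13 * y * z ^ 3 + c14 * z ^ 4) := by
    intro x y z
    have := hf0 ![x, y, z]
    rw [hf, h0] at this
    simp at this
    linarith
  have h1 : c1 = 0 := by
    have := cub (fun x => hx x 1 0); simpa using this
  have h2 : c2 = 0 := by
    have := cub (fun x => hx x 0 1); simpa using this
  exact ⟨h0, h1, h2⟩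

lemma kill1 (hf : ∀ v, f v = c0 * v 0 ^ 4 + c1 * v 0 ^ 3 * v 1 + c2 * v 0 ^ 3 * v 2
    + c3 * v 0 ^ 2 * v 1 ^ 2
    + c4 * v 0 ^ 2 * v 1 * v 2 + c5 * v 0 ^ 2 * v 2 ^ 2 + c6 * v 0 * v 1 ^ 3
    + c7 * v 0 * v 1 ^ 2 * v 2 + c8 * v 0 * v 1 * v 2 ^ 2 + c9 * v 0 * v 2 ^ 3
    + c10 * v 1 ^ 4 + c11 * v 1 ^ 3 * v 2 + c12 * v 1 ^ 2 * v 2 ^ 2 + c13 * v 1 * v 2 ^ 3
    + c14 * v 2 ^ 4) (hf0 : ∀ v, 0 ≤ f v) (hz : f ![0, 1, 0] = 0) : c10 = 0 ∧ c6 = 0 ∧ c11 = 0 := by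
  have h0 : c10 = 0 := by rw [hf] at hz; simpa using hz
  have hx : ∀ x y z : ℝ, 0 ≤ (c6 * x + c11 * z) * y ^ 3 + (c3 * x ^ 2 + c7 * x * z + c12 * z ^ 2)
      * y ^ 2 + (c1 * x ^ 3 + c4 * x ^ 2 * z + c8 * x * z ^ 2 + c13 * z ^ 3) * y
      + (c0 * x ^ 4 + c2 * x ^ 3 * z + c5 * x ^ 2 * z ^ 2 + c9 * x * z ^ 3 + c14 * z ^ 4) := by
    intro x y z
    have := hf0 ![x, y, z]
    rw [hf, h0] at this
    simp at this
    linarith
  have h1 : c6 = 0 := by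
    have := cub (fun y => hx 1 y 0); simpa using this
  have h2 : c11 = 0 := by
    have := cub (fun y => hx 0 y 1); simpa using this
  exact ⟨h0, h1, h2⟩

lemma kill2 (hf : ∀ v, f v = c0 * v 0 ^ 4 + c1 * v 0 ^ 3 * v 1 + c2 * v 0 ^ 3 * v 2
    + c3 * v 0 ^ 2 * v 1 ^ 2
    + c4 * v 0 ^ 2 * v 1 * v 2 + c5 * v 0 ^ 2 * v 2 ^ 2 + c6 * v 0 * v 1 ^ 3
    + c7 * v 0 * v 1 ^ 2 * v 2 + c8 * v 0 * v 1 * v 2 ^ 2 + c9 * v 0 * v 2 ^ 3
    + c10 * v 1 ^ 4 + c11 * v 1 ^ 3 * v 2 + c12 * v 1 ^ 2 * v 2 ^ 2 + c13 * v 1 * v 2 ^ 3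
    + c14 * v 2 ^ 4) (hf0 : ∀ v, 0 ≤ f v) (hz : f ![0, 0, 1] = 0) : c14 = 0 ∧ c9 = 0 ∧ c13 = 0 := by
  have h0 : c14 = 0 := by rw [hf] at hz; simpa using hz
  have hx : ∀ x y z : ℝ, 0 ≤ (c9 * x + c13 * y) * z ^ 3 + (c5 * x ^ 2 + c8 * x * y + c12 * y ^ 2)
      * z ^ 2 + (c2 * x ^ 3 + c4 * x ^ 2 * y + c7 * x * y ^ 2 + c11 * y ^ 3) * z
      + (c0 * x ^ 4 + c1 * x ^ 3 * y + c3 * x ^ 2 * y ^ 2 + c6 * x * y ^ 3 + c10 * y ^ 4) := by
    intro x y z
    have := hf0 ![x, y, z]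
    rw [hf, h0] at this
    simp at this
    linarith
  have h1 : c9 = 0 := by
    have := cub (fun z => hx 1 0 z); simpa using this
  have h2 : c13 = 0 := by
    have := cub (fun z => hx 0 1 z); simpa using this
  exact ⟨h0, h1, h2⟩

/-- abstract nondegeneracy -/
lemma ndgen (hND : ND f) {A B C : ℝ} {v w : V} (hv : f v = 0) (hI : Ind v w)
    (h0 : ∀ v, 0 ≤ f v)
    (h : ∀ s : ℝ, f (s • v + w) = A * s ^ 2 + B * s + C) : 0 < A ∧ B ^ 2 ≤ 4 * A * C := by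
  obtain ⟨a1, a2, a3⟩ := quad (b := A) (c := B) (d := C) (fun s => by rw [← h]; exact h0 _)
  refine ⟨?_, a3⟩
  rcases a1.lt_or_eq with h1 | h1
  · exact h1
  exfalso
  rw [← h1] at a3
  have hB : B = 0 := by nlinarith [sq_nonneg B]
  refine hND v w C hv hI (fun s => ?_)
  rw [h, ← h1, hB]; simp

lemma ind0 {y z : ℝ} (h : y ≠ 0 ∨ z ≠ 0) : Ind ![1, 0, 0] ![0, y, z] := by
  intro a b hab
  have e0 := congrFun hab 0
  have e1 := congrFun hab 1
  have e2 := congrFun hab 2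
  simp at e0 e1 e2
  refine ⟨e0, ?_⟩
  rcases h with h | h
  · rcases e1 with e | e
    · exact e
    · exact absurd e h
  · rcases e2 with e | e
    · exact e
    · exact absurd e h

lemma ind1 {x z : ℝ} (h : x ≠ 0 ∨ z ≠ 0) : Ind ![0, 1, 0] ![x, 0, z] := by
  intro a b hab
  have e0 := congrFun hab 0
  have e1 := congrFun hab 1
  have e2 := congrFun hab 2
  simp at e0 e1 e2
  refine ⟨e1, ?_⟩
  rcases h with h | h
  · rcases e0 with e | e
    · exact e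
    · exact absurd e h
  · rcases e2 with e | e
    · exact e
    · exact absurd e h

lemma ind2 {x y : ℝ} (h : x ≠ 0 ∨ y ≠ 0) : Ind ![0, 0, 1] ![x, y, 0] := by
  intro a b hab
  have e0 := congrFun hab 0
  have e1 := congrFun hab 1
  have e2 := congrFun hab 2
  simp at e0 e1 e2
  refine ⟨e2, ?_⟩
  rcases h with h | h
  · rcases e0 with e | e
    · exact e
    · exact absurd e h
  · rcases e1 with e | e
    · exact e
    · exact absurd e h

theorem L3a (hfH : f ∈ H 4) (hf0 : ∀ v, 0 ≤ f v) {C1 C2 : ℝ}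
    (h1 : ∀ v, (v 0 * v 1 - v 1 * v 2) ^ 2 ≤ C1 * f v)
    (h2 : ∀ v, (v 0 * v 2 - v 1 * v 2) ^ 2 ≤ C2 * f v) : Ok f := by
  have hq : (fun v : V => 0 * v 0 ^ 2 + 1 * v 0 * v 1 + 0 * v 0 * v 2 + 0 * v 1 ^ 2
        + (-1) * v 1 * v 2 + 0 * v 2 ^ 2) ∈ W4 f := by
    refine memW (mk2 _ _ _ _ _ _) C1 (fun v => ?_)
    refine le_trans (le_of_eq ?_) (h1 v)
    ring
  have hr : (fun v : V => 0 * v 0 ^ 2 + 0 * v 0 * v 1 + 1 * v 0 * v 2 + 0 * v 1 ^ 2
        + (-1) * v 1 * v 2 + 0 * v 2 ^ 2) ∈ W4 f := by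
    refine memW (mk2 _ _ _ _ _ _) C2 (fun v => ?_)
    refine le_trans (le_of_eq ?_) (h2 v)
    ring
  refine Ok_of_act !![1, -1, -1; 0, 1, 0; 0, 0, 1] (by simp [Matrix.det_fin_three]) hf0 ?_
  refine Plem (act_mem _ hfH) (fun v => hf0 _) (W4_act _ hq) (W4_act _ hr)
      (a := -1) (b := -2) (c := 0) (a' := 0) (b' := -2) (c' := -1) ?_ ?_ (by norm_num)
  · intro v hv
    simp [act, Matrix.mulVec, dotProduct, Fin.sum_univ_three, hv]
    ring
  · intro v hv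
    simp [act, Matrix.mulVec, dotProduct, Fin.sum_univ_three, hv]
    ring

theorem L3 (hfH : f ∈ H 4) (hf0 : ∀ v, 0 ≤ f v) (hND : ND f) (z0 : f ![1, 0, 0] = 0)
    (z1 : f ![0, 1, 0] = 0) (z2 : f ![0, 0, 1] = 0) : Ok f := by
  obtain ⟨c0, c1, c2, c3, c4, c5, c6, c7, c8, c9, c10, c11, c12, c13, c14, hf⟩ := ex4 hfH
  obtain ⟨k0, k1, k2⟩ := kill0 hf hf0 z0
  obtain ⟨k10, k6, k11⟩ := kill1 hf hf0 z1
  obtain ⟨k14, k9, k13⟩ := kill2 hf hf0 z2
  subst k0; subst k1; subst k2; subst k10; subst k6; subst k11; subst k14; subst k9; subst k13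
  have A0 : ∀ y z : ℝ, (y ≠ 0 ∨ z ≠ 0) → 0 < c3 * y ^ 2 + c4 * y * z + c5 * z ^ 2 := by
    intro y z hyz
    refine (ndgen hND z0 (ind0 hyz) hf0 (A := c3 * y ^ 2 + c4 * y * z + c5 * z ^ 2)
      (B := c7 * y ^ 2 * z + c8 * y * z ^ 2) (C := c12 * y ^ 2 * z ^ 2) (fun s => ?_)).1
    rw [hf]; simp; ring
  have A1 : ∀ x z : ℝ, (x ≠ 0 ∨ z ≠ 0) → 0 < c3 * x ^ 2 + c7 * x * z + c12 * z ^ 2 := by
    intro x z hxz
    refine (ndgen hND z1 (ind1 hxz) hf0 (A := c3 * x ^ 2 + c7 * x * z + c12 * z ^ 2)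
      (B := c4 * x ^ 2 * z + c8 * x * z ^ 2) (C := c5 * x ^ 2 * z ^ 2) (fun s => ?_)).1
    rw [hf]; simp; ring
  have A2 : ∀ x y : ℝ, (x ≠ 0 ∨ y ≠ 0) → 0 < c5 * x ^ 2 + c8 * x * y + c12 * y ^ 2 := by
    intro x y hxy
    refine (ndgen hND z2 (ind2 hxy) hf0 (A := c5 * x ^ 2 + c8 * x * y + c12 * y ^ 2)
      (B := c4 * x ^ 2 * y + c7 * x * y ^ 2) (C := c3 * x ^ 2 * y ^ 2) (fun s => ?_)).1
    rw [hf]; simp; ring
  -- the ternary quadratic form Q
  have hQpos : ∀ u v w : ℝ, 0 < u * v * w → 0 ≤ c3 * u ^ 2 + c4 * u * v + c5 * v ^ 2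
      + c7 * u * w + c8 * v * w + c12 * w ^ 2 := by
    intro u v w huvw
    have hw : w ≠ 0 := by rintro rfl; simp at huvw
    have hu : u ≠ 0 := by rintro rfl; simp at huvw
    have hv : v ≠ 0 := by rintro rfl; simp at huvw
    have hpos : 0 < u * v / w := by
      have : u * v / w = u * v * w / w ^ 2 := by field_simp
      rw [this]; positivity
    set x := Real.sqrt (u * v / w) with hx
    have hx0 : 0 < x := Real.sqrt_pos.2 hpos
    have hx2 : x ^ 2 = u * v / w := Real.sq_sqrt hpos.le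
    have := hf0 ![x, u / x, v / x]
    rw [hf] at this
    simp at this
    have e : 0 * (u / x) ^ 2 = 0 := by ring
    have e1 : c3 * x ^ 2 * (u / x) ^ 2 + c4 * x ^ 2 * (u / x) * (v / x)
        + c5 * x ^ 2 * (v / x) ^ 2 + c7 * x * (u / x) ^ 2 * (v / x)
        + c8 * x * (u / x) * (v / x) ^ 2 + c12 * (u / x) ^ 2 * (v / x) ^ 2
        = c3 * u ^ 2 + c4 * u * v + c5 * v ^ 2 + c7 * u * (u * v / x ^ 2)
          + c8 * v * (u * v / x ^ 2) + c12 * (u * v / x ^ 2) ^ 2 := by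
      field_simp
    have e2 : u * v / x ^ 2 = w := by rw [hx2]; field_simp
    rw [e2] at e1
    linarith
  have hQ : ∀ u v w : ℝ, 0 ≤ c3 * u ^ 2 + c4 * u * v + c5 * v ^ 2
      + c7 * u * w + c8 * v * w + c12 * w ^ 2 := by
    intro u v w
    rcases lt_trichotomy (u * v * w) 0 with h | h | h
    · have := hQpos (-u) (-v) (-w) (by nlinarith)
      nlinarith
    · by_cases h0 : u = 0 ∧ v = 0 ∧ w = 0
      · obtain ⟨rfl, rfl, rfl⟩ := h0; simp
      rcases mul_eq_zero.1 h with h | h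
      · rcases mul_eq_zero.1 h with h | h
        · subst h
          have : v ≠ 0 ∨ w ≠ 0 := by
            by_contra hc; push Not at hc; exact h0 ⟨rfl, hc.1, hc.2⟩
          have := A2 v w this
          nlinarith
        · subst h
          have : u ≠ 0 ∨ w ≠ 0 := by
            by_contra hc; push Not at hc; exact h0 ⟨hc.1, rfl, hc.2⟩
          have := A1 u w this
          nlinarith
      · subst h
        have : u ≠ 0 ∨ v ≠ 0 := by
          by_contra hc; push Not at hc; exact h0 ⟨hc.1, hc.2, rfl⟩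
        have := A0 u v this
        nlinarith
    · exact hQpos u v w h
  by_cases hzero : ∃ u v w : ℝ, 0 < u * v * w ∧ c3 * u ^ 2 + c4 * u * v + c5 * v ^ 2
      + c7 * u * w + c8 * v * w + c12 * w ^ 2 = 0
  · obtain ⟨u, v, w, huvw, h0⟩ := hzero
    have hw : w ≠ 0 := by rintro rfl; simp at huvw
    have hu : u ≠ 0 := by rintro rfl; simp at huvw
    have hv : v ≠ 0 := by rintro rfl; simp at huvw
    have hpos : 0 < u * v / w := by
      have : u * v / w = u * v * w / w ^ 2 := by field_simp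
      rw [this]; positivity
    set x := Real.sqrt (u * v / w) with hx
    have hx0 : 0 < x := Real.sqrt_pos.2 hpos
    have hx2 : x ^ 2 = u * v / w := Real.sq_sqrt hpos.le
    have e2 : u * v / x ^ 2 = w := by rw [hx2]; field_simp
    -- kernel conditions
    have K1 : 2 * c3 * u ^ 2 + c4 * u * v + c7 * u * w = 0 := by
      obtain ⟨_, _, a3⟩ := quad (b := c3 * u ^ 2) (c := 2 * c3 * u ^ 2 + c4 * u * v + c7 * u * w)
        (d := 0) (fun t => by have := hQ ((1 + t) * u) v w; nlinarith)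
      nlinarith [sq_nonneg (2 * c3 * u ^ 2 + c4 * u * v + c7 * u * w)]
    have K2 : c4 * u * v + 2 * c5 * v ^ 2 + c8 * v * w = 0 := by
      obtain ⟨_, _, a3⟩ := quad (b := c5 * v ^ 2) (c := c4 * u * v + 2 * c5 * v ^ 2 + c8 * v * w)
        (d := 0) (fun t => by have := hQ u ((1 + t) * v) w; nlinarith)
      nlinarith [sq_nonneg (c4 * u * v + 2 * c5 * v ^ 2 + c8 * v * w)]
    have hdet : (!![x, 0, 0; 0, u / x, 0; 0, 0, v / x] : Matrix (Fin 3) (Fin 3) ℝ).det ≠ 0 := by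
      simp [Matrix.det_fin_three]
      exact ⟨⟨hx0.ne', hu, hx0.ne'⟩, hv, hx0.ne'⟩
    refine Ok_of_act _ hdet hf0 ?_
    have hg : ∀ X : V, act !![x, 0, 0; 0, u / x, 0; 0, 0, v / x] f X
        = c3 * u ^ 2 * (X 0 * X 1 - X 1 * X 2) ^ 2
          + c4 * u * v * (X 0 * X 1 - X 1 * X 2) * (X 0 * X 2 - X 1 * X 2)
          + c5 * v ^ 2 * (X 0 * X 2 - X 1 * X 2) ^ 2 := by
      intro X
      simp only [act]
      rw [hf]
      simp [Matrix.mulVec, dotProduct, Fin.sum_univ_three]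
      have e1 : c3 * (x * X 0) ^ 2 * (u / x * X 1) ^ 2
          + c4 * (x * X 0) ^ 2 * (u / x * X 1) * (v / x * X 2)
          + c5 * (x * X 0) ^ 2 * (v / x * X 2) ^ 2
          + c7 * (x * X 0) * (u / x * X 1) ^ 2 * (v / x * X 2)
          + c8 * (x * X 0) * (u / x * X 1) * (v / x * X 2) ^ 2
          + c12 * (u / x * X 1) ^ 2 * (v / x * X 2) ^ 2
          = c3 * (u * (X 0 * X 1)) ^ 2 + c4 * (u * (X 0 * X 1)) * (v * (X 0 * X 2))
            + c5 * (v * (X 0 * X 2)) ^ 2 + c7 * (u * (X 0 * X 1)) * (u * v / x ^ 2 * (X 1 * X 2))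
            + c8 * (v * (X 0 * X 2)) * (u * v / x ^ 2 * (X 1 * X 2))
            + c12 * (u * v / x ^ 2 * (X 1 * X 2)) ^ 2 := by
        field_simp
      rw [e2] at e1
      rw [e1]
      have K1' : c7 * u * w = -(2 * c3 * u ^ 2 + c4 * u * v) := by linarith
      have K2' : c8 * v * w = -(c4 * u * v + 2 * c5 * v ^ 2) := by linarith
      have K3' : c12 * w ^ 2 = c3 * u ^ 2 + c4 * u * v + c5 * v ^ 2 := by linarith
      linear_combination (X 0 * X 1 ^ 2 * X 2) * K1' + (X 0 * X 1 * X 2 ^ 2) * K2'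
        + (X 1 ^ 2 * X 2 ^ 2) * K3'
    have p3 : 0 < c3 * u ^ 2 := by have := A0 u 0 (Or.inl hu); simpa using this
    have p5 : 0 < c5 * v ^ 2 := by have := A0 0 v (Or.inr hv); simpa using this
    have pd : 0 < 4 * (c3 * u ^ 2) * (c5 * v ^ 2) - (c4 * u * v) ^ 2 := by
      have := A0 (-(c4 * u * v) * u) (2 * (c3 * u ^ 2) * v)
        (Or.inr (mul_ne_zero (mul_ne_zero two_ne_zero p3.ne') hv))
      have e : c3 * (-(c4 * u * v) * u) ^ 2 + c4 * (-(c4 * u * v) * u) * (2 * (c3 * u ^ 2) * v)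
          + c5 * (2 * (c3 * u ^ 2) * v) ^ 2
          = (c3 * u ^ 2) * (4 * (c3 * u ^ 2) * (c5 * v ^ 2) - (c4 * u * v) ^ 2) := by ring
      rw [e] at this
      exact (mul_pos_iff_of_pos_left p3).1 this
    set δ := 4 * (c3 * u ^ 2) * (c5 * v ^ 2) - (c4 * u * v) ^ 2 with hδ
    refine L3a (act_mem _ hfH) (fun v => hf0 _) (C1 := 4 * (c5 * v ^ 2) / δ)
      (C2 := 4 * (c3 * u ^ 2) / δ) (fun X => ?_) (fun X => ?_)
    · rw [div_mul_eq_mul_div, le_div_iff₀ pd, hg]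
      nlinarith [sq_nonneg (2 * (c5 * v ^ 2) * (X 0 * X 2 - X 1 * X 2)
        + c4 * u * v * (X 0 * X 1 - X 1 * X 2))]
    · rw [div_mul_eq_mul_div, le_div_iff₀ pd, hg]
      nlinarith [sq_nonneg (2 * (c3 * u ^ 2) * (X 0 * X 1 - X 1 * X 2)
        + c4 * u * v * (X 0 * X 2 - X 1 * X 2))]
  · -- Q positive definite
    push Not at hzero
    set g : V → ℝ := fun X => c3 * X 0 ^ 2 + c4 * X 0 * X 1 + c5 * X 1 ^ 2
      + c7 * X 0 * X 2 + c8 * X 1 * X 2 + c12 * X 2 ^ 2 with hg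
    have hgpos : ∀ X ∈ sph, 0 < g X := by
      intro X hX
      have hN : X 0 ^ 2 + X 1 ^ 2 + X 2 ^ 2 = 1 := hX
      have h1 := hQ (X 0) (X 1) (X 2)
      refine lt_of_le_of_ne h1 (fun hc => ?_)
      have hc' : c3 * X 0 ^ 2 + c4 * X 0 * X 1 + c5 * X 1 ^ 2
        + c7 * X 0 * X 2 + c8 * X 1 * X 2 + c12 * X 2 ^ 2 = 0 := hc.symm
      rcases lt_trichotomy (X 0 * X 1 * X 2) 0 with h | h | h
      · refine hzero (-X 0) (-X 1) (-X 2) (by nlinarith) ?_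
        linarith
      · rcases mul_eq_zero.1 h with h | h
        · rcases mul_eq_zero.1 h with h | h
          · rw [h] at hN hc'
            have : X 1 ≠ 0 ∨ X 2 ≠ 0 := by
              by_contra hcc; push Not at hcc; rw [hcc.1, hcc.2] at hN; norm_num at hN
            have := A2 _ _ this
            linarith
          · rw [h] at hN hc'
            have : X 0 ≠ 0 ∨ X 2 ≠ 0 := by
              by_contra hcc; push Not at hcc; rw [hcc.1, hcc.2] at hN; norm_num at hN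
            have := A1 _ _ this
            linarith
        · rw [h] at hN hc'
          have : X 0 ≠ 0 ∨ X 1 ≠ 0 := by
            by_contra hcc; push Not at hcc; rw [hcc.1, hcc.2] at hN; norm_num at hN
          have := A0 _ _ this
          linarith
      · exact hzero _ _ _ h hc'
    obtain ⟨c, hc, hc'⟩ := cpt_pos (g := g) (by rw [hg]; fun_prop) hgpos
    have hall : ∀ X : V, c * N X ≤ g X := by
      refine ext_sph (n := 2) (by norm_num) (fun t v => ?_) (fun t v => ?_) ?_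
      · rw [N_hom]; ring
      · simp only [hg, Pi.smul_apply, smul_eq_mul]; ring
      · intro v hv
        have hN : N v = 1 := hv
        rw [hN]; simpa using hc' v hv
    have hfg : ∀ X : V, f X = g ![X 0 * X 1, X 0 * X 2, X 1 * X 2] := by
      intro X; rw [hf, hg]; simp; ring
    refine L3a hfH hf0 (C1 := 2 / c) (C2 := 2 / c) (fun X => ?_) (fun X => ?_)
    · rw [div_mul_eq_mul_div, le_div_iff₀ hc, hfg]
      have := hall ![X 0 * X 1, X 0 * X 2, X 1 * X 2]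
      simp only [N, Matrix.cons_val_zero, Matrix.cons_val_one, Matrix.cons_val] at this
      have h1 : (X 0 * X 1 - X 1 * X 2) ^ 2 ≤ 2 * ((X 0 * X 1) ^ 2 + (X 0 * X 2) ^ 2
        + (X 1 * X 2) ^ 2) := by
        nlinarith [sq_nonneg (X 0 * X 1 + X 1 * X 2), sq_nonneg (X 0 * X 2)]
      nlinarith
    · rw [div_mul_eq_mul_div, le_div_iff₀ hc, hfg]
      have := hall ![X 0 * X 1, X 0 * X 2, X 1 * X 2]
      simp only [N, Matrix.cons_val_zero, Matrix.cons_val_one, Matrix.cons_val] at this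
      have h1 : (X 0 * X 2 - X 1 * X 2) ^ 2 ≤ 2 * ((X 0 * X 1) ^ 2 + (X 0 * X 2) ^ 2
        + (X 1 * X 2) ^ 2) := by
        nlinarith [sq_nonneg (X 0 * X 2 + X 1 * X 2), sq_nonneg (X 0 * X 1)]
      nlinarith

end

end Pool.Agent.X21.Ht
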