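import Pool.Agent.X21.Ht.G5

namespace Pool.Agent.X21.Ht

noncomputable section

variable {f : V → ℝ}

lemma le_K (a b c y z : ℝ) : a * y ^ 2 + b * y * z + c * z ^ 2
    ≤ (|a| + |b| + |c|) * (y ^ 2 + z ^ 2) := by
  have h1 : a * y ^ 2 ≤ |a| * y ^ 2 := mul_le_mul_of_nonneg_right (le_abs_self a) (sq_nonneg y)
  have h2 : c * z ^ 2 ≤ |c| * z ^ 2 := mul_le_mul_of_nonneg_right (le_abs_self c) (sq_nonneg z)
  have h3 : b * (y * z) ≤ |b| * (y ^ 2 + z ^ 2) := by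
    calc b * (y * z) ≤ |b * (y * z)| := le_abs_self _
      _ = |b| * |y * z| := abs_mul _ _
      _ ≤ |b| * (y ^ 2 + z ^ 2) := by
        apply mul_le_mul_of_nonneg_left _ (abs_nonneg b)
        rw [abs_le]
        constructor <;> nlinarith [sq_nonneg (y + z), sq_nonneg (y - z)]
  nlinarith [mul_nonneg (abs_nonneg a) (sq_nonneg z), mul_nonneg (abs_nonneg c) (sq_nonneg y)]

theorem L2 (hfH : f ∈ H 4) (hf0 : ∀ v, 0 ≤ f v) (hND : ND f) (z0 : f ![1, 0, 0] = 0)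
    (z1 : f ![0, 1, 0] = 0) : Ok f := by
  obtain ⟨c0, c1, c2, c3, c4, c5, c6, c7, c8, c9, c10, c11, c12, c13, c14, hf⟩ := ex4 hfH
  obtain ⟨k0, k1, k2⟩ := kill0 hf hf0 z0
  obtain ⟨k10, k6, k11⟩ := kill1 hf hf0 z1
  subst k0; subst k1; subst k2; subst k10; subst k6; subst k11
  have A0' : ∀ y z : ℝ, (y ≠ 0 ∨ z ≠ 0) → 0 < c3 * y ^ 2 + c4 * y * z + c5 * z ^ 2 ∧
      (c7 * y ^ 2 * z + c8 * y * z ^ 2 + c9 * z ^ 3) ^ 2 ≤
        4 * (c3 * y ^ 2 + c4 * y * z + c5 * z ^ 2)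
        * (c12 * y ^ 2 * z ^ 2 + c13 * y * z ^ 3 + c14 * z ^ 4) := by
    intro y z hyz
    refine ndgen hND z0 (ind0 hyz) hf0 (A := c3 * y ^ 2 + c4 * y * z + c5 * z ^ 2)
      (B := c7 * y ^ 2 * z + c8 * y * z ^ 2 + c9 * z ^ 3)
      (C := c12 * y ^ 2 * z ^ 2 + c13 * y * z ^ 3 + c14 * z ^ 4) (fun s => ?_)
    rw [hf]; simp; ring
  have A0 := fun y z h => (A0' y z h).1
  have A1 : ∀ x z : ℝ, (x ≠ 0 ∨ z ≠ 0) → 0 < c3 * x ^ 2 + c7 * x * z + c12 * z ^ 2 := by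
    intro x z hxz
    refine (ndgen hND z1 (ind1 hxz) hf0 (A := c3 * x ^ 2 + c7 * x * z + c12 * z ^ 2)
      (B := c4 * x ^ 2 * z + c8 * x * z ^ 2 + c13 * z ^ 3)
      (C := c5 * x ^ 2 * z ^ 2 + c9 * x * z ^ 3 + c14 * z ^ 4) (fun s => ?_)).1
    rw [hf]; simp; ring
  have p3 : 0 < c3 := by have := A0 1 0 (Or.inl one_ne_zero); simpa using this
  have pd : 0 < 4 * c3 * c12 - c7 ^ 2 := by
    have := A1 (-c7) (2 * c3) (Or.inr (by positivity))
    have e : c3 * (-c7) ^ 2 + c7 * (-c7) * (2 * c3) + c12 * (2 * c3) ^ 2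
        = c3 * (4 * c3 * c12 - c7 ^ 2) := by ring
    rw [e] at this
    exact (mul_pos_iff_of_pos_left p3).1 this
  set G : ℝ → ℝ → ℝ := fun y z => 4 * (c3 * y ^ 2 + c4 * y * z + c5 * z ^ 2)
    * (c12 * y ^ 2 + c13 * y * z + c14 * z ^ 2) - (c7 * y ^ 2 + c8 * y * z + c9 * z ^ 2) ^ 2 with hG
  have hG0 : ∀ y z : ℝ, (y ≠ 0 ∨ z ≠ 0) → 0 ≤ G y z := by
    intro y z hyz
    by_cases hz : z = 0
    · subst hz
      have : G y 0 = y ^ 4 * (4 * c3 * c12 - c7 ^ 2) := by rw [hG]; ring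
      rw [this]; positivity
    · have h1 := (A0' y z hyz).2
      have h2 : 0 ≤ z ^ 2 * G y z := by rw [hG]; nlinarith
      exact nonneg_of_mul_nonneg_right h2 (by positivity)
  by_cases hzero : ∃ y z : ℝ, (y ≠ 0 ∨ z ≠ 0) ∧ G y z = 0
  · obtain ⟨y, z, hyz, h0⟩ := hzero
    have hz : z ≠ 0 := by
      rintro rfl
      have hy : y ≠ 0 := by simpa using hyz
      have : G y 0 = y ^ 4 * (4 * c3 * c12 - c7 ^ 2) := by rw [hG]; ring
      rw [this] at h0
      have : 0 < y ^ 4 * (4 * c3 * c12 - c7 ^ 2) := by positivity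
      linarith
    have hA := A0 y z hyz
    set A := c3 * y ^ 2 + c4 * y * z + c5 * z ^ 2 with hAdef
    set x := -(z * (c7 * y ^ 2 + c8 * y * z + c9 * z ^ 2)) / (2 * A) with hx
    have hdet : (!![1, 0, x; 0, 1, y; 0, 0, z] : Matrix (Fin 3) (Fin 3) ℝ).det ≠ 0 := by
      simp [Matrix.det_fin_three, hz]
    refine Ok_of_act _ hdet hf0 ?_
    refine L3 (act_mem _ hfH) (fun v => hf0 _) (ND_act _ hdet hND) ?_ ?_ ?_
    · have : act !![1, 0, x; 0, 1, y; 0, 0, z] f ![1, 0, 0] = f ![1, 0, 0] := by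
        simp only [act]; congr 1; funext i
        fin_cases i <;> simp [Matrix.mulVec, dotProduct, Fin.sum_univ_three]
      rw [this, z0]
    · have : act !![1, 0, x; 0, 1, y; 0, 0, z] f ![0, 1, 0] = f ![0, 1, 0] := by
        simp only [act]; congr 1; funext i
        fin_cases i <;> simp [Matrix.mulVec, dotProduct, Fin.sum_univ_three]
      rw [this, z1]
    · have : act !![1, 0, x; 0, 1, y; 0, 0, z] f ![0, 0, 1] = f ![x, y, z] := by
        simp only [act]; congr 1; funext i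
        fin_cases i <;> simp [Matrix.mulVec, dotProduct, Fin.sum_univ_three]
      rw [this]
      have e1 : 2 * A * x + z * (c7 * y ^ 2 + c8 * y * z + c9 * z ^ 2) = 0 := by
        rw [hx]; field_simp; ring
      have e2 : 4 * A * f ![x, y, z]
          = (2 * A * x + z * (c7 * y ^ 2 + c8 * y * z + c9 * z ^ 2)) ^ 2 + z ^ 2 * G y z := by
        rw [hf, hG, hAdef]; simp; ring
      rw [e1, h0] at e2
      have e3 : 4 * A * f ![x, y, z] = 0 := by rw [e2]; ring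
      rcases mul_eq_zero.1 e3 with h | h
      · exfalso; linarith
      · exact h
  · push Not at hzero
    have hGp : ∀ y z : ℝ, (y ≠ 0 ∨ z ≠ 0) → 0 < G y z := fun y z h =>
      lt_of_le_of_ne (hG0 y z h) (Ne.symm (hzero y z h))
    obtain ⟨c, hc, hc'⟩ := cpt_pos (g := fun v => G (v 1) (v 2) + v 0 ^ 4)
      (by rw [hG]; fun_prop) (by
        intro v hv
        by_cases h5 : v 1 ≠ 0 ∨ v 2 ≠ 0
        · have := hGp _ _ h5
          have : 0 ≤ v 0 ^ 4 := by positivity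
          show 0 < _; linarith
        · push Not at h5
          have hN : v 0 ^ 2 + v 1 ^ 2 + v 2 ^ 2 = 1 := hv
          rw [h5.1, h5.2] at hN
          have h6 : G 0 0 = 0 := by rw [hG]; ring
          simp only [h5.1, h5.2, h6]
          have : v 0 ^ 4 = 1 := by nlinarith
          rw [this]; norm_num)
    have hall : ∀ v : V, c * N v ^ 2 ≤ G (v 1) (v 2) + v 0 ^ 4 := by
      refine ext_sph (n := 4) (by norm_num) (fun t v => ?_) (fun t v => ?_) ?_
      · rw [N_hom]; ring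
      · simp only [hG, Pi.smul_apply, smul_eq_mul]; ring
      · intro v hv
        have hN : N v = 1 := hv
        rw [hN]; simpa using hc' v hv
    have hGc : ∀ y z : ℝ, c * (y ^ 2 + z ^ 2) ^ 2 ≤ G y z := by
      intro y z
      have := hall ![0, y, z]
      simpa [N] using this
    set K := (|c3| + |c4| + |c5|) + (|c12| + |c13| + |c14|) with hK
    have hKp : 0 < K := by
      have : 0 < |c3| := abs_pos.2 p3.ne'
      positivity
    have hKA : ∀ y z : ℝ, c3 * y ^ 2 + c4 * y * z + c5 * z ^ 2 ≤ K * (y ^ 2 + z ^ 2) := by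
      intro y z
      have := le_K c3 c4 c5 y z
      have : 0 ≤ (|c12| + |c13| + |c14|) * (y ^ 2 + z ^ 2) := by positivity
      rw [hK]; linarith
    have hKC : ∀ y z : ℝ, c12 * y ^ 2 + c13 * y * z + c14 * z ^ 2 ≤ K * (y ^ 2 + z ^ 2) := by
      intro y z
      have := le_K c12 c13 c14 y z
      have : 0 ≤ (|c3| + |c4| + |c5|) * (y ^ 2 + z ^ 2) := by positivity
      rw [hK]; linarith
    -- lower bounds
    have b1 : ∀ v, c * v 2 ^ 2 * (v 1 ^ 2 + v 2 ^ 2) ≤ 4 * K * f v := by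
      intro v
      by_cases hyz : v 1 = 0 ∧ v 2 = 0
      · rw [hyz.1, hyz.2]
        have := hf0 v
        have : 0 ≤ 4 * K * f v := by positivity
        linarith
      · have hr : 0 < v 1 ^ 2 + v 2 ^ 2 := by
          rcases not_and_or.1 hyz with h | h
          · have := sq_pos_of_ne_zero h; positivity
          · have := sq_pos_of_ne_zero h; positivity
        have e2 : 4 * (c3 * v 1 ^ 2 + c4 * v 1 * v 2 + c5 * v 2 ^ 2) * f v
          = (2 * (c3 * v 1 ^ 2 + c4 * v 1 * v 2 + c5 * v 2 ^ 2) * v 0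
            + v 2 * (c7 * v 1 ^ 2 + c8 * v 1 * v 2 + c9 * v 2 ^ 2)) ^ 2
            + v 2 ^ 2 * G (v 1) (v 2) := by
          rw [hf, hG]; ring
        have e3 := mul_le_mul_of_nonneg_right (hKA (v 1) (v 2)) (hf0 v)
        have e4 := mul_le_mul_of_nonneg_left (hGc (v 1) (v 2)) (sq_nonneg (v 2))
        have e5 : (v 1 ^ 2 + v 2 ^ 2) * (c * v 2 ^ 2 * (v 1 ^ 2 + v 2 ^ 2))
            ≤ (v 1 ^ 2 + v 2 ^ 2) * (4 * K * f v) := by
          nlinarith [sq_nonneg (2 * (c3 * v 1 ^ 2 + c4 * v 1 * v 2 + c5 * v 2 ^ 2) * v 0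
            + v 2 * (c7 * v 1 ^ 2 + c8 * v 1 * v 2 + c9 * v 2 ^ 2))]
        exact le_of_mul_le_mul_left e5 hr
    have b2 : ∀ v, c * v 0 ^ 2 * (v 1 ^ 2 + v 2 ^ 2) ≤ 4 * K * f v := by
      intro v
      by_cases hyz : v 1 = 0 ∧ v 2 = 0
      · rw [hyz.1, hyz.2]
        have := hf0 v
        have : 0 ≤ 4 * K * f v := by positivity
        linarith
      · have hr : 0 < v 1 ^ 2 + v 2 ^ 2 := by
          rcases not_and_or.1 hyz with h | h
          · have := sq_pos_of_ne_zero h; positivity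
          · have := sq_pos_of_ne_zero h; positivity
        have e2 : 4 * (c12 * v 1 ^ 2 + c13 * v 1 * v 2 + c14 * v 2 ^ 2) * f v
          = (2 * (c12 * v 1 ^ 2 + c13 * v 1 * v 2 + c14 * v 2 ^ 2) * v 2
            + v 0 * (c7 * v 1 ^ 2 + c8 * v 1 * v 2 + c9 * v 2 ^ 2)) ^ 2
            + v 0 ^ 2 * G (v 1) (v 2) := by
          rw [hf, hG]; ring
        have e3 := mul_le_mul_of_nonneg_right (hKC (v 1) (v 2)) (hf0 v)
        have e4 := mul_le_mul_of_nonneg_left (hGc (v 1) (v 2)) (sq_nonneg (v 0))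
        have e5 : (v 1 ^ 2 + v 2 ^ 2) * (c * v 0 ^ 2 * (v 1 ^ 2 + v 2 ^ 2))
            ≤ (v 1 ^ 2 + v 2 ^ 2) * (4 * K * f v) := by
          nlinarith [sq_nonneg (2 * (c12 * v 1 ^ 2 + c13 * v 1 * v 2 + c14 * v 2 ^ 2) * v 2
            + v 0 * (c7 * v 1 ^ 2 + c8 * v 1 * v 2 + c9 * v 2 ^ 2))]
        exact le_of_mul_le_mul_left e5 hr
    have hq : (fun v : V => 0 * v 0 ^ 2 + 0 * v 0 * v 1 + 0 * v 0 * v 2 + 0 * v 1 ^ 2
        + 0 * v 1 * v 2 + 1 * v 2 ^ 2) ∈ W4 f := by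
      refine memW (mk2 _ _ _ _ _ _) (4 * K / c) (fun v => ?_)
      rw [div_mul_eq_mul_div, le_div_iff₀ hc]
      have h1 := b1 v
      have h2 : 0 ≤ c * v 2 ^ 2 * v 1 ^ 2 := by positivity
      nlinarith
    have hr : (fun v : V => 0 * v 0 ^ 2 + 1 * v 0 * v 1 + 0 * v 0 * v 2 + 0 * v 1 ^ 2
        + 0 * v 1 * v 2 + 0 * v 2 ^ 2) ∈ W4 f := by
      refine memW (mk2 _ _ _ _ _ _) (4 * K / c) (fun v => ?_)
      rw [div_mul_eq_mul_div, le_div_iff₀ hc]
      have h1 := b2 v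
      have h2 : 0 ≤ c * v 0 ^ 2 * v 2 ^ 2 := by positivity
      nlinarith
    apply shear_ok hf0 1
    refine Plem (act_mem _ hfH) (fun v => hf0 _) (W4_act _ hq) (W4_act _ hr)
      (a := 0) (b := 0) (c := 1) (a' := 1) (b' := 0) (c' := 0) ?_ ?_ (by norm_num)
    · intro v hv
      simp [act, Matrix.mulVec, dotProduct, Fin.sum_univ_three]
    · intro v hv
      simp [act, Matrix.mulVec, dotProduct, Fin.sum_univ_three, hv]
      ring

theorem L1 (hfH : f ∈ H 4) (hf0 : ∀ v, 0 ≤ f v) (hND : ND f) (z0 : f ![1, 0, 0] = 0) : Ok f := by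
  obtain ⟨c0, c1, c2, c3, c4, c5, c6, c7, c8, c9, c10, c11, c12, c13, c14, hf⟩ := ex4 hfH
  obtain ⟨k0, k1, k2⟩ := kill0 hf hf0 z0
  subst k0; subst k1; subst k2
  have A0' : ∀ y z : ℝ, (y ≠ 0 ∨ z ≠ 0) → 0 < c3 * y ^ 2 + c4 * y * z + c5 * z ^ 2 ∧
      (c6 * y ^ 3 + c7 * y ^ 2 * z + c8 * y * z ^ 2 + c9 * z ^ 3) ^ 2 ≤
        4 * (c3 * y ^ 2 + c4 * y * z + c5 * z ^ 2)
        * (c10 * y ^ 4 + c11 * y ^ 3 * z + c12 * y ^ 2 * z ^ 2 + c13 * y * z ^ 3
          + c14 * z ^ 4) := by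
    intro y z hyz
    refine ndgen hND z0 (ind0 hyz) hf0 (A := c3 * y ^ 2 + c4 * y * z + c5 * z ^ 2)
      (B := c6 * y ^ 3 + c7 * y ^ 2 * z + c8 * y * z ^ 2 + c9 * z ^ 3)
      (C := c10 * y ^ 4 + c11 * y ^ 3 * z + c12 * y ^ 2 * z ^ 2 + c13 * y * z ^ 3
          + c14 * z ^ 4) (fun s => ?_)
    rw [hf]; simp; ring
  have A0 := fun y z h => (A0' y z h).1
  have p3 : 0 < c3 := by have := A0 1 0 (Or.inl one_ne_zero); simpa using this
  set G : ℝ → ℝ → ℝ := fun y z => 4 * (c3 * y ^ 2 + c4 * y * z + c5 * z ^ 2)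
    * (c10 * y ^ 4 + c11 * y ^ 3 * z + c12 * y ^ 2 * z ^ 2 + c13 * y * z ^ 3 + c14 * z ^ 4)
      - (c6 * y ^ 3 + c7 * y ^ 2 * z + c8 * y * z ^ 2 + c9 * z ^ 3) ^ 2 with hG
  have hG0 : ∀ y z : ℝ, (y ≠ 0 ∨ z ≠ 0) → 0 ≤ G y z := by
    intro y z hyz
    have := (A0' y z hyz).2
    rw [hG]; simp only; linarith
  by_cases hzero : ∃ y z : ℝ, (y ≠ 0 ∨ z ≠ 0) ∧ G y z = 0
  · obtain ⟨y, z, hyz, h0⟩ := hzero
    have hA := A0 y z hyz
    set A := c3 * y ^ 2 + c4 * y * z + c5 * z ^ 2 with hAdef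
    set x := -(c6 * y ^ 3 + c7 * y ^ 2 * z + c8 * y * z ^ 2 + c9 * z ^ 3) / (2 * A) with hx
    have hdet : (!![1, x, 0; 0, y, -z; 0, z, y] : Matrix (Fin 3) (Fin 3) ℝ).det ≠ 0 := by
      simp [Matrix.det_fin_three]
      have hr : 0 < y ^ 2 + z ^ 2 := by
        rcases hyz with h | h
        · have := sq_pos_of_ne_zero h; positivity
        · have := sq_pos_of_ne_zero h; positivity
      nlinarith
    refine Ok_of_act _ hdet hf0 ?_
    refine L2 (act_mem _ hfH) (fun v => hf0 _) (ND_act _ hdet hND) ?_ ?_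
    · have : act !![1, x, 0; 0, y, -z; 0, z, y] f ![1, 0, 0] = f ![1, 0, 0] := by
        simp only [act]; congr 1; funext i
        fin_cases i <;> simp [Matrix.mulVec, dotProduct, Fin.sum_univ_three]
      rw [this, z0]
    · have : act !![1, x, 0; 0, y, -z; 0, z, y] f ![0, 1, 0] = f ![x, y, z] := by
        simp only [act]; congr 1; funext i
        fin_cases i <;> simp [Matrix.mulVec, dotProduct, Fin.sum_univ_three]
      rw [this]
      have e1 : 2 * A * x + (c6 * y ^ 3 + c7 * y ^ 2 * z + c8 * y * z ^ 2 + c9 * z ^ 3) = 0 := by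
        rw [hx]; field_simp; ring
      have e2 : 4 * A * f ![x, y, z]
          = (2 * A * x + (c6 * y ^ 3 + c7 * y ^ 2 * z + c8 * y * z ^ 2 + c9 * z ^ 3)) ^ 2
            + G y z := by
        rw [hf, hG, hAdef]; simp; ring
      rw [e1, h0] at e2
      have e3 : 4 * A * f ![x, y, z] = 0 := by rw [e2]; ring
      rcases mul_eq_zero.1 e3 with h | h
      · exfalso; linarith
      · exact h
  · push Not at hzero
    have hGp : ∀ y z : ℝ, (y ≠ 0 ∨ z ≠ 0) → 0 < G y z := fun y z h =>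
      lt_of_le_of_ne (hG0 y z h) (Ne.symm (hzero y z h))
    obtain ⟨c, hc, hc'⟩ := cpt_pos (g := fun v => G (v 1) (v 2) + v 0 ^ 6)
      (by rw [hG]; fun_prop) (by
        intro v hv
        by_cases h5 : v 1 ≠ 0 ∨ v 2 ≠ 0
        · have := hGp _ _ h5
          have : 0 ≤ v 0 ^ 6 := by positivity
          show 0 < _; linarith
        · push Not at h5
          have hN : v 0 ^ 2 + v 1 ^ 2 + v 2 ^ 2 = 1 := hv
          rw [h5.1, h5.2] at hN
          have h6 : G 0 0 = 0 := by rw [hG]; ring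
          simp only [h5.1, h5.2, h6]
          have h7 : v 0 ^ 2 = 1 := by linarith
          have : v 0 ^ 6 = (v 0 ^ 2) ^ 3 := by ring
          rw [this, h7]; norm_num)
    have hall : ∀ v : V, c * N v ^ 3 ≤ G (v 1) (v 2) + v 0 ^ 6 := by
      refine ext_sph (n := 6) (by norm_num) (fun t v => ?_) (fun t v => ?_) ?_
      · rw [N_hom]; ring
      · simp only [hG, Pi.smul_apply, smul_eq_mul]; ring
      · intro v hv
        have hN : N v = 1 := hv
        rw [hN]; simpa using hc' v hv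
    have hGc : ∀ y z : ℝ, c * (y ^ 2 + z ^ 2) ^ 3 ≤ G y z := by
      intro y z
      have := hall ![0, y, z]
      simpa [N] using this
    set K := |c3| + |c4| + |c5| with hK
    have hKp : 0 < K := by
      have : 0 < |c3| := abs_pos.2 p3.ne'
      positivity
    have b1 : ∀ v, c * (v 1 ^ 2 + v 2 ^ 2) ^ 2 ≤ 4 * K * f v := by
      intro v
      by_cases hyz : v 1 = 0 ∧ v 2 = 0
      · rw [hyz.1, hyz.2]
        have := hf0 v
        have : 0 ≤ 4 * K * f v := by positivity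
        linarith
      · have hr : 0 < v 1 ^ 2 + v 2 ^ 2 := by
          rcases not_and_or.1 hyz with h | h
          · have := sq_pos_of_ne_zero h; positivity
          · have := sq_pos_of_ne_zero h; positivity
        have e2 : 4 * (c3 * v 1 ^ 2 + c4 * v 1 * v 2 + c5 * v 2 ^ 2) * f v
          = (2 * (c3 * v 1 ^ 2 + c4 * v 1 * v 2 + c5 * v 2 ^ 2) * v 0
            + (c6 * v 1 ^ 3 + c7 * v 1 ^ 2 * v 2 + c8 * v 1 * v 2 ^ 2 + c9 * v 2 ^ 3)) ^ 2
            + G (v 1) (v 2) := by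
          rw [hf, hG]; ring
        have e3 := mul_le_mul_of_nonneg_right (le_K c3 c4 c5 (v 1) (v 2)) (hf0 v)
        have e4 := hGc (v 1) (v 2)
        have e5 : (v 1 ^ 2 + v 2 ^ 2) * (c * (v 1 ^ 2 + v 2 ^ 2) ^ 2)
            ≤ (v 1 ^ 2 + v 2 ^ 2) * (4 * K * f v) := by
          nlinarith [sq_nonneg (2 * (c3 * v 1 ^ 2 + c4 * v 1 * v 2 + c5 * v 2 ^ 2) * v 0
            + (c6 * v 1 ^ 3 + c7 * v 1 ^ 2 * v 2 + c8 * v 1 * v 2 ^ 2 + c9 * v 2 ^ 3))]
        exact le_of_mul_le_mul_left e5 hr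
    have hq : (fun v : V => 0 * v 0 ^ 2 + 0 * v 0 * v 1 + 0 * v 0 * v 2 + 1 * v 1 ^ 2
        + 0 * v 1 * v 2 + 0 * v 2 ^ 2) ∈ W4 f := by
      refine memW (mk2 _ _ _ _ _ _) (4 * K / c) (fun v => ?_)
      rw [div_mul_eq_mul_div, le_div_iff₀ hc]
      have h1 := b1 v
      have h2 : 0 ≤ c * (2 * v 1 ^ 2 * v 2 ^ 2 + v 2 ^ 4) := by positivity
      nlinarith
    have hr : (fun v : V => 0 * v 0 ^ 2 + 0 * v 0 * v 1 + 0 * v 0 * v 2 + 0 * v 1 ^ 2
        + 0 * v 1 * v 2 + 1 * v 2 ^ 2) ∈ W4 f := by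
      refine memW (mk2 _ _ _ _ _ _) (4 * K / c) (fun v => ?_)
      rw [div_mul_eq_mul_div, le_div_iff₀ hc]
      have h1 := b1 v
      have h2 : 0 ≤ c * (2 * v 1 ^ 2 * v 2 ^ 2 + v 1 ^ 4) := by positivity
      nlinarith
    refine Plem hfH hf0 hq hr
      (a := 1) (b := 0) (c := 0) (a' := 0) (b' := 0) (c' := 1) ?_ ?_ (by norm_num)
    · intro v hv
      simp
    · intro v hv
      simp

lemma exM {v : V} (hv : v ≠ 0) : ∃ M : Matrix (Fin 3) (Fin 3) ℝ, M.det ≠ 0 ∧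
    M.mulVec ![1, 0, 0] = v := by
  by_cases h0 : v 0 = 0
  · by_cases h1 : v 1 = 0
    · have h2 : v 2 ≠ 0 := by
        intro h2; apply hv; funext i; fin_cases i <;> simp [h0, h1, h2]
      refine ⟨!![v 0, 1, 0; v 1, 0, 1; v 2, 0, 0], by simp [Matrix.det_fin_three, h2], ?_⟩
      funext i; fin_cases i <;> simp [Matrix.mulVec, dotProduct, Fin.sum_univ_three]
    · refine ⟨!![v 0, 1, 0; v 1, 0, 0; v 2, 0, 1], by simp [Matrix.det_fin_three, h1], ?_⟩
      funext i; fin_cases i <;> simp [Matrix.mulVec, dotProduct, Fin.sum_univ_three]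
  · refine ⟨!![v 0, 0, 0; v 1, 1, 0; v 2, 0, 1], by simp [Matrix.det_fin_three, h0], ?_⟩
    funext i; fin_cases i <;> simp [Matrix.mulVec, dotProduct, Fin.sum_univ_three]

theorem classify (hfH : f ∈ H 4) (hf0 : ∀ v, 0 ≤ f v) (hne : ∃ v, f v ≠ 0) : Ok f := by
  by_cases hND : ND f
  · by_cases hz : ∃ v, v ≠ 0 ∧ f v = 0
    · obtain ⟨v, hv, hfv⟩ := hz
      obtain ⟨M, hM, hMv⟩ := exM hv
      refine Ok_of_act M hM hf0 (L1 (act_mem _ hfH) (fun v => hf0 _) (ND_act _ hM hND) ?_)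
      simp only [act]; rw [hMv, hfv]
    · push Not at hz
      obtain ⟨c, hc, hc'⟩ := cpt_pos (g := f) (contH hfH) (by
        intro v hv
        refine lt_of_le_of_ne (hf0 v) (Ne.symm (hz v ?_))
        rintro rfl
        have : N 0 = 1 := hv
        simp [N] at this)
      have hall : ∀ v : V, c * N v ^ 2 ≤ f v := by
        refine ext_sph (n := 4) (by norm_num) (fun t v => ?_) (fun t v => hom hfH t v) ?_
        · rw [N_hom]; ring
        · intro v hv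
          have hN : N v = 1 := hv
          rw [hN]; simpa using hc' v hv
      have hq : (fun v : V => 0 * v 0 ^ 2 + 0 * v 0 * v 1 + 0 * v 0 * v 2 + 1 * v 1 ^ 2
          + 0 * v 1 * v 2 + 0 * v 2 ^ 2) ∈ W4 f := by
        refine memW (mk2 _ _ _ _ _ _) (1 / c) (fun v => ?_)
        rw [div_mul_eq_mul_div, le_div_iff₀ hc]
        have h1 := hall v
        have h2 : 0 ≤ c * (v 0 ^ 4 + v 2 ^ 4 + 2 * v 0 ^ 2 * v 1 ^ 2 + 2 * v 0 ^ 2 * v 2 ^ 2
          + 2 * v 1 ^ 2 * v 2 ^ 2) := by positivity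
        unfold N at h1
        nlinarith
      have hr : (fun v : V => 0 * v 0 ^ 2 + 0 * v 0 * v 1 + 0 * v 0 * v 2 + 0 * v 1 ^ 2
          + 0 * v 1 * v 2 + 1 * v 2 ^ 2) ∈ W4 f := by
        refine memW (mk2 _ _ _ _ _ _) (1 / c) (fun v => ?_)
        rw [div_mul_eq_mul_div, le_div_iff₀ hc]
        have h1 := hall v
        have h2 : 0 ≤ c * (v 0 ^ 4 + v 1 ^ 4 + 2 * v 0 ^ 2 * v 1 ^ 2 + 2 * v 0 ^ 2 * v 2 ^ 2
          + 2 * v 1 ^ 2 * v 2 ^ 2) := by positivity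
        unfold N at h1
        nlinarith
      refine Plem hfH hf0 hq hr
        (a := 1) (b := 0) (c := 0) (a' := 0) (b' := 0) (c' := 1) ?_ ?_ (by norm_num)
      · intro v hv; simp
      · intro v hv; simp
  · exact DegGen hfH hf0 hne hND

end

end Pool.Agent.X21.Ht
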