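import Pool.Agent.X21.Ht.G6

namespace Pool.Agent.X21.Ht

noncomputable section

variable {f : V → ℝ}

instance finH (n : ℕ) : FiniteDimensional ℝ (H n) := by
  unfold H
  apply FiniteDimensional.span_of_finite
  refine Set.Finite.subset (((Set.finite_Iic n).prod ((Set.finite_Iic n).prod
    (Set.finite_Iic n))).image (fun p : ℕ × ℕ × ℕ => mono p.1 p.2.1 p.2.2)) ?_
  rintro g ⟨i, j, k, h, rfl⟩
  refine ⟨(i, j, k), ?_, rfl⟩
  simp only [Set.mem_prod, Set.mem_Iic]
  omega

lemma W4_le (f : V → ℝ) : W4 f ≤ H 2 := fun _ h => h.1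

instance finW (f : V → ℝ) : FiniteDimensional ℝ (W4 f) :=
  Submodule.finiteDimensional_of_le (W4_le f)

lemma sq_mem {q : V → ℝ} (hq : q ∈ H 2) : (fun v => q v ^ 2) ∈ H 4 := by
  have h := pow_memH hq 2
  exact h

def SOS4 (f : V → ℝ) : Prop :=
  ∃ l : List (V → ℝ), (∀ q ∈ l, q ∈ H 2) ∧ ∀ v, f v = (l.map (fun q => q v ^ 2)).sum

/-- Hilbert (1888): psd ternary quartics are sums of squares -/
theorem hilbert (hfH : f ∈ H 4) (hf0 : ∀ v, 0 ≤ f v) : SOS4 f := by
  induction hn : Module.finrank ℝ (W4 f) using Nat.strong_induction_on generalizing f with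
  | _ n ih =>
    by_cases hne : ∃ v, f v ≠ 0
    · obtain ⟨⟨q, hq, hq0⟩, _⟩ := classify hfH hf0 hne
      have hqH := hq.1
      obtain ⟨C, hC⟩ := hq.2
      have hv0 : ∃ v, q v ≠ 0 := by
        by_contra h
        push Not at h
        exact hq0 (funext h)
      obtain ⟨v0, hv0⟩ := hv0
      set S : Set ℝ := Set.Icc 0 (f v0 / q v0 ^ 2) ∩ ⋂ v, {c : ℝ | c * q v ^ 2 ≤ f v} with hS
      have hScl : IsCompact S := by
        refine isCompact_Icc.inter_right (isClosed_iInter fun v => ?_)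
        exact isClosed_le (by fun_prop) continuous_const
      have hv02 : 0 < q v0 ^ 2 := by positivity
      have hmemS : ∀ c : ℝ, 0 ≤ c → (∀ v, c * q v ^ 2 ≤ f v) → c ∈ S := by
        intro c hc h
        refine ⟨⟨hc, ?_⟩, ?_⟩
        · rw [le_div_iff₀ hv02]; exact h v0
        · rw [Set.mem_iInter]; exact h
      have hS0 : S.Nonempty := ⟨0, hmemS 0 le_rfl (fun v => by simpa using hf0 v)⟩
      obtain ⟨c, hcS, hcmax⟩ := hScl.exists_isGreatest hS0
      have hc0 : 0 ≤ c := hcS.1.1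
      have hc : ∀ v, c * q v ^ 2 ≤ f v := by
        have := hcS.2
        rw [Set.mem_iInter] at this
        exact this
      obtain ⟨g, hg⟩ : ∃ g : V → ℝ, g = f - c • (fun v => q v ^ 2) := ⟨_, rfl⟩
      have hge : ∀ v, g v = f v - c * q v ^ 2 := by intro v; rw [hg]; simp
      have hgH : g ∈ H 4 := by
        rw [hg]; exact Submodule.sub_mem _ hfH (Submodule.smul_mem _ _ (sq_mem hqH))
      have hg0 : ∀ v, 0 ≤ g v := fun v => by rw [hge]; linarith [hc v]
      have hle : W4 g ≤ W4 f := by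
        rintro r ⟨hr, D, hD⟩
        refine ⟨hr, |D|, fun v => ?_⟩
        have h1 := hD v
        have h2 := mul_le_mul_of_nonneg_right (le_abs_self D) (hg0 v)
        have h3 : |D| * g v ≤ |D| * f v := by
          apply mul_le_mul_of_nonneg_left _ (abs_nonneg D)
          rw [hge]
          have : 0 ≤ c * q v ^ 2 := by positivity
          linarith
        linarith
      have hlt : W4 g < W4 f := by
        refine lt_of_le_of_ne hle (fun heq => ?_)
        have hqg : q ∈ W4 g := by rw [heq]; exact hq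
        obtain ⟨D, hD⟩ := hqg.2
        have hDpos : 0 < D := by
          by_contra hcon
          push Not at hcon
          have h1 := hD v0
          have h2 : D * g v0 ≤ 0 := mul_nonpos_of_nonpos_of_nonneg hcon (hg0 v0)
          linarith
        have h1 : (1 / D + c) ∈ S := by
          refine hmemS _ (by positivity) (fun v => ?_)
          have h2 := hD v
          rw [hge] at h2
          have h3 : (1 / D) * q v ^ 2 ≤ f v - c * q v ^ 2 := by
            rw [div_mul_eq_mul_div, div_le_iff₀ hDpos]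
            linarith
          linarith
        have h4 := hcmax h1
        have : 0 < 1 / D := by positivity
        linarith
      have hfr := Submodule.finrank_lt_finrank_of_lt hlt
      rw [hn] at hfr
      obtain ⟨l, hl1, hl2⟩ := ih _ hfr hgH hg0 rfl
      refine ⟨(Real.sqrt c • q) :: l, ?_, fun v => ?_⟩
      · intro r hr
        rcases List.mem_cons.1 hr with h | h
        · rw [h]; exact Submodule.smul_mem _ _ hqH
        · exact hl1 r h
      · rw [List.map_cons, List.sum_cons, ← hl2, hge]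
        simp only [Pi.smul_apply, smul_eq_mul, mul_pow, Real.sq_sqrt hc0]
        ring
    · push Not at hne
      exact ⟨[], by simp, fun v => by simp [hne v]⟩

/-- simultaneous decomposition of `f` and of a cubic form -/
theorem pairs {p : V → ℝ} (hfH : f ∈ H 4) (hf0 : ∀ v, 0 ≤ f v) (hdec : Dec f p) :
    ∃ L : List ((V → ℝ) × (V → ℝ)), (∀ x ∈ L, x.1 ∈ H 2 ∧ x.2 ∈ H 1) ∧
      (∀ v, f v = (L.map (fun x => x.1 v ^ 2)).sum) ∧
      (∀ v, p v = (L.map (fun x => x.1 v * x.2 v)).sum) := by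
  obtain ⟨q, m, hqm, hp⟩ := hdec
  have h0 := (hqm 0).1.2
  have h1 := (hqm 1).1.2
  have h2 := (hqm 2).1.2
  obtain ⟨C0, hC0⟩ := h0
  obtain ⟨C1, hC1⟩ := h1
  obtain ⟨C2, hC2⟩ := h2
  set C := |C0| + |C1| + |C2| + 1 with hC
  have hCp : 0 < C := by positivity
  have hbd : ∀ v, q 0 v ^ 2 + q 1 v ^ 2 + q 2 v ^ 2 ≤ C * f v := by
    intro v
    have e0 := mul_le_mul_of_nonneg_right (le_abs_self C0) (hf0 v)
    have e1 := mul_le_mul_of_nonneg_right (le_abs_self C1) (hf0 v)
    have e2 := mul_le_mul_of_nonneg_right (le_abs_self C2) (hf0 v)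
    have := hC0 v; have := hC1 v; have := hC2 v; have := hf0 v
    rw [hC]; nlinarith
  obtain ⟨g, hg⟩ : ∃ g : V → ℝ, g = f - (1 / C) • ((fun v => q 0 v ^ 2) + (fun v => q 1 v ^ 2)
    + (fun v => q 2 v ^ 2)) := ⟨_, rfl⟩
  have hge : ∀ v, g v = f v - (1 / C) * (q 0 v ^ 2 + q 1 v ^ 2 + q 2 v ^ 2) := by
    intro v; rw [hg]; simp; try ring
  have hgH : g ∈ H 4 := by
    rw [hg]
    refine Submodule.sub_mem _ hfH (Submodule.smul_mem _ _ ?_)
    exact Submodule.add_mem _ (Submodule.add_mem _ (sq_mem (hqm 0).1.1) (sq_mem (hqm 1).1.1))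
      (sq_mem (hqm 2).1.1)
  have hg0 : ∀ v, 0 ≤ g v := by
    intro v
    rw [hge, sub_nonneg, div_mul_eq_mul_div, div_le_iff₀ hCp]
    linarith [hbd v]
  obtain ⟨l, hl1, hl2⟩ := hilbert hgH hg0
  set s := Real.sqrt (1 / C) with hs
  have hs2 : s ^ 2 = 1 / C := Real.sq_sqrt (by positivity)
  have hs0 : s ≠ 0 := (Real.sqrt_pos.2 (by positivity)).ne'
  refine ⟨(s • q 0, s⁻¹ • m 0) :: (s • q 1, s⁻¹ • m 1) :: (s • q 2, s⁻¹ • m 2)
    :: l.map (fun q => (q, 0)), ?_, fun v => ?_, fun v => ?_⟩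
  · intro x hx
    simp only [List.mem_cons, List.mem_map] at hx
    rcases hx with h | h | h | ⟨r, hr, h⟩
    · rw [h]; exact ⟨Submodule.smul_mem _ _ (hqm 0).1.1, Submodule.smul_mem _ _ (hqm 0).2⟩
    · rw [h]; exact ⟨Submodule.smul_mem _ _ (hqm 1).1.1, Submodule.smul_mem _ _ (hqm 1).2⟩
    · rw [h]; exact ⟨Submodule.smul_mem _ _ (hqm 2).1.1, Submodule.smul_mem _ _ (hqm 2).2⟩
    · rw [← h]; exact ⟨hl1 r hr, Submodule.zero_mem _⟩
  · have e := hl2 v
    rw [hge] at e
    simp only [List.map_cons, List.sum_cons, List.map_map, Pi.smul_apply, smul_eq_mul, mul_pow,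
      hs2]
    have : ((fun x : (V → ℝ) × (V → ℝ) => x.1 v ^ 2) ∘ fun q : V → ℝ => (q, (0 : V → ℝ)))
        = fun q : V → ℝ => q v ^ 2 := by funext q; rfl
    rw [this, ← e]
    ring
  · simp only [List.map_cons, List.sum_cons, List.map_map, Pi.smul_apply, smul_eq_mul]
    have : ((fun x : (V → ℝ) × (V → ℝ) => x.1 v * x.2 v) ∘ fun q : V → ℝ => (q, (0 : V → ℝ)))
        = fun q : V → ℝ => 0 := by funext q; simp
    rw [this, hp, Fin.sum_univ_three]
    simp
    field_simp
    ring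

end

end Pool.Agent.X21.Ht
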