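import Pool.Agent.X21.Ht.G7

namespace Pool.Agent.X21.Ht

noncomputable section

open MvPolynomial

abbrev P := MvPolynomial (Fin 3) ℝ

def SOSf (g : V → ℝ) : Prop :=
  ∃ l : List P, ∀ v, g v = (l.map (fun p => (eval v p) ^ 2)).sum

lemma mk4 (c0 c1 c2 c3 c4 c5 c6 c7 c8 c9 c10 c11 c12 c13 c14 : ℝ) :
    (fun v : V => c0 * v 0 ^ 4 + c1 * v 0 ^ 3 * v 1 + c2 * v 0 ^ 3 * v 2 + c3 * v 0 ^ 2 * v 1 ^ 2
    + c4 * v 0 ^ 2 * v 1 * v 2 + c5 * v 0 ^ 2 * v 2 ^ 2 + c6 * v 0 * v 1 ^ 3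
    + c7 * v 0 * v 1 ^ 2 * v 2 + c8 * v 0 * v 1 * v 2 ^ 2 + c9 * v 0 * v 2 ^ 3
    + c10 * v 1 ^ 4 + c11 * v 1 ^ 3 * v 2 + c12 * v 1 ^ 2 * v 2 ^ 2 + c13 * v 1 * v 2 ^ 3
    + c14 * v 2 ^ 4) ∈ H 4 := by
  have : (fun v : V => c0 * v 0 ^ 4 + c1 * v 0 ^ 3 * v 1 + c2 * v 0 ^ 3 * v 2
    + c3 * v 0 ^ 2 * v 1 ^ 2
    + c4 * v 0 ^ 2 * v 1 * v 2 + c5 * v 0 ^ 2 * v 2 ^ 2 + c6 * v 0 * v 1 ^ 3
    + c7 * v 0 * v 1 ^ 2 * v 2 + c8 * v 0 * v 1 * v 2 ^ 2 + c9 * v 0 * v 2 ^ 3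
    + c10 * v 1 ^ 4 + c11 * v 1 ^ 3 * v 2 + c12 * v 1 ^ 2 * v 2 ^ 2 + c13 * v 1 * v 2 ^ 3
    + c14 * v 2 ^ 4)
      = c0 • mono 4 0 0 + c1 • mono 3 1 0 + c2 • mono 3 0 1 + c3 • mono 2 2 0 + c4 • mono 2 1 1
        + c5 • mono 2 0 2 + c6 • mono 1 3 0 + c7 • mono 1 2 1 + c8 • mono 1 1 2 + c9 • mono 1 0 3
        + c10 • mono 0 4 0 + c11 • mono 0 3 1 + c12 • mono 0 2 2 + c13 • mono 0 1 3
        + c14 • mono 0 0 4 := by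
    funext v; simp [mono]; ring
  rw [this]
  have hm : ∀ (c : ℝ) (i j k : ℕ), i + j + k = 4 → c • mono i j k ∈ H 4 := fun c i j k h =>
    Submodule.smul_mem _ _ (mono_mem _ _ _ _ h)
  refine Submodule.add_mem _ (Submodule.add_mem _ (Submodule.add_mem _ (Submodule.add_mem _
    (Submodule.add_mem _ (Submodule.add_mem _ (Submodule.add_mem _ (Submodule.add_mem _
    (Submodule.add_mem _ (Submodule.add_mem _ (Submodule.add_mem _ (Submodule.add_mem _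
    (Submodule.add_mem _ (Submodule.add_mem _ ?_ ?_) ?_) ?_) ?_) ?_) ?_) ?_) ?_) ?_) ?_) ?_) ?_)
    ?_) ?_ <;> exact hm _ _ _ _ (by norm_num)

lemma deq {q : V → ℝ} (hq : q ∈ H 2) : ∃ p : P, ∀ v, eval v p = q ![1, v 1, v 2] := by
  obtain ⟨a, b, c, d, e, g, h⟩ := ex2 hq
  refine ⟨C a + C b * X 1 + C c * X 2 + C d * X 1 ^ 2 + C e * X 1 * X 2 + C g * X 2 ^ 2,
    fun v => ?_⟩
  rw [h]; simp

lemma deqL (l : List (V → ℝ)) (h : ∀ q ∈ l, q ∈ H 2) : ∃ l' : List P, ∀ v : V,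
    (l.map (fun q => q ![1, v 1, v 2] ^ 2)).sum = (l'.map (fun p => (eval v p) ^ 2)).sum := by
  induction l with
  | nil => exact ⟨[], fun v => by simp⟩
  | cons q l ih =>
    obtain ⟨l', hl'⟩ := ih (fun r hr => h r (List.mem_cons_of_mem _ hr))
    obtain ⟨p, hp⟩ := deq (h q List.mem_cons_self)
    exact ⟨p :: l', fun v => by simp only [List.map_cons, List.sum_cons]; rw [hl', hp]⟩

/-- nonnegative polynomials `b x² + h(y,z) x + r(y,z)`, `deg h ≤ 2`, `deg r ≤ 4` are sums of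
squares -/
theorem lemS {b : ℝ} {a3 a4 a5 b1 b2 l0 c10 c11 c12 c13 c14 a6 a7 a8 a9 b3 b4 b5 l1 l2 k : ℝ}
    {F : V → ℝ} (hF0 : ∀ v, 0 ≤ F v) (hF : ∀ v, F v = b * v 0 ^ 2
      + (a3 * v 1 ^ 2 + a4 * v 1 * v 2 + a5 * v 2 ^ 2 + b1 * v 1 + b2 * v 2 + l0) * v 0
      + (c10 * v 1 ^ 4 + c11 * v 1 ^ 3 * v 2 + c12 * v 1 ^ 2 * v 2 ^ 2 + c13 * v 1 * v 2 ^ 3
        + c14 * v 2 ^ 4 + a6 * v 1 ^ 3 + a7 * v 1 ^ 2 * v 2 + a8 * v 1 * v 2 ^ 2 + a9 * v 2 ^ 3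
        + b3 * v 1 ^ 2 + b4 * v 1 * v 2 + b5 * v 2 ^ 2 + l1 * v 1 + l2 * v 2 + k)) : SOSf F := by
  set h : ℝ → ℝ → ℝ := fun y z => a3 * y ^ 2 + a4 * y * z + a5 * z ^ 2 + b1 * y + b2 * z + l0
    with hh
  set r : ℝ → ℝ → ℝ := fun y z => c10 * y ^ 4 + c11 * y ^ 3 * z + c12 * y ^ 2 * z ^ 2
        + c13 * y * z ^ 3
        + c14 * z ^ 4 + a6 * y ^ 3 + a7 * y ^ 2 * z + a8 * y * z ^ 2 + a9 * z ^ 3
        + b3 * y ^ 2 + b4 * y * z + b5 * z ^ 2 + l1 * y + l2 * z + k with hr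
  have hFv : ∀ v, F v = b * v 0 ^ 2 + h (v 1) (v 2) * v 0 + r (v 1) (v 2) := by
    intro v; rw [hF]
  have hq : ∀ y z : ℝ, 0 ≤ b ∧ 0 ≤ r y z ∧ h y z ^ 2 ≤ 4 * b * r y z := by
    intro y z
    apply quad
    intro x
    have := hF0 ![x, y, z]
    rw [hFv] at this
    simpa using this
  have hb : 0 ≤ b := (hq 0 0).1
  have hg0 : ∀ y z : ℝ, 0 ≤ r y z - (1 / (4 * b)) * h y z ^ 2 := by
    intro y z
    obtain ⟨_, h2, h3⟩ := hq y z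
    rcases hb.lt_or_eq with h4 | h4
    · rw [sub_nonneg, div_mul_eq_mul_div, div_le_iff₀ (by positivity)]
      linarith
    · rw [← h4]; simpa using h2
  obtain ⟨G, hG⟩ : ∃ G : V → ℝ, G = (fun v : V => k * v 0 ^ 4 + l1 * v 0 ^ 3 * v 1
    + l2 * v 0 ^ 3 * v 2 + b3 * v 0 ^ 2 * v 1 ^ 2
    + b4 * v 0 ^ 2 * v 1 * v 2 + b5 * v 0 ^ 2 * v 2 ^ 2 + a6 * v 0 * v 1 ^ 3
    + a7 * v 0 * v 1 ^ 2 * v 2 + a8 * v 0 * v 1 * v 2 ^ 2 + a9 * v 0 * v 2 ^ 3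
    + c10 * v 1 ^ 4 + c11 * v 1 ^ 3 * v 2 + c12 * v 1 ^ 2 * v 2 ^ 2 + c13 * v 1 * v 2 ^ 3
    + c14 * v 2 ^ 4) - (1 / (4 * b)) • (fun v : V => (l0 * v 0 ^ 2 + b1 * v 0 * v 1
    + b2 * v 0 * v 2 + a3 * v 1 ^ 2 + a4 * v 1 * v 2 + a5 * v 2 ^ 2) ^ 2) := ⟨_, rfl⟩
  have hGH : G ∈ H 4 := by
    rw [hG]
    exact Submodule.sub_mem _ (mk4 _ _ _ _ _ _ _ _ _ _ _ _ _ _ _)
      (Submodule.smul_mem _ _ (sq_mem (mk2 _ _ _ _ _ _)))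
  have hG1 : ∀ v : V, v 0 ≠ 0 → 0 ≤ G v := by
    intro v hv
    have h1 := hg0 (v 1 / v 0) (v 2 / v 0)
    have h2 : G v = v 0 ^ 4 * (r (v 1 / v 0) (v 2 / v 0)
        - (1 / (4 * b)) * h (v 1 / v 0) (v 2 / v 0) ^ 2) := by
      rw [hG, hr, hh]
      simp only [Pi.sub_apply, Pi.smul_apply, smul_eq_mul]
      rw [mul_sub]
      congr 1
      · field_simp
        ring
      · have e : v 0 ^ 4 * (1 / (4 * b) * (a3 * (v 1 / v 0) ^ 2 + a4 * (v 1 / v 0) * (v 2 / v 0)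
            + a5 * (v 2 / v 0) ^ 2 + b1 * (v 1 / v 0) + b2 * (v 2 / v 0) + l0) ^ 2)
            = 1 / (4 * b) * (v 0 ^ 2 * (a3 * (v 1 / v 0) ^ 2 + a4 * (v 1 / v 0) * (v 2 / v 0)
            + a5 * (v 2 / v 0) ^ 2 + b1 * (v 1 / v 0) + b2 * (v 2 / v 0) + l0)) ^ 2 := by ring
        rw [e]
        congr 2
        field_simp
        ring
    rw [h2]
    positivity
  have hGall : ∀ v : V, 0 ≤ G v := by
    intro v
    by_cases hv : v 0 = 0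
    · have h1 := cont0 (g := fun t => G ![t, v 1, v 2]) (by
        have := contH hGH
        refine this.comp ?_
        refine continuous_pi fun i => ?_
        fin_cases i <;> simp <;> fun_prop) (fun t ht => hG1 _ (by simpa using ht))
      have h2 : (![0, v 1, v 2] : V) = v := by
        funext i; fin_cases i <;> simp [hv]
      have h3 : 0 ≤ G ![0, v 1, v 2] := h1
      rw [h2] at h3
      exact h3
    · exact hG1 v hv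
  obtain ⟨l, hl1, hl2⟩ := hilbert hGH hGall
  obtain ⟨l', hl'⟩ := deqL l hl1
  refine ⟨(C (Real.sqrt b) * (X 0 + C (1 / (2 * b)) * (C a3 * X 1 ^ 2 + C a4 * X 1 * X 2
    + C a5 * X 2 ^ 2 + C b1 * X 1 + C b2 * X 2 + C l0))) :: l', fun v => ?_⟩
  rw [List.map_cons, List.sum_cons, ← hl', ← hl2]
  have e1 : G ![1, v 1, v 2] = r (v 1) (v 2) - (1 / (4 * b)) * h (v 1) (v 2) ^ 2 := by
    rw [hG, hr, hh]; simp; ring
  have e2 : eval v (C (Real.sqrt b) * (X 0 + C (1 / (2 * b)) * (C a3 * X 1 ^ 2 + C a4 * X 1 * X 2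
    + C a5 * X 2 ^ 2 + C b1 * X 1 + C b2 * X 2 + C l0))) ^ 2
    = b * (v 0 + 1 / (2 * b) * h (v 1) (v 2)) ^ 2 := by
    simp only [map_mul, map_add, map_pow, eval_C, eval_X, mul_pow, Real.sq_sqrt hb, hh]
  rw [e1, e2, hFv]
  obtain ⟨_, _, h3⟩ := hq (v 1) (v 2)
  rcases hb.lt_or_eq with h4 | h4
  · field_simp
    ring
  · rw [← h4] at h3 ⊢
    have h5 : h (v 1) (v 2) = 0 := by nlinarith [sq_nonneg (h (v 1) (v 2))]
    rw [h5]; simp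

lemma eval_bind (h : Fin 3 → P) (p : P) (v : V) :
    eval v (bind₁ h p) = eval (fun i => eval v (h i)) p := by
  have := eval₂Hom_bind₁ (RingHom.id ℝ) v h p
  exact this

theorem SOSf_of_act (M : Matrix (Fin 3) (Fin 3) ℝ) (hM : M.det ≠ 0) {g : V → ℝ}
    (h : SOSf (act M g)) : SOSf g := by
  obtain ⟨l, hl⟩ := h
  refine ⟨l.map (fun p => bind₁ (fun i => ∑ j, C (M⁻¹ i j) * X j) p), fun v => ?_⟩
  have h1 := hl (M⁻¹.mulVec v)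
  simp only [act] at h1
  rw [Matrix.mulVec_mulVec, Matrix.mul_nonsing_inv _ (Ne.isUnit hM), Matrix.one_mulVec] at h1
  rw [h1, List.map_map]
  congr 1
  apply List.map_congr_left
  intro p _
  simp only [Function.comp]
  rw [eval_bind]
  congr 2
  congr 1
  funext i
  simp [Matrix.mulVec, dotProduct]

end

end Pool.Agent.X21.Ht
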