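import Pool.Agent.X21.Ht.G8

namespace Pool.Agent.X21.Ht

noncomputable section

open MvPolynomial

/-- the Laplacian -/
def lap (p : P) : P := ∑ i, pderiv i (pderiv i p)

lemma lap_add (p q : P) : lap (p + q) = lap p + lap q := by
  simp [lap, Finset.sum_add_distrib]

lemma lap_C (a : ℝ) : lap (C a) = 0 := by simp [lap]

lemma lap_zero : lap 0 = 0 := by simp [lap]

lemma lap_mul (p q : P) :
    lap (p * q) = lap p * q + p * lap q + 2 * ∑ i, pderiv i p * pderiv i q := by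
  simp only [lap, Fin.sum_univ_three, Derivation.leibniz, smul_eq_mul, map_add]
  ring

lemma lap_Cmul (a : ℝ) (p : P) : lap (C a * p) = C a * lap p := by
  rw [lap_mul, lap_C]
  simp

def Ht (t : ℝ) (p : P) : P := p + C t * lap p + C (t ^ 2 / 2) * lap (lap p)

lemma Ht_add (t : ℝ) (p q : P) : Ht t (p + q) = Ht t p + Ht t q := by
  simp only [Ht, lap_add]; ring

lemma C2 : (C 2 : P) = 2 := map_ofNat (C : ℝ →+* P) 2

lemma C4 : (C 4 : P) = 4 := map_ofNat (C : ℝ →+* P) 4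

lemma pd2 (i : Fin 3) : pderiv i (2 : P) = 0 := by rw [← C2, pderiv_C]

/-- one pair -/
lemma pairP {q m : V → ℝ} (hq : q ∈ H 2) (hm : m ∈ H 1) :
    ∃ (S : P) (A B α : V → ℝ) (γ : ℝ), A ∈ H 2 ∧ B ∈ H 2 ∧ α ∈ H 1 ∧ 0 ≤ γ ∧ (∀ v, 0 ≤ A v) ∧
      (∀ v, A v = 0 → ∀ w (s : ℝ), q (w + s • v) = q w) ∧ (γ = 0 → ∀ v, A v = 0) ∧
      (∀ v, eval v S = q v ^ 2 + q v * m v) ∧ lap (lap (lap S)) = 0 ∧
      ∀ t : ℝ, ∃ p : P, ∀ v, eval v (Ht t S) = (eval v p) ^ 2 + t * A v - B v + t * α v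
        + t ^ 2 * γ := by
  obtain ⟨a, b, c, d, e, g, hqe⟩ := ex2 hq
  obtain ⟨l0, l1, l2, hme⟩ := ex1 hm
  obtain ⟨Q, hQ⟩ : ∃ Q : P, Q = C a * X 0 ^ 2 + C b * X 0 * X 1 + C c * X 0 * X 2
    + C d * X 1 ^ 2 + C e * X 1 * X 2 + C g * X 2 ^ 2 := ⟨_, rfl⟩
  obtain ⟨M, hM⟩ : ∃ M : P, M = C l0 * X 0 + C l1 * X 1 + C l2 * X 2 := ⟨_, rfl⟩
  have hQv : ∀ v, eval v Q = q v := by intro v; rw [hQ, hqe]; simp
  have hMv : ∀ v, eval v M = m v := by intro v; rw [hM, hme]; simp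
  have Q0 : pderiv 0 Q = C (2 * a) * X 0 + C b * X 1 + C c * X 2 := by
    rw [hQ]; simp [Derivation.leibniz, Derivation.leibniz_pow, pderiv_X, C2]; try ring
  have Q1 : pderiv 1 Q = C b * X 0 + C (2 * d) * X 1 + C e * X 2 := by
    rw [hQ]; simp [Derivation.leibniz, Derivation.leibniz_pow, pderiv_X, C2]; try ring
  have Q2 : pderiv 2 Q = C c * X 0 + C e * X 1 + C (2 * g) * X 2 := by
    rw [hQ]; simp [Derivation.leibniz, Derivation.leibniz_pow, pderiv_X, C2]; try ring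
  have M0 : pderiv 0 M = C l0 := by
    rw [hM]; simp [Derivation.leibniz, pderiv_X]
  have M1 : pderiv 1 M = C l1 := by
    rw [hM]; simp [Derivation.leibniz, pderiv_X]
  have M2 : pderiv 2 M = C l2 := by
    rw [hM]; simp [Derivation.leibniz, pderiv_X]
  have lQ : lap Q = C (2 * a + 2 * d + 2 * g) := by
    simp only [lap, Fin.sum_univ_three, Q0, Q1, Q2]
    simp [Derivation.leibniz, pderiv_X, C2, pd2]
  have lM : lap M = 0 := by
    simp only [lap, Fin.sum_univ_three, M0, M1, M2]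
    simp
  -- gradient forms
  obtain ⟨G0, hG0⟩ : ∃ G : P, G = C (2 * a) * X 0 + C b * X 1 + C c * X 2 := ⟨_, rfl⟩
  obtain ⟨G1, hG1⟩ : ∃ G : P, G = C b * X 0 + C (2 * d) * X 1 + C e * X 2 := ⟨_, rfl⟩
  obtain ⟨G2, hG2⟩ : ∃ G : P, G = C c * X 0 + C e * X 1 + C (2 * g) * X 2 := ⟨_, rfl⟩
  rw [← hG0] at Q0
  rw [← hG1] at Q1
  rw [← hG2] at Q2
  have lG0 : lap G0 = 0 := by
    rw [hG0]; simp only [lap, Fin.sum_univ_three, map_add, Derivation.leibniz, pderiv_X, pderiv_C]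
    simp
  have lG1 : lap G1 = 0 := by
    rw [hG1]; simp only [lap, Fin.sum_univ_three, map_add, Derivation.leibniz, pderiv_X, pderiv_C]
    simp
  have lG2 : lap G2 = 0 := by
    rw [hG2]; simp only [lap, Fin.sum_univ_three, map_add, Derivation.leibniz, pderiv_X, pderiv_C]
    simp
  have lGG0 : lap (G0 * G0) = C (2 * (4 * a ^ 2 + b ^ 2 + c ^ 2)) := by
    rw [lap_mul, lG0, hG0]
    simp only [Fin.sum_univ_three, map_add, Derivation.leibniz, pderiv_X, pderiv_C]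
    simp [C2, C4]; ring
  have lGG1 : lap (G1 * G1) = C (2 * (b ^ 2 + 4 * d ^ 2 + e ^ 2)) := by
    rw [lap_mul, lG1, hG1]
    simp only [Fin.sum_univ_three, map_add, Derivation.leibniz, pderiv_X, pderiv_C]
    simp [C2, C4]; ring
  have lGG2 : lap (G2 * G2) = C (2 * (c ^ 2 + e ^ 2 + 4 * g ^ 2)) := by
    rw [lap_mul, lG2, hG2]
    simp only [Fin.sum_univ_three, map_add, Derivation.leibniz, pderiv_X, pderiv_C]
    simp [C2, C4]; ring
  set δ := 2 * a + 2 * d + 2 * g with hδ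
  set κ := 2 * (4 * a ^ 2 + b ^ 2 + c ^ 2) + 2 * (b ^ 2 + 4 * d ^ 2 + e ^ 2)
    + 2 * (c ^ 2 + e ^ 2 + 4 * g ^ 2) with hκ
  have L1 : lap (Q * Q + Q * M) = C (2 * δ) * Q + C 2 * (G0 * G0 + G1 * G1 + G2 * G2)
      + C δ * M + C 2 * (C l0 * G0 + C l1 * G1 + C l2 * G2) := by
    rw [lap_add, lap_mul, lap_mul, lQ, lM]
    simp only [Fin.sum_univ_three, Q0, Q1, Q2, M0, M1, M2]
    simp only [C_mul, C2]
    ring
  have L2 : lap (lap (Q * Q + Q * M)) = C (2 * δ ^ 2 + 2 * κ) := by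
    rw [L1]
    simp only [lap_add, lap_Cmul, lQ, lM, lG0, lG1, lG2, lGG0, lGG1, lGG2]
    simp only [hκ, ← C_mul, ← C_add, mul_zero, add_zero]
    congr 1
    ring
  have hg0 : ∀ v, eval v G0 = 2 * a * v 0 + b * v 1 + c * v 2 := by intro v; rw [hG0]; simp
  have hg1 : ∀ v, eval v G1 = b * v 0 + 2 * d * v 1 + e * v 2 := by intro v; rw [hG1]; simp
  have hg2 : ∀ v, eval v G2 = c * v 0 + e * v 1 + 2 * g * v 2 := by intro v; rw [hG2]; simp
  have hlin0 := mk1 (2 * a) b c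
  have hlin1 := mk1 b (2 * d) e
  have hlin2 := mk1 c e (2 * g)
  have hsq : ∀ {u : V → ℝ}, u ∈ H 1 → (fun v => u v ^ 2) ∈ H 2 := by
    intro u hu
    have h := pow_memH hu 2
    exact h
  refine ⟨Q * Q + Q * M,
    (2 : ℝ) • ((fun v : V => (2 * a * v 0 + b * v 1 + c * v 2) ^ 2)
      + (fun v : V => (b * v 0 + 2 * d * v 1 + e * v 2) ^ 2)
      + (fun v : V => (c * v 0 + e * v 1 + 2 * g * v 2) ^ 2)),
    (1 / 4 : ℝ) • (fun v => m v ^ 2),
    (2 : ℝ) • (l0 • (fun v : V => (2 * a * v 0 + b * v 1 + c * v 2))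
      + l1 • (fun v : V => (b * v 0 + 2 * d * v 1 + e * v 2))
      + l2 • (fun v : V => (c * v 0 + e * v 1 + 2 * g * v 2))),
    κ, ?_, ?_, ?_, ?_, ?_, ?_, ?_, ?_, ?_, ?_⟩
  · exact Submodule.smul_mem _ _ (Submodule.add_mem _ (Submodule.add_mem _ (hsq hlin0)
      (hsq hlin1)) (hsq hlin2))
  · exact Submodule.smul_mem _ _ (hsq hm)
  · exact Submodule.smul_mem _ _ (Submodule.add_mem _ (Submodule.add_mem _
      (Submodule.smul_mem _ _ hlin0) (Submodule.smul_mem _ _ hlin1))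
      (Submodule.smul_mem _ _ hlin2))
  · rw [hκ]; positivity
  · intro v
    simp only [Pi.smul_apply, Pi.add_apply, smul_eq_mul]
    positivity
  · intro v hv w s
    simp only [Pi.smul_apply, Pi.add_apply, smul_eq_mul] at hv
    have t0 := sq_nonneg (2 * a * v 0 + b * v 1 + c * v 2)
    have t1 := sq_nonneg (b * v 0 + 2 * d * v 1 + e * v 2)
    have t2 := sq_nonneg (c * v 0 + e * v 1 + 2 * g * v 2)
    have u0 : 2 * a * v 0 + b * v 1 + c * v 2 = 0 :=
      pow_eq_zero_iff (two_ne_zero) |>.1 (by linarith)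
    have u1 : b * v 0 + 2 * d * v 1 + e * v 2 = 0 :=
      pow_eq_zero_iff (two_ne_zero) |>.1 (by linarith)
    have u2 : c * v 0 + e * v 1 + 2 * g * v 2 = 0 :=
      pow_eq_zero_iff (two_ne_zero) |>.1 (by linarith)
    rw [hqe, hqe]
    simp only [Pi.smul_apply, Pi.add_apply, smul_eq_mul]
    linear_combination (s * w 0 + s ^ 2 / 2 * v 0) * u0 + (s * w 1 + s ^ 2 / 2 * v 1) * u1
      + (s * w 2 + s ^ 2 / 2 * v 2) * u2
  · intro h0 v
    have sa := sq_nonneg a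
    have sb := sq_nonneg b
    have sc := sq_nonneg c
    have sd := sq_nonneg d
    have se := sq_nonneg e
    have sg := sq_nonneg g
    have za : a = 0 := pow_eq_zero_iff (two_ne_zero) |>.1 (by linarith)
    have zb : b = 0 := pow_eq_zero_iff (two_ne_zero) |>.1 (by linarith)
    have zc : c = 0 := pow_eq_zero_iff (two_ne_zero) |>.1 (by linarith)
    have zd : d = 0 := pow_eq_zero_iff (two_ne_zero) |>.1 (by linarith)
    have ze : e = 0 := pow_eq_zero_iff (two_ne_zero) |>.1 (by linarith)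
    have zg : g = 0 := pow_eq_zero_iff (two_ne_zero) |>.1 (by linarith)
    simp [za, zb, zc, zd, ze, zg]
  · intro v
    simp only [map_add, map_mul, hQv, hMv]; ring
  · rw [L2, lap_C]
  · intro t
    refine ⟨Q + C (t * δ) + C (1 / 2) * M, fun v => ?_⟩
    simp only [Ht, L2]
    rw [L1]
    simp only [map_add, map_mul, hQv, hMv, eval_C, hg0, hg1, hg2, Pi.smul_apply, Pi.add_apply,
      smul_eq_mul]
    ring

lemma listP (L : List ((V → ℝ) × (V → ℝ))) (hL : ∀ x ∈ L, x.1 ∈ H 2 ∧ x.2 ∈ H 1) :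
    ∃ (S : P) (A B α : V → ℝ) (γ : ℝ), A ∈ H 2 ∧ B ∈ H 2 ∧ α ∈ H 1 ∧ 0 ≤ γ ∧ (∀ v, 0 ≤ A v) ∧
      (∀ v, A v = 0 → ∀ x ∈ L, ∀ w (s : ℝ), x.1 (w + s • v) = x.1 w) ∧ (γ = 0 → ∀ v, A v = 0) ∧
      (∀ v, eval v S = (L.map (fun x => x.1 v ^ 2)).sum + (L.map (fun x => x.1 v * x.2 v)).sum) ∧
      lap (lap (lap S)) = 0 ∧
      ∀ t : ℝ, ∃ l : List P, ∀ v, eval v (Ht t S) = (l.map (fun p => (eval v p) ^ 2)).sum
        + t * A v - B v + t * α v + t ^ 2 * γ := by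
  induction L with
  | nil =>
    refine ⟨0, 0, 0, 0, 0, zero_mem _, zero_mem _, zero_mem _, le_rfl, fun v => by simp,
      by simp, by simp, by simp, by simp [lap_zero], fun t => ⟨[], fun v => by
        simp [Ht, lap_zero]⟩⟩
  | cons x L ih =>
    obtain ⟨S, A, B, α, γ, hA, hB, hα, hγ, hA0, hAx, hγA, hS, hS3, hHt⟩ :=
      ih (fun y hy => hL y (List.mem_cons_of_mem _ hy))
    obtain ⟨hx1, hx2⟩ := hL x List.mem_cons_self
    obtain ⟨S', A', B', α', γ', hA', hB', hα', hγ', hA0', hAx', hγA', hS', hS3', hHt'⟩ :=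
      pairP hx1 hx2
    refine ⟨S' + S, A' + A, B' + B, α' + α, γ' + γ, Submodule.add_mem _ hA' hA,
      Submodule.add_mem _ hB' hB, Submodule.add_mem _ hα' hα, by positivity,
      fun v => add_nonneg (hA0' v) (hA0 v), ?_, ?_, ?_, ?_, ?_⟩
    · intro v hv y hy
      have h1 := hA0' v
      have h2 := hA0 v
      have hv' : A' v + A v = 0 := hv
      rcases List.mem_cons.1 hy with h | h
      · rw [h]; exact hAx' v (by linarith)
      · exact hAx v (by linarith) y h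
    · intro h0 v
      have e1 : γ' = 0 := by linarith
      have e2 : γ = 0 := by linarith
      show A' v + A v = 0
      rw [hγA' e1, hγA e2]; ring
    · intro v
      simp only [List.map_cons, List.sum_cons, map_add, hS, hS']
      ring
    · simp only [lap_add, hS3, hS3', add_zero]
    · intro t
      obtain ⟨p, hp⟩ := hHt' t
      obtain ⟨l, hl⟩ := hHt t
      refine ⟨p :: l, fun v => ?_⟩
      rw [Ht_add, map_add, hp, hl]
      simp only [List.map_cons, List.sum_cons, Pi.add_apply]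
      ring

lemma deg2P {q l : V → ℝ} (hq : q ∈ H 2) (hl : l ∈ H 1) (k : ℝ) :
    ∃ (F : P) (η : ℝ), (∀ v, eval v F = q v + l v + k) ∧ lap F = C η := by
  obtain ⟨a, b, c, d, e, g, hqe⟩ := ex2 hq
  obtain ⟨l0, l1, l2, hle⟩ := ex1 hl
  refine ⟨C a * X 0 ^ 2 + C b * X 0 * X 1 + C c * X 0 * X 2
    + C d * X 1 ^ 2 + C e * X 1 * X 2 + C g * X 2 ^ 2 + (C l0 * X 0 + C l1 * X 1 + C l2 * X 2)
    + C k, 2 * a + 2 * d + 2 * g, fun v => ?_, ?_⟩
  · rw [hqe, hle]; simp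
  · simp [lap, Fin.sum_univ_three, Derivation.leibniz, Derivation.leibniz_pow, pderiv_X, C2,
      pd2]
    try ring

lemma evH {p : P} {n : ℕ} (hp : p.IsHomogeneous n) : (fun v => eval v p) ∈ H n := by
  have h : (fun v => eval v p) = ∑ d ∈ p.support, coeff d p • mono (d 0) (d 1) (d 2) := by
    funext v
    rw [eval_eq', Finset.sum_apply]
    refine Finset.sum_congr rfl fun d _ => ?_
    simp [Fin.prod_univ_three, mono]
  rw [h]
  refine Submodule.sum_mem _ fun d hd => Submodule.smul_mem _ _ (mono_mem _ _ _ _ ?_)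
  have := hp (mem_support_iff.1 hd)
  simpa [Finsupp.weight_apply, Finsupp.sum_fintype, Fin.sum_univ_three] using this

end

end Pool.Agent.X21.Ht
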